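import Mathlib
import Pool.Agent.Lib.MP_0016c7_nt.Rz.Defs
import Pool.Agent.Lib.MP_0016c7_nt.Rz.DefsC
import Pool.Agent.Lib.MP_0016c7_nt.Rz2.QDefs
import Pool.Agent.Lib.MP_0016c7_nt.Rz2.QlsH
import Pool.Agent.Lib.MP_0016c7_nt.PC.Defs

set_option autoImplicit false

/-!
Project PrimeConductors, block [E]: the error terms summed over the sieve modulus (`JF_err`).
Definitions and statements of the pieces, with proofs in the docstrings. Owner: helper24.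

Idea: in `quad (Wt ..) (Wt ..) m M (NSm F σ c m Y)` the dual variable `t` is a nonsquare multiple
of `m` and all variables are prime to `2 m`. Write `t = u k₀ f²` (`u ∈ {±1, ±2}`, `k₀` odd
squarefree), `m₂ = gcd (m, f)`, `m₁ = m / m₂ ∣ k₀`. In the expansion of `gg (k₀ f²) N` into divisor
conditions `D ∣ N` and characters `(k₀ / (N / D))` the condition `(N, m₁) = 1` only restricts `D`
and is dropped after taking absolute values; the condition `(N, m₂) = 1` stays in the coefficients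
(`an m₂`). After that everything is as in `Rz2/SumK.lean`, uniformly in `r = m₂`, and the sum over
`m₁ ∣ k₀` costs a divisor function.
-/

open Finset MeasureTheory Filter Topology
open scoped Real ContDiff

namespace Pool.Agent.MP0016c7.PC

open Pool.Agent.MP0016c7.Rz

/-- Restriction of coefficients to the numbers prime to `m`. -/
noncomputable def rs (m : ℕ) (a : ℕ → ℂ) (n : ℕ) : ℂ := if Nat.Coprime n m then a n else 0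

/-- The upper bound of `T4` in `Rz2/T4le.lean`. -/
noncomputable def T4B (k₀ : ℤ) (f Z M : ℕ) (a₁ a₂ a₃ a₄ : ℕ → ℂ) : ℝ :=
  ∑ a ∈ f.divisors, ∑ b ∈ (f / a).divisors, ∑ g ∈ Icc 1 (Z * M), (b : ℝ) *
    ∑ δ₁ ∈ (g ^ 2 * (a * b ^ 2)).divisors, ∑ δ₂ ∈ (g ^ 2 * (a * b ^ 2) / δ₁).divisors,
      ∑ δ₃ ∈ (g ^ 2 * (a * b ^ 2) / δ₁ / δ₂).divisors,
        ‖SS k₀ a₁ Z δ₁ (g ^ 2 * (a * b ^ 2) / δ₁)‖ *
        ‖SS k₀ a₂ Z δ₂ (g ^ 2 * (a * b ^ 2) / δ₁ / δ₂)‖ *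
        ‖SS k₀ a₃ M δ₃ (g ^ 2 * (a * b ^ 2) / δ₁ / δ₂ / δ₃)‖ *
        ‖SS k₀ a₄ M (g ^ 2 * (a * b ^ 2) / δ₁ / δ₂ / δ₃) 1‖

/-- **E1** (`SS_n_fourth`, uniformly in `r`). Proof: text port of `SS_n_fourth` and its private
lemmas in `Rz2/SSmom.lean` (about 130 lines): there the constants `C`, `B` come from
`fourth_SA' ε hε`, which does not depend on `r`; only the order of the quantifiers changes. -/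
def S_E1 : Prop :=
  ∀ ε : ℝ, 0 < ε → ∃ (C : ℝ) (B : ℕ), 0 < C ∧ ∀ X : ℝ, 2 ≤ X → ∀ r : ℕ, Odd r →
    ∀ K M δ q : ℕ, 1 ≤ K → (K : ℝ) ≤ X ^ 4 → 1 ≤ δ → 0 < q →
    ∀ x : ℝ, 0 < x → x ≤ X ^ 4 → 2 * x ≤ M → ∀ s : ℂ, 0 ≤ s.re → s.re ≤ 1 →
    ∀ u : ℤ, (u = 1 ∨ u = -1 ∨ u = 2 ∨ u = -2) →
    ∑ m ∈ (Osf K).filter (fun m : ℕ => u * m ≠ 1), ‖SS (u * m) (an r s x) M δ q‖ ^ 4 / m ≤
      C * X ^ ε * ((q * r).divisors.card : ℝ) ^ 4 * (1 + ‖s‖) ^ B / (δ : ℝ) ^ 2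

/-- **E2** (bound of `T4` for coefficients restricted to numbers prime to a divisor `m` of `k₀`).
Proof: port of `Rz2/T4le.lean` (private lemmas `t4le_quad`, `t4le_term`, `t4le_eq`, `t4le_jr`,
theorem `T4_le`). `t4le_eq` applied to the restricted coefficients `rs m aᵢ` (they are supported on
odd numbers) writes `T4` as the sum over `a`, `b`, `g` of a coefficient of absolute value `≤ b`
times the inner sum `I D := Σ rs m a₁ l₁ * rs m a₂ l₂ * rs m a₃ n₁ * rs m a₄ n₂ * EDv k₀ D N`,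
`D = g² a b² > 0`, `N = l₁ l₂ n₁ n₂`. Case 1: `D` is not coprime to `m`. Then every term of `I D` is
`0`: otherwise `D ∣ N` and all of `l₁, l₂, n₁, n₂` are coprime to `m`, so `N` and `D` are; the
contribution `0` is `≤` the corresponding nonnegative term of `T4B`. Case 2: `D` is coprime to `m`.
Then in each term `rs m aᵢ` can be replaced by `aᵢ`: if `EDv k₀ D N ≠ 0` then `D ∣ N` and
`jr k₀ (N / D) ≠ 0`, so `N / D` is coprime to `k₀` (`jacobiSym` vanishes if the gcd is not `1`: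
`jacobiSym.eq_zero_iff_not_coprime` or `jacobiSym.ne_zero_iff`), hence to `m ∣ k₀`; so
`N = D * (N / D)` is coprime to `m` and so are its divisors `l₁, l₂, n₁, n₂`. Now `split_four`
(`Rz2/Split4.lean`) and norms exactly as in `T4_le`. -/
def S_E2 : Prop :=
  ∀ k₀ : ℤ, Squarefree k₀ → ∀ f Z M m : ℕ, 0 < f → (m : ℤ) ∣ k₀ → ∀ a₁ a₂ a₃ a₄ : ℕ → ℂ,
    (∀ n, a₁ n ≠ 0 → Odd n) → (∀ n, a₂ n ≠ 0 → Odd n) → (∀ n, a₃ n ≠ 0 → Odd n) →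
    (∀ n, a₄ n ≠ 0 → Odd n) →
    ‖T4 (k₀ * (f : ℤ) ^ 2) Z M (rs m a₁) (rs m a₂) (rs m a₃) (rs m a₄)‖ ≤
      T4B k₀ f Z M a₁ a₂ a₃ a₄

/-- **E3** (the sum over `k₀` of the bound, uniformly in `r`). Proof: text port of the private
lemmas `sumk_holder`, `sumk_swap`, `sumk_card`, `sumk_harm`, `sumk_inner`, `sumk_swap_card`,
`sumk_T4` of `Rz2/SumK.lean`, with these changes: in `sumk_inner` the constants are taken from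
`SS_l_fourth ε hε` (unchanged) and from `S_E1` instead of `SS_n_fourth ε hε r hr`, so that `r`
(odd) comes after `C`, `B`; in `sumk_T4` the first step (`T4_le`) is dropped, because the statement
is about `T4B` itself (unfold it); `r ≤ X ^ 4` and `X ^ 24` instead of `r ≤ X` and `X ^ 21`
(`D ≤ X ^ 20`); the hypotheses that `a₁`, `a₂` are supported on odd numbers are not needed. -/
def S_E3 : Prop :=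
  ∀ ε : ℝ, 0 < ε → ∃ (C : ℝ) (B : ℕ), 0 < C ∧ ∀ X : ℝ, 2 ≤ X → ∀ r : ℕ, Odd r →
    (r : ℝ) ≤ X ^ 4 → ∀ K₀ K Z M : ℕ, 1 ≤ K → K ≤ K₀ → (K : ℝ) ≤ X ^ 4 →
    (Z : ℝ) ≤ X ^ 4 → (M : ℝ) ≤ X ^ 4 → ∀ x : ℝ, 0 < x → 2 * x ≤ M →
    ∀ a₁ a₂ : ℕ → ℂ, (∀ n : ℕ, 1 ≤ n → ‖a₁ n‖ ≤ 1 / √(n : ℝ)) →
    (∀ n : ℕ, 1 ≤ n → ‖a₂ n‖ ≤ 1 / √(n : ℝ)) →
    ∀ s₁ s₂ : ℂ, 0 ≤ s₁.re → s₁.re ≤ 1 → 0 ≤ s₂.re → s₂.re ≤ 1 →
    ∀ u : ℤ, (u = 1 ∨ u = -1 ∨ u = 2 ∨ u = -2) → ∀ V L : ℝ, 0 ≤ V →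
    1 + Real.log ((Z * M : ℕ) : ℝ) ≤ L → ∀ f : ℕ, 0 < f → (f : ℝ) ^ 2 ≤ X ^ 4 →
    (∀ n : ℕ, 0 < n → (n : ℝ) ≤ X ^ 24 → (n.divisors.card : ℝ) ≤ V) →
    ∑ m ∈ (Osf K).filter (fun m : ℕ => u * m ≠ 1), (m : ℝ) ^ (-(1 / 2) : ℝ) *
      T4B (u * m) f Z M a₁ a₂ (an r s₁ x) (an r s₂ x) ≤
      V ^ 7 * L * (C * X ^ ε * ((1 + ‖s₁‖) * (1 + ‖s₂‖)) ^ B * (√(K₀ : ℝ) + Z))

open Classical in
/-- **E4** (the sum over the sieve modulus and the dual variable). Proof: port of `sumk` of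
`Rz2/SumK.lean` (private lemmas `sumk_cover`, `sumk_repr`, `sumk_decomp`, `sumk_card`, `sumk_harm`,
`sumk_sf`, `sumk_log`). Put `Φ (m, k) = |k|^(-1/2) ‖T4 k Z M (rs m a₁) (rs m a₂) (an m s₁ x)
(an m s₂ x)‖ ≥ 0`. By `sumk_cover` with the map `(u, f, m₂, k₀, m₁) ↦ (m₁ * m₂, u * k₀ * f ^ 2)` the
sum is at most `Σ_{u ∈ {1,-1,2,-2}} Σ_{f, f² ≤ K} Σ_{m₂ ∣ f, m₂ odd} Σ_{k₀ ∈ Osf (K / f²), u k₀ ≠ 1}
Σ_{m₁ ∣ k₀} Φ (m₁ m₂, u k₀ f²)`: for a nonsquare `k` take `k = u k₀ f²` from `sumk_repr`; for `m`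
odd squarefree with `m ∣ k` take `m₂ = gcd (m, f)`, `m₁ = m / m₂`; `m` is coprime to `u`, so
`m ∣ k₀ f²`; a prime dividing `m₁` and `f` would divide `m₂` too, against `m` squarefree; so `m₁` is
coprime to `f` and `m₁ ∣ k₀`. For every such tuple: `rs (m₁ * m₂) a = rs m₁ (rs m₂ a)` and
`an (m₁ * m₂) s x = rs m₁ (an m₂ s x)` (`Nat.coprime_mul_iff_right`), so by `S_E2` (`k₀ := u * k₀`,
squarefree by `sumk_sf`; `m₁ ∣ u k₀`)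
`Φ (m₁ m₂, u k₀ f²) ≤ k₀^(-1/2) f^(-1) T4B (u k₀) f Z M (rs m₂ a₁) (rs m₂ a₂) (an m₂ s₁ x)
(an m₂ s₂ x)`, independent of `m₁`; the number of `m₁` is at most `V`. Then `S_E3` with `ε / 4`,
`r := m₂ ≤ f ≤ X ^ 2`, the coefficients `rs m₂ aᵢ`, `K₀ := K`, `K := K / f²`. With
`V := Cd * X ^ (ε / 36)` (`divisor_bound (ε / 864)`, numbers up to `X ^ 24`) and
`L := (1 + 8 / (ε / 4)) * X ^ (ε / 4)` the total is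
`4 * L * V * V * (V ^ 7 * L * P)`, `P = C₀ X^(ε/4) (..)^B (√K + Z)`, and the power of `X` is
`9 ε / 36 + 2 ε / 4 + ε / 4 = ε`. -/
def S_E4 : Prop :=
  ∀ ε : ℝ, 0 < ε → ∃ (C : ℝ) (B : ℕ), 0 < C ∧ ∀ X : ℝ, 2 ≤ X → ∀ E K Z M : ℕ, 1 ≤ K →
    (K : ℝ) ≤ X ^ 4 → 1 ≤ Z → (Z : ℝ) ≤ X ^ 4 → (M : ℝ) ≤ X ^ 4 → ∀ x : ℝ, 0 < x → 2 * x ≤ M →
    ∀ a₁ a₂ : ℕ → ℂ, (∀ n : ℕ, 1 ≤ n → ‖a₁ n‖ ≤ 1 / √(n : ℝ)) →
    (∀ n : ℕ, 1 ≤ n → ‖a₂ n‖ ≤ 1 / √(n : ℝ)) → (∀ n, a₁ n ≠ 0 → Odd n) →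
    (∀ n, a₂ n ≠ 0 → Odd n) → ∀ s₁ s₂ : ℂ, 0 ≤ s₁.re → s₁.re ≤ 1 → 0 ≤ s₂.re → s₂.re ≤ 1 →
    ∑ m ∈ Osq E, ∑ k ∈ (Icc (-(K : ℤ)) K).filter (fun k => ¬ IsSquare k ∧ (m : ℤ) ∣ k),
      |(k : ℝ)| ^ (-(1 / 2) : ℝ) *
        ‖T4 k Z M (rs m a₁) (rs m a₂) (an m s₁ x) (an m s₂ x)‖ ≤
      C * X ^ ε * ((1 + ‖s₁‖) * (1 + ‖s₂‖)) ^ B * (√(K : ℝ) + Z)

open Classical in
/-- **E5** (the same with separable weights). Proof: text port of `sumk_W` of `Rz2/SumKW.lean` with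
its private lemmas (`skw_reorder`, `skw_split`, `skw_norm_al`, `skw_point`, `skw_int`, ...; they are
for arbitrary `r`), where the sum over `k ∈ S` is replaced by the double sum over `m ∈ Osq E` and
`k ∈ S m` and `r` by `m`: `G m k z` = the old `G k z` with `r := m`; `T4 k Z M (al m ..) (al m ..)
(an m ..) (an m ..)`, and `al m w = rs m (al 1 w)` (`Nat.Coprime n (2 * m) ↔ Nat.Coprime n (2 * 1) ∧
Nat.Coprime n m`), so `S_E4` with `aᵢ := al 1 (vᵢ - I τ)` (norm `≤ 1 / √n`, supported on odd numbers)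
replaces `sumk`. `K ≤ X ^ 4` instead of `K ≤ X ^ 2`; no condition on `E`. -/
def S_E5 : Prop :=
  ∀ ε : ℝ, 0 < ε → ∀ θ : ℝ, 0 < θ → θ < 1 / 2 → ∃ B : ℕ, ∀ C : ℝ, 0 < C →
    ∃ C' X₀ : ℝ, 0 < C' ∧ ∀ X : ℝ, X₀ ≤ X → ∀ W₁ W₂ : ℕ → ℕ → ℝ,
    LipW θ X C W₁ → LipW θ X C W₂ → SepW B C W₁ → SepW B C W₂ → ∀ E K : ℕ, 1 ≤ K →
    (K : ℝ) ≤ X ^ 4 → ∀ τ : ℝ,
    ∑ m ∈ Osq E, ∑ k ∈ (Icc (-(K : ℤ)) K).filter (fun k => ¬ IsSquare k ∧ (m : ℤ) ∣ k),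
      |(k : ℝ)| ^ (-(1 / 2) : ℝ) *
    ‖∑ n₁ ∈ Icc 1 ⌊X ^ 2⌋₊, ∑ l₁ ∈ Icc 1 ⌊X ^ 2⌋₊, ∑ n₂ ∈ Icc 1 ⌊X ^ 2⌋₊, ∑ l₂ ∈ Icc 1 ⌊X ^ 2⌋₊,
      if Nat.Coprime (n₁ * l₁ * n₂ * l₂) (2 * m) then
        (ArithmeticFunction.moebius l₁ : ℂ) * (ArithmeticFunction.moebius l₂ : ℂ) *
          (W₁ l₁ n₁ : ℂ) * (W₂ l₂ n₂ : ℂ) * (gg k (n₁ * l₁ * n₂ * l₂) : ℂ) *
          ((n₁ * l₁ * n₂ * l₂ : ℕ) : ℂ) ^ (Complex.I * τ) else 0‖ ≤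
      C' * X ^ ε * (1 + |τ|) ^ (2 * B) * (√(K : ℝ) + X ^ θ)

open Classical in
/-- **E6** (truncation of `NSm`, uniformly in `m`). Proof: text port of `NSc_tail` of
`Rz2/NSc.lean` (with the private lemma `nsc_gg`): `2 * N` becomes `2 * m ^ 2 * N`, and
`m ^ 2 * N ≤ X ^ (1 + 2 * θ)` replaces `N ≤ X ^ (1 + 2 * θ)` (also `|gg k N| ≤ N ≤ m ^ 2 * N`);
the terms with `¬ (m : ℤ) ∣ k` are `0` on both sides. -/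
def S_E6 : Prop :=
  ∀ (F : ℝ → ℝ) (a b : ℝ), 0 < a → Bump F a b → ∀ (σ : ℤ) (θ ε C A : ℝ), 0 < θ → θ < 1 / 2 →
    0 < ε → 0 < C → ∃ X₀ : ℝ, ∀ X : ℝ, X₀ ≤ X → ∀ c : ℤ → ℝ, (∀ k, |c k| ≤ 2) →
    ∀ N m : ℕ, 1 ≤ N → 1 ≤ m → (m : ℝ) ^ 2 * N ≤ X ^ (1 + 2 * θ) → ∀ Y : ℝ, X / C ≤ Y →
      |NSm F σ c m Y N - ∑ k ∈ Icc (-(⌊X ^ (2 * θ + ε)⌋₊ : ℤ)) ⌊X ^ (2 * θ + ε)⌋₊,
        (if IsSquare k ∨ ¬ (m : ℤ) ∣ k then 0 else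
          c k * gg k N * Ft F σ ((k : ℝ) * Y / (2 * (m : ℝ) ^ 2 * N)))| ≤ X ^ (-A)

/-- **E7** (the general error term). Proof: text port of `err_general2` of `Rz2/ErrG2.lean` with its
private lemmas `e2c`, `e2n`, `e2P`, `e2_*` (they are for arbitrary `r`, use `r := m`). Let
`η₀ := 1/2 - θ - η`, `ε := η₀ / 8`, `ε₀ := ε`, `B` from `S_E5 ε θ`. For each `m ∈ Osq ⌊X^η⌋`
(`1 ≤ m ≤ X ^ η`): truncation by `S_E6` with `θ := θ + η`, `A := 12`, `K1 := ⌊X ^ (2 (θ + η) + ε)⌋`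
(`m ^ 2 * N ≤ X ^ (1 + 2 (θ + η))` on the support); `e2_stepA` gives the error `M ^ 4 C² X^(-12)`,
and `Σ_m |v m| / m ≤ X ^ (η + ε₀)`. For each nonsquare `k` with `m ∣ k`, `|k| ≤ K1`, `e2_key` with
`t := |k| * (Y / (2 m²))` gives
`|Σ_q e2c q / √N_q * (gg k N_q * Ft F σ (k Y / (2 m² N_q)))| ≤
 (Y / 2)^(-1/2) * (m * (|k|^(-1/2) * ∫ g τ ‖S m k τ‖))` (`(m²)^(1/2) = m`), so the factor `1 / m` in
front cancels and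
`|Σ_m v m / m * quad ..| ≤ X^ε₀ * 2 * (Y/2)^(-1/2) * Σ_m Σ_{k ∈ Q m} |k|^(-1/2) ∫ g ‖S m k‖ + ..
 ≤ X^ε₀ * 2 * (2 C X^(-1))^(1/2) * K X^ε (√K1 + X^θ) I`, where the sum over `m` and `k` is inside the
integral, as in the part `hsumint` (`S_E5`); `√K1 ≤ X ^ (θ + η + ε / 2)`. Total power of `X`:
`ε₀ - 1/2 + ε + θ + η + ε / 2 < -η₀ / 2`; take `η' := η₀ / 4`. (`K1 ≤ X ^ 4`.) -/
def S_E7 : Prop :=
  ∀ θ η : ℝ, 0 < θ → 0 < η → θ + η < 1 / 2 → ∀ (F : ℝ → ℝ) (a b : ℝ), 0 < a → Bump F a b →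
    ∀ σ : ℤ, (σ = 1 ∨ σ = -1) → ∃ B : ℕ, ∀ C : ℝ, 0 < C →
    ∃ ε₀ η' X₀ : ℝ, 0 < ε₀ ∧ 0 < η' ∧ ∀ X : ℝ, X₀ ≤ X → ∀ Y : ℝ, X / C ≤ Y → Y ≤ C * X →
    ∀ W₁ W₂ : ℕ → ℕ → ℝ, LipW θ X C W₁ → LipW θ X C W₂ → SepW B C W₁ → SepW B C W₂ →
    ∀ c : ℤ → ℝ, (∀ k, |c k| ≤ 2) → ∀ v : ℕ → ℝ, (∀ m, |v m| ≤ X ^ ε₀) →
    |∑ m ∈ Osq ⌊X ^ η⌋₊, v m / m * quad W₁ W₂ m ⌊X ^ 2⌋₊ (NSm F σ c m Y)| ≤ X ^ (-η')

end Pool.Agent.MP0016c7.PC
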