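import Mathlib
import Pool.Agent.Lib.MP_0016c7_nt.PC.E.EStm
import Pool.Agent.Lib.MP_0016c7_nt.Rz2.SSmom
import Pool.Agent.Lib.MP_0016c7_nt.Rz2.Fourth2
import Pool.Agent.Lib.MP_0016c7_nt.Rz2.VsBd
import Pool.Agent.Lib.MP_0016c7_nt.Rz2.FourthSA

set_option autoImplicit false

/-!
Piece E1: fourth moments of `SS`, uniformly in `r` (port of `Rz2/SSmom.lean`).
-/

open Finset MeasureTheory Filter Topology
open scoped Real ContDiff

namespace Pool.Agent.MP0016c7.PC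

open Pool.Agent.MP0016c7.Rz

private theorem e1_pow4 (δ : ℕ) (hδ : 1 ≤ δ) : (1 / √(δ : ℝ)) ^ 4 = 1 / (δ : ℝ) ^ 2 := by
  have h : (√(δ : ℝ)) ^ 4 = (δ : ℝ) ^ 2 := by
    calc (√(δ : ℝ)) ^ 4 = ((√(δ : ℝ)) ^ 2) ^ 2 := by ring
      _ = (δ : ℝ) ^ 2 := by rw [Real.sq_sqrt (by positivity)]
  rw [div_pow, one_pow, h]

private theorem e1_cop (r n : ℕ) (hn : Odd n) : Nat.Coprime n (2 * r) ↔ Nat.Coprime n r := by
  rw [Nat.coprime_mul_iff_right]
  exact ⟨fun h => h.2, fun h => ⟨Nat.coprime_two_right.mpr hn, h⟩⟩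

private theorem e1_SS_eq (k : ℤ) (r : ℕ) (s : ℂ) (M δ q : ℕ) (hδ : 1 ≤ δ)
    (x : ℝ) (hx : 0 < x) (hM : 2 * x ≤ M) (hc : Nat.Coprime δ (2 * r)) :
    SS k (an r s x) M δ q =
      (δ : ℂ) ^ (-(1 / 2 : ℂ) - s) * SA k s (x / δ) (q * r) := by
  have hδ0 : (0 : ℝ) < δ := by exact_mod_cast hδ
  unfold SS SA
  rw [Finset.sum_filter, Finset.sum_filter, Finset.mul_sum]
  have hsub : Icc 1 ⌊2 * (x / (δ : ℝ))⌋₊ ⊆ Icc 1 (M / δ) := by
    apply Finset.Icc_subset_Icc le_rfl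
    rw [Nat.le_div_iff_mul_le hδ]
    have h1 : ((⌊2 * (x / (δ : ℝ))⌋₊ : ℕ) : ℝ) ≤ 2 * (x / (δ : ℝ)) :=
      Nat.floor_le (by positivity)
    have h2 : ((⌊2 * (x / (δ : ℝ))⌋₊ * δ : ℕ) : ℝ) ≤ M := by
      push_cast
      calc ((⌊2 * (x / (δ : ℝ))⌋₊ : ℕ) : ℝ) * δ ≤ 2 * (x / (δ : ℝ)) * δ :=
            mul_le_mul_of_nonneg_right h1 hδ0.le
        _ = 2 * x := by field_simp
        _ ≤ M := hM
    exact_mod_cast h2
  symm
  apply Finset.sum_subset_zero_on_sdiff hsub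
  · intro n hn
    rw [Finset.mem_sdiff, Finset.mem_Icc, Finset.mem_Icc] at hn
    have hn1 : ⌊2 * (x / (δ : ℝ))⌋₊ < n := by omega
    have h1 : 2 * (x / (δ : ℝ)) < n := Nat.lt_of_floor_lt hn1
    have h2 : 2 ≤ ((δ * n : ℕ) : ℝ) / x := by
      rw [le_div_iff₀ hx]
      push_cast
      have h3 : 2 * x / δ < n := by rw [mul_div_assoc]; exact h1
      rw [div_lt_iff₀ hδ0] at h3
      linarith
    split_ifs
    · unfold an
      rw [om_eq_zero h2]
      simp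
    · rfl
  · intro n hn
    rw [Finset.mem_Icc] at hn
    rcases Nat.even_or_odd n with hev | hodd
    · have hj : jr k n = 0 := by
        unfold jr
        rw [if_neg (by rw [Nat.not_odd_iff_even]; exact hev)]
      rw [hj]
      simp
    · have hcc : Nat.Coprime (δ * n) (2 * r) ↔ Nat.Coprime n r := by
        rw [Nat.coprime_mul_iff_left, e1_cop r n hodd]
        exact ⟨fun h => h.2, fun h => ⟨hc, h⟩⟩
      have hom : (((δ * n : ℕ) : ℝ) / x) = (n : ℝ) / (x / δ) := by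
        push_cast
        field_simp
      have hcp : (((δ * n : ℕ) : ℂ)) ^ (-(1 / 2 : ℂ) - s) =
          (δ : ℂ) ^ (-(1 / 2 : ℂ) - s) * (n : ℂ) ^ (-(1 / 2 : ℂ) - s) := by
        rw [Nat.cast_mul, Complex.natCast_mul_natCast_cpow]
      by_cases hq : Nat.Coprime n q
      · by_cases hr : Nat.Coprime n r
        · rw [if_pos (Nat.coprime_mul_iff_right.mpr ⟨hq, hr⟩), if_pos hq]
          unfold an
          rw [if_pos (hcc.mpr hr), hom, hcp]
          ring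
        · rw [if_neg (fun h => hr (Nat.coprime_mul_iff_right.mp h).2), if_pos hq]
          unfold an
          rw [if_neg (fun h => hr (hcc.mp h))]
          simp
      · rw [if_neg (fun h => hq (Nat.coprime_mul_iff_right.mp h).1), if_neg hq]
        simp

theorem p_E1 [QlsHyp] : S_E1 := by
  intro ε hε
  obtain ⟨C, B, hC, hf⟩ := fourth_SA' ε hε
  refine ⟨C, B, hC, ?_⟩
  intro X hX r hr K M δ q hK hKX hδ hq x hx hxX hM s hs0 hs1 u hu
  have hδ0 : (0 : ℝ) < δ := by exact_mod_cast hδ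
  have hδ1 : (1 : ℝ) ≤ δ := by exact_mod_cast hδ
  have hX0 : (0 : ℝ) < X := by linarith
  by_cases hc : Nat.Coprime δ (2 * r)
  · have hr0 : 0 < r := hr.pos
    have h1 := hf X hX K hK hKX (x / δ) (by positivity)
      ((div_le_self hx.le hδ1).trans hxX) (q * r) (Nat.mul_pos hq hr0) s hs0 hs1 u hu
    have h2 : ∀ m ∈ (Osf K).filter (fun m : ℕ => u * m ≠ 1),
        ‖SS (u * m) (an r s x) M δ q‖ ^ 4 / m ≤
          (1 / (δ : ℝ) ^ 2) * (‖SA (u * m) s (x / δ) (q * r)‖ ^ 4 / m) := by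
      intro m _
      rw [e1_SS_eq _ r s M δ q hδ x hx hM hc, norm_mul]
      have h3 : ‖(δ : ℂ) ^ (-(1 / 2 : ℂ) - s)‖ ≤ 1 / √(δ : ℝ) := by
        have : ((δ : ℕ) : ℂ) = ((δ : ℝ) : ℂ) := by push_cast; rfl
        rw [this, Complex.norm_cpow_eq_rpow_re_of_pos hδ0]
        have e : (1 : ℝ) / √(δ : ℝ) = (δ : ℝ) ^ (-(1 / 2) : ℝ) := by
          rw [Real.rpow_neg hδ0.le, ← Real.sqrt_eq_rpow, one_div]
        rw [e]
        apply Real.rpow_le_rpow_of_exponent_le hδ1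
        simp only [Complex.sub_re, Complex.neg_re]
        norm_num
        exact hs0
      have h4 : (‖(δ : ℂ) ^ (-(1 / 2 : ℂ) - s)‖ * ‖SA (u * m) s (x / δ) (q * r)‖) ^ 4 ≤
          (1 / (δ : ℝ) ^ 2) * ‖SA (u * m) s (x / δ) (q * r)‖ ^ 4 := by
        rw [mul_pow, ← e1_pow4 δ hδ]
        gcongr
      calc (‖(δ : ℂ) ^ (-(1 / 2 : ℂ) - s)‖ * ‖SA (u * m) s (x / δ) (q * r)‖) ^ 4 / m
          ≤ ((1 / (δ : ℝ) ^ 2) * ‖SA (u * m) s (x / δ) (q * r)‖ ^ 4) / m := by gcongr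
        _ = _ := by ring
    calc ∑ m ∈ (Osf K).filter (fun m : ℕ => u * m ≠ 1), ‖SS (u * m) (an r s x) M δ q‖ ^ 4 / m
        ≤ ∑ m ∈ (Osf K).filter (fun m : ℕ => u * m ≠ 1),
          (1 / (δ : ℝ) ^ 2) * (‖SA (u * m) s (x / δ) (q * r)‖ ^ 4 / m) := Finset.sum_le_sum h2
      _ = (1 / (δ : ℝ) ^ 2) * ∑ m ∈ (Osf K).filter (fun m : ℕ => u * m ≠ 1),
          ‖SA (u * m) s (x / δ) (q * r)‖ ^ 4 / m := by rw [Finset.mul_sum]
      _ ≤ (1 / (δ : ℝ) ^ 2) *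
          (C * X ^ ε * ((q * r).divisors.card : ℝ) ^ 4 * (1 + ‖s‖) ^ B) :=
          mul_le_mul_of_nonneg_left h1 (by positivity)
      _ = _ := by ring
  · have e : ∀ m ∈ (Osf K).filter (fun m : ℕ => u * m ≠ 1),
        ‖SS (u * m) (an r s x) M δ q‖ ^ 4 / m = 0 := by
      intro m _
      have e1 : SS (u * m) (an r s x) M δ q = 0 := by
        unfold SS
        apply Finset.sum_eq_zero
        intro n _
        unfold an
        rw [if_neg, zero_mul]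
        intro h
        exact hc (Nat.Coprime.coprime_mul_right h)
      rw [e1]
      simp
    rw [Finset.sum_eq_zero e]
    positivity

end Pool.Agent.MP0016c7.PC
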