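import Mathlib
import Pool.Agent.Lib.MP_0016c7_nt.Rz.Defs
import Pool.Agent.Lib.MP_0016c7_nt.Rz2.QDefs
import Pool.Agent.Lib.MP_0016c7_nt.Rz2.GGx
import Pool.Agent.Lib.MP_0016c7_nt.Rz2.Split4
import Pool.Agent.Lib.MP_0016c7_nt.PC.E.EStm

set_option autoImplicit false

/-!
Piece E2: bound of the quadruple sum for coefficients restricted to the numbers prime to `m`.
-/

open Finset MeasureTheory Filter Topology
open scoped Real ContDiff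

namespace Pool.Agent.MP0016c7.PC

open Pool.Agent.MP0016c7.Rz

private theorem e2_quad (Z M : ℕ) (F : ℕ → ℕ → ℕ → ℕ → ℂ) :
    ∑ l₁ ∈ Icc 1 Z, ∑ l₂ ∈ Icc 1 Z, ∑ n₁ ∈ Icc 1 M, ∑ n₂ ∈ Icc 1 M, F l₁ l₂ n₁ n₂ =
      ∑ q ∈ Icc 1 Z ×ˢ Icc 1 Z ×ˢ Icc 1 M ×ˢ Icc 1 M, F q.1 q.2.1 q.2.2.1 q.2.2.2 := by
  simp only [Finset.sum_product]

private theorem e2_term (k₀ : ℤ) (hk : Squarefree k₀) (f Z M : ℕ) (hf : 0 < f)
    (c : ℂ) (l₁ l₂ n₁ n₂ : ℕ) (hl₁ : l₁ ∈ Icc 1 Z) (hl₂ : l₂ ∈ Icc 1 Z) (hn₁ : n₁ ∈ Icc 1 M)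
    (hn₂ : n₂ ∈ Icc 1 M) (ho : c ≠ 0 → Odd (l₁ * l₂ * n₁ * n₂)) :
    c * ((√((l₁ * l₂ * n₁ * n₂ : ℕ) : ℝ) * gg (k₀ * (f : ℤ) ^ 2) (l₁ * l₂ * n₁ * n₂) : ℝ) : ℂ) =
      ∑ a ∈ f.divisors, ∑ b ∈ (f / a).divisors, ∑ g ∈ Icc 1 (Z * M),
        (((ArithmeticFunction.moebius g : ℝ) * (ArithmeticFunction.moebius a : ℝ) * jr k₀ a * b :
          ℝ) : ℂ) * (c * (EDv k₀ (g ^ 2 * (a * b ^ 2)) (l₁ * l₂ * n₁ * n₂) : ℂ)) := by
  by_cases hc : c = 0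
  · simp [hc]
  · rw [Finset.mem_Icc] at hl₁ hl₂ hn₁ hn₂
    have hN : l₁ * l₂ * n₁ * n₂ ≤ (Z * M) ^ 2 := by
      calc l₁ * l₂ * n₁ * n₂ ≤ Z * Z * M * M :=
            Nat.mul_le_mul (Nat.mul_le_mul (Nat.mul_le_mul hl₁.2 hl₂.2) hn₁.2) hn₂.2
        _ = (Z * M) ^ 2 := by ring
    have hpos : 0 < l₁ * l₂ * n₁ * n₂ :=
      Nat.mul_pos (Nat.mul_pos (Nat.mul_pos hl₁.1 hl₂.1) hn₁.1) hn₂.1
    have hsq : √((l₁ * l₂ * n₁ * n₂ : ℕ) : ℝ) ≠ 0 :=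
      (Real.sqrt_pos.2 (by exact_mod_cast hpos)).ne'
    rw [gg_expand k₀ hk f _ (Z * M) hf (ho hc) hN, mul_div_cancel₀ _ hsq]
    push_cast
    rw [Finset.mul_sum]
    refine Finset.sum_congr rfl fun a _ => ?_
    rw [Finset.mul_sum]
    refine Finset.sum_congr rfl fun b _ => ?_
    rw [Finset.mul_sum]
    refine Finset.sum_congr rfl fun g _ => ?_
    ring

private theorem e2_eq (k₀ : ℤ) (hk : Squarefree k₀) (f Z M : ℕ) (hf : 0 < f)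
    (a₁ a₂ a₃ a₄ : ℕ → ℂ)
    (h₁ : ∀ n, a₁ n ≠ 0 → Odd n) (h₂ : ∀ n, a₂ n ≠ 0 → Odd n) (h₃ : ∀ n, a₃ n ≠ 0 → Odd n)
    (h₄ : ∀ n, a₄ n ≠ 0 → Odd n) :
    T4 (k₀ * (f : ℤ) ^ 2) Z M a₁ a₂ a₃ a₄ =
      ∑ a ∈ f.divisors, ∑ b ∈ (f / a).divisors, ∑ g ∈ Icc 1 (Z * M),
        (((ArithmeticFunction.moebius g : ℝ) * (ArithmeticFunction.moebius a : ℝ) * jr k₀ a * b :
          ℝ) : ℂ) * ∑ l₁ ∈ Icc 1 Z, ∑ l₂ ∈ Icc 1 Z, ∑ n₁ ∈ Icc 1 M, ∑ n₂ ∈ Icc 1 M,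
            a₁ l₁ * a₂ l₂ * a₃ n₁ * a₄ n₂ *
              (EDv k₀ (g ^ 2 * (a * b ^ 2)) (l₁ * l₂ * n₁ * n₂) : ℂ) := by
  unfold T4
  rw [e2_quad]
  simp_rw [e2_quad]
  have h : ∀ q ∈ Icc 1 Z ×ˢ Icc 1 Z ×ˢ Icc 1 M ×ˢ Icc 1 M,
      a₁ q.1 * a₂ q.2.1 * a₃ q.2.2.1 * a₄ q.2.2.2 *
        ((√((q.1 * q.2.1 * q.2.2.1 * q.2.2.2 : ℕ) : ℝ) *
          gg (k₀ * (f : ℤ) ^ 2) (q.1 * q.2.1 * q.2.2.1 * q.2.2.2) : ℝ) : ℂ) =
      ∑ a ∈ f.divisors, ∑ b ∈ (f / a).divisors, ∑ g ∈ Icc 1 (Z * M),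
        (((ArithmeticFunction.moebius g : ℝ) * (ArithmeticFunction.moebius a : ℝ) * jr k₀ a * b :
          ℝ) : ℂ) * (a₁ q.1 * a₂ q.2.1 * a₃ q.2.2.1 * a₄ q.2.2.2 *
            (EDv k₀ (g ^ 2 * (a * b ^ 2)) (q.1 * q.2.1 * q.2.2.1 * q.2.2.2) : ℂ)) := by
    intro q hq
    simp only [Finset.mem_product] at hq
    refine e2_term k₀ hk f Z M hf _ _ _ _ _ hq.1 hq.2.1 hq.2.2.1 hq.2.2.2 fun hc => ?_
    have e4 := right_ne_zero_of_mul hc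
    have e' := left_ne_zero_of_mul hc
    have e3 := right_ne_zero_of_mul e'
    have e'' := left_ne_zero_of_mul e'
    exact (((h₁ _ (left_ne_zero_of_mul e'')).mul (h₂ _ (right_ne_zero_of_mul e''))).mul
      (h₃ _ e3)).mul (h₄ _ e4)
  rw [Finset.sum_congr rfl h, Finset.sum_comm]
  refine Finset.sum_congr rfl fun a _ => ?_
  rw [Finset.sum_comm]
  refine Finset.sum_congr rfl fun b _ => ?_
  rw [Finset.sum_comm]
  refine Finset.sum_congr rfl fun g _ => ?_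
  rw [Finset.mul_sum]

private theorem e2_jr (k : ℤ) (n : ℕ) : |jr k n| ≤ 1 := by
  unfold jr
  split_ifs
  · rcases jacobiSym.trichotomy k n with h | h | h <;> rw [h] <;> norm_num
  · norm_num


private theorem e2_cop (k₀ : ℤ) (m D N : ℕ) (hm : (m : ℤ) ∣ k₀) (h : EDv k₀ D N ≠ 0) :
    D ∣ N ∧ Nat.Coprime (N / D) m := by
  unfold EDv at h
  split_ifs at h with hd
  · refine ⟨hd, ?_⟩
    unfold jr at h
    split_ifs at h with ho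
    · have h0 : NeZero (N / D) := ⟨by intro h0; rw [h0] at ho; exact absurd ho (by decide)⟩
      have hj : jacobiSym k₀ (N / D) ≠ 0 := by
        intro h1
        rw [h1] at h
        exact h (by norm_num)
      have hg : k₀.gcd ((N / D : ℕ) : ℤ) = 1 := by
        by_contra hg
        exact hj (jacobiSym.eq_zero_iff_not_coprime.2 hg)
      have hd2 : Nat.gcd (N / D) m ∣ k₀.gcd ((N / D : ℕ) : ℤ) := by
        apply Int.dvd_gcd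
        · exact dvd_trans (by exact_mod_cast Nat.gcd_dvd_right (N / D) m) hm
        · exact_mod_cast Nat.gcd_dvd_left (N / D) m
      rw [hg] at hd2
      exact Nat.dvd_one.1 hd2
    · exact absurd rfl h
  · exact absurd rfl h

private theorem e2_rs_ne (m : ℕ) (a : ℕ → ℂ) (n : ℕ) (h : rs m a n ≠ 0) :
    Nat.Coprime n m ∧ a n ≠ 0 := by
  unfold rs at h
  split_ifs at h with hc
  · exact ⟨hc, h⟩
  · exact absurd rfl h

private theorem e2_rterm (k₀ : ℤ) (m D : ℕ) (hm : (m : ℤ) ∣ k₀) (a₁ a₂ a₃ a₄ : ℕ → ℂ)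
    (l₁ l₂ n₁ n₂ : ℕ) :
    rs m a₁ l₁ * rs m a₂ l₂ * rs m a₃ n₁ * rs m a₄ n₂ *
      (EDv k₀ D (l₁ * l₂ * n₁ * n₂) : ℂ) =
    if Nat.Coprime D m then a₁ l₁ * a₂ l₂ * a₃ n₁ * a₄ n₂ *
      (EDv k₀ D (l₁ * l₂ * n₁ * n₂) : ℂ) else 0 := by
  by_cases hE : EDv k₀ D (l₁ * l₂ * n₁ * n₂) = 0
  · simp [hE]
  obtain ⟨hd, hc⟩ := e2_cop k₀ m D _ hm hE
  have hN : l₁ * l₂ * n₁ * n₂ = D * (l₁ * l₂ * n₁ * n₂ / D) := (Nat.mul_div_cancel' hd).symm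
  by_cases hD : Nat.Coprime D m
  · rw [if_pos hD]
    have hNc : Nat.Coprime (l₁ * l₂ * n₁ * n₂) m := by
      rw [hN]
      exact Nat.Coprime.mul_left hD hc
    have c4 : Nat.Coprime n₂ m := Nat.Coprime.coprime_dvd_left (Dvd.intro_left _ rfl) hNc
    have c3 : Nat.Coprime n₁ m :=
      Nat.Coprime.coprime_dvd_left (Dvd.intro_left _ rfl)
        (Nat.Coprime.coprime_dvd_left (Dvd.intro _ rfl) hNc)
    have c12 : Nat.Coprime (l₁ * l₂) m :=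
      Nat.Coprime.coprime_dvd_left (Dvd.intro _ rfl)
        (Nat.Coprime.coprime_dvd_left (Dvd.intro _ rfl) hNc)
    have c1 : Nat.Coprime l₁ m := Nat.Coprime.coprime_dvd_left (Dvd.intro _ rfl) c12
    have c2 : Nat.Coprime l₂ m := Nat.Coprime.coprime_dvd_left (Dvd.intro_left _ rfl) c12
    unfold rs
    rw [if_pos c1, if_pos c2, if_pos c3, if_pos c4]
  · rw [if_neg hD]
    by_contra hne
    have e0 := left_ne_zero_of_mul hne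
    have e4 := right_ne_zero_of_mul e0
    have e' := left_ne_zero_of_mul e0
    have e3 := right_ne_zero_of_mul e'
    have e'' := left_ne_zero_of_mul e'
    have c1 := (e2_rs_ne _ _ _ (left_ne_zero_of_mul e'')).1
    have c2 := (e2_rs_ne _ _ _ (right_ne_zero_of_mul e'')).1
    have c3 := (e2_rs_ne _ _ _ e3).1
    have c4 := (e2_rs_ne _ _ _ e4).1
    exact hD (Nat.Coprime.coprime_dvd_left hd
      (((c1.mul_left c2).mul_left c3).mul_left c4))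

theorem p_E2 : S_E2 := by
  intro k₀ hk f Z M m hf hm a₁ a₂ a₃ a₄ h₁ h₂ h₃ h₄
  unfold T4B
  rw [e2_eq k₀ hk f Z M hf (rs m a₁) (rs m a₂) (rs m a₃) (rs m a₄)
    (fun n hn => h₁ n (e2_rs_ne _ _ _ hn).2) (fun n hn => h₂ n (e2_rs_ne _ _ _ hn).2)
    (fun n hn => h₃ n (e2_rs_ne _ _ _ hn).2) (fun n hn => h₄ n (e2_rs_ne _ _ _ hn).2)]
  refine (norm_sum_le _ _).trans (Finset.sum_le_sum fun a ha => ?_)
  refine (norm_sum_le _ _).trans (Finset.sum_le_sum fun b hb => ?_)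
  refine (norm_sum_le _ _).trans (Finset.sum_le_sum fun g hg => ?_)
  have ha0 : 0 < a := Nat.pos_of_mem_divisors ha
  have hb0 : 0 < b := Nat.pos_of_mem_divisors hb
  have hg0 : 0 < g := (Finset.mem_Icc.1 hg).1
  have hD : 0 < g ^ 2 * (a * b ^ 2) := by positivity
  simp_rw [e2_rterm k₀ m (g ^ 2 * (a * b ^ 2)) hm a₁ a₂ a₃ a₄]
  by_cases hc : Nat.Coprime (g ^ 2 * (a * b ^ 2)) m
  · simp only [if_pos hc]
    rw [norm_mul, split_four k₀ a₁ a₂ a₃ a₄ Z M _ hD]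
    have hc : ‖(((ArithmeticFunction.moebius g : ℝ) * (ArithmeticFunction.moebius a : ℝ) *
        jr k₀ a * b : ℝ) : ℂ)‖ ≤ (b : ℝ) := by
      rw [Complex.norm_real, Real.norm_eq_abs, abs_mul, abs_mul, abs_mul]
      have m1 : |(ArithmeticFunction.moebius g : ℝ)| ≤ 1 := by
        exact_mod_cast ArithmeticFunction.abs_moebius_le_one
      have m2 : |(ArithmeticFunction.moebius a : ℝ)| ≤ 1 := by
        exact_mod_cast ArithmeticFunction.abs_moebius_le_one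
      have m3 := e2_jr k₀ a
      have hb' : |(b : ℝ)| = b := abs_of_nonneg (Nat.cast_nonneg b)
      rw [hb']
      calc |(ArithmeticFunction.moebius g : ℝ)| * |(ArithmeticFunction.moebius a : ℝ)| *
            |jr k₀ a| * (b : ℝ) ≤ 1 * 1 * 1 * b := by
            gcongr
        _ = b := by ring
    refine mul_le_mul hc ?_ (norm_nonneg _) (Nat.cast_nonneg b)
    refine (norm_sum_le _ _).trans (Finset.sum_le_sum fun δ₁ _ => ?_)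
    refine (norm_sum_le _ _).trans (Finset.sum_le_sum fun δ₂ _ => ?_)
    refine (norm_sum_le _ _).trans (Finset.sum_le_sum fun δ₃ _ => ?_)
    rw [norm_mul, norm_mul, norm_mul]
  · simp only [if_neg hc, Finset.sum_const_zero, mul_zero, norm_zero]
    positivity

end Pool.Agent.MP0016c7.PC
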