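import Pool.Agent.Lib.MP_0016c7_nt.PC.E.EStm
import Pool.Agent.Lib.MP_0016c7_nt.Rz.DivB
import Pool.Agent.Lib.MP_0016c7_nt.Rz2.SSmom

set_option autoImplicit false

open Finset MeasureTheory Filter Topology
open scoped Real ContDiff

namespace Pool.Agent.MP0016c7.PC

open Pool.Agent.MP0016c7.Rz

private lemma e3_holder {ι : Type*} (S : Finset ι) (w s₁ s₂ s₃ s₄ : ι → ℝ) (Q₁ Q₂ Q₃ Q₄ : ℝ)
    (h1 : ∑ i ∈ S, s₁ i ^ 4 ≤ Q₁) (h2 : ∑ i ∈ S, s₂ i ^ 4 ≤ Q₂)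
    (h3 : ∑ i ∈ S, (w i ^ 2) * s₃ i ^ 4 ≤ Q₃) (h4 : ∑ i ∈ S, (w i ^ 2) * s₄ i ^ 4 ≤ Q₄) :
    (∑ i ∈ S, w i * (s₁ i * s₂ i * s₃ i * s₄ i)) ^ 4 ≤ Q₁ * Q₂ * Q₃ * Q₄ := by
  have hA := Finset.sum_mul_sq_le_sq_mul_sq S (fun i => s₁ i * s₂ i)
    (fun i => w i * (s₃ i * s₄ i))
  have hB := Finset.sum_mul_sq_le_sq_mul_sq S (fun i => s₁ i ^ 2) (fun i => s₂ i ^ 2)
  have hC := Finset.sum_mul_sq_le_sq_mul_sq S (fun i => w i * s₃ i ^ 2) (fun i => w i * s₄ i ^ 2)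
  have p1 : (0 : ℝ) ≤ ∑ i ∈ S, s₁ i ^ 4 := Finset.sum_nonneg fun i _ => by positivity
  have p2 : (0 : ℝ) ≤ ∑ i ∈ S, s₂ i ^ 4 := Finset.sum_nonneg fun i _ => by positivity
  have p3 : (0 : ℝ) ≤ ∑ i ∈ S, (w i ^ 2) * s₃ i ^ 4 := Finset.sum_nonneg fun i _ => by positivity
  have p4 : (0 : ℝ) ≤ ∑ i ∈ S, (w i ^ 2) * s₄ i ^ 4 := Finset.sum_nonneg fun i _ => by positivity
  have hB' : (∑ i ∈ S, s₁ i ^ 2 * s₂ i ^ 2) ^ 2 ≤ Q₁ * Q₂ := by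
    calc (∑ i ∈ S, s₁ i ^ 2 * s₂ i ^ 2) ^ 2 ≤ (∑ i ∈ S, (s₁ i ^ 2) ^ 2) * ∑ i ∈ S, (s₂ i ^ 2) ^ 2 :=
          hB
      _ = (∑ i ∈ S, s₁ i ^ 4) * ∑ i ∈ S, s₂ i ^ 4 := by
          congr 1 <;> exact Finset.sum_congr rfl fun i _ => by ring
      _ ≤ Q₁ * Q₂ := by gcongr; linarith
  have hC' : (∑ i ∈ S, w i ^ 2 * (s₃ i ^ 2 * s₄ i ^ 2)) ^ 2 ≤ Q₃ * Q₄ := by
    calc (∑ i ∈ S, w i ^ 2 * (s₃ i ^ 2 * s₄ i ^ 2)) ^ 2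
        = (∑ i ∈ S, w i * s₃ i ^ 2 * (w i * s₄ i ^ 2)) ^ 2 := by
          congr 1; exact Finset.sum_congr rfl fun i _ => by ring
      _ ≤ (∑ i ∈ S, (w i * s₃ i ^ 2) ^ 2) * ∑ i ∈ S, (w i * s₄ i ^ 2) ^ 2 := hC
      _ = (∑ i ∈ S, (w i ^ 2) * s₃ i ^ 4) * ∑ i ∈ S, (w i ^ 2) * s₄ i ^ 4 := by
          congr 1 <;> exact Finset.sum_congr rfl fun i _ => by ring
      _ ≤ Q₃ * Q₄ := by gcongr; linarith
  have hA' : (∑ i ∈ S, w i * (s₁ i * s₂ i * s₃ i * s₄ i)) ^ 2 ≤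
      (∑ i ∈ S, s₁ i ^ 2 * s₂ i ^ 2) * ∑ i ∈ S, w i ^ 2 * (s₃ i ^ 2 * s₄ i ^ 2) := by
    calc (∑ i ∈ S, w i * (s₁ i * s₂ i * s₃ i * s₄ i)) ^ 2
        = (∑ i ∈ S, s₁ i * s₂ i * (w i * (s₃ i * s₄ i))) ^ 2 := by
          congr 1; exact Finset.sum_congr rfl fun i _ => by ring
      _ ≤ _ := hA
      _ = _ := by
          congr 1 <;> exact Finset.sum_congr rfl fun i _ => by ring
  calc (∑ i ∈ S, w i * (s₁ i * s₂ i * s₃ i * s₄ i)) ^ 4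
      = ((∑ i ∈ S, w i * (s₁ i * s₂ i * s₃ i * s₄ i)) ^ 2) ^ 2 := by ring
    _ ≤ ((∑ i ∈ S, s₁ i ^ 2 * s₂ i ^ 2) * ∑ i ∈ S, w i ^ 2 * (s₃ i ^ 2 * s₄ i ^ 2)) ^ 2 := by
        (clear * - hA'; gcongr)
    _ = (∑ i ∈ S, s₁ i ^ 2 * s₂ i ^ 2) ^ 2 * (∑ i ∈ S, w i ^ 2 * (s₃ i ^ 2 * s₄ i ^ 2)) ^ 2 := by
        ring
    _ ≤ (Q₁ * Q₂) * (Q₃ * Q₄) := by
        gcongr
        exact mul_nonneg (p1.trans h1) (p2.trans h2)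
    _ = Q₁ * Q₂ * Q₃ * Q₄ := by ring

private lemma e3_swap {ι κ : Type*} (S : Finset ι) (A : Finset κ) (c : ι → ℝ)
    (F : κ → ι → ℝ) (G : κ → ℝ) (h : ∀ a ∈ A, ∑ m ∈ S, c m * F a m ≤ G a) :
    ∑ m ∈ S, c m * ∑ a ∈ A, F a m ≤ ∑ a ∈ A, G a := by
  simp_rw [Finset.mul_sum]
  rw [Finset.sum_comm]
  exact Finset.sum_le_sum h

private lemma e3_card {κ : Type*} (A : Finset κ) (G : κ → ℝ) (V b : ℝ) (hb : 0 ≤ b)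
    (hA : (A.card : ℝ) ≤ V) (h : ∀ a ∈ A, G a ≤ b) : ∑ a ∈ A, G a ≤ V * b := by
  calc ∑ a ∈ A, G a ≤ A.card • b := Finset.sum_le_card_nsmul _ _ _ h
    _ = A.card * b := by simp
    _ ≤ V * b := by (clear * - hA hb; gcongr)

private lemma e3_harm (N : ℕ) : ∑ g ∈ Icc 1 N, ((g : ℝ))⁻¹ ≤ 1 + Real.log N := by
  have h := harmonic_le_one_add_log N
  rw [harmonic_eq_sum_Icc] at h
  push_cast at h
  exact h

private lemma e3_inner [QlsHyp] (hE1 : S_E1) (ε : ℝ) (hε : 0 < ε) : ∃ (C : ℝ) (B : ℕ), 0 < C ∧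
    ∀ X : ℝ, 2 ≤ X → ∀ r : ℕ, Odd r → ∀ K Z M : ℕ, 1 ≤ K → (K : ℝ) ≤ X ^ 4 →
    (Z : ℝ) ≤ X ^ 4 → (M : ℝ) ≤ X ^ 4 → ∀ x : ℝ, 0 < x → 2 * x ≤ M →
    ∀ a₁ a₂ : ℕ → ℂ, (∀ n : ℕ, 1 ≤ n → ‖a₁ n‖ ≤ 1 / √(n : ℝ)) →
    (∀ n : ℕ, 1 ≤ n → ‖a₂ n‖ ≤ 1 / √(n : ℝ)) →
    ∀ s₁ s₂ : ℂ, 0 ≤ s₁.re → s₁.re ≤ 1 → 0 ≤ s₂.re → s₂.re ≤ 1 →
    ∀ u : ℤ, (u = 1 ∨ u = -1 ∨ u = 2 ∨ u = -2) → ∀ D δ₁ δ₂ δ₃ : ℕ, 0 < D →
    δ₁ ∈ D.divisors → δ₂ ∈ (D / δ₁).divisors → δ₃ ∈ (D / δ₁ / δ₂).divisors →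
    ∑ m ∈ (Osf K).filter (fun m : ℕ => u * m ≠ 1), (m : ℝ) ^ (-(1 / 2) : ℝ) *
      (‖SS (u * m) a₁ Z δ₁ (D / δ₁)‖ * ‖SS (u * m) a₂ Z δ₂ (D / δ₁ / δ₂)‖ *
        ‖SS (u * m) (an r s₁ x) M δ₃ (D / δ₁ / δ₂ / δ₃)‖ *
        ‖SS (u * m) (an r s₂ x) M (D / δ₁ / δ₂ / δ₃) 1‖) ≤
      C * X ^ ε * ((1 + ‖s₁‖) * (1 + ‖s₂‖)) ^ B * √((K : ℝ) + (Z : ℝ) ^ 2) *
        ((D / δ₁ / δ₂ / δ₃ * r).divisors.card : ℝ) * (r.divisors.card : ℝ) / √(D : ℝ) := by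
  obtain ⟨C₁, hC₁, h₁⟩ := SS_l_fourth ε hε
  obtain ⟨C₂, B, hC₂, h₂'⟩ := hE1 ε hε
  refine ⟨max C₁ C₂, B, lt_max_of_lt_left hC₁, ?_⟩
  intro X hX r hr K Z M hK hKX hZX hMX x hx hxM a₁ a₂ ha₁ ha₂ s₁ s₂ hs₁ hs₁' hs₂ hs₂' u hu
    D δ₁ δ₂ δ₃ hD hδ₁ hδ₂ hδ₃
  have h₂ := fun (X : ℝ) (hX : 2 ≤ X) => h₂' X hX r hr
  clear h₂'
  have e1 : δ₁ * (D / δ₁) = D := Nat.mul_div_cancel' (Nat.dvd_of_mem_divisors hδ₁)
  have e2 : δ₂ * (D / δ₁ / δ₂) = D / δ₁ := Nat.mul_div_cancel' (Nat.dvd_of_mem_divisors hδ₂)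
  have e3 : δ₃ * (D / δ₁ / δ₂ / δ₃) = D / δ₁ / δ₂ :=
    Nat.mul_div_cancel' (Nat.dvd_of_mem_divisors hδ₃)
  have p1 : 0 < δ₁ := Nat.pos_of_mem_divisors hδ₁
  have p2 : 0 < δ₂ := Nat.pos_of_mem_divisors hδ₂
  have p3 : 0 < δ₃ := Nat.pos_of_mem_divisors hδ₃
  set q : ℕ := D / δ₁ / δ₂ / δ₃ with hq
  have hDq : D = δ₁ * (δ₂ * (δ₃ * q)) := by rw [e3, e2, e1]
  have pq : 0 < q := by
    rcases Nat.eq_zero_or_pos q with h | h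
    · rw [h] at hDq
      simp at hDq
      omega
    · exact h
  have hxX : x ≤ X ^ 4 := by linarith only [hMX, hx, hxM]
  have hsub : ∀ g : ℕ → ℝ, (∀ m, 0 ≤ g m) →
      ∑ m ∈ (Osf K).filter (fun m : ℕ => u * m ≠ 1), g m ≤ ∑ m ∈ Osf K, g m := fun g hg =>
    Finset.sum_le_sum_of_subset_of_nonneg (Finset.filter_subset _ _) (fun i _ _ => hg i)
  have b1 := (hsub (fun m => ‖SS (u * m) a₁ Z δ₁ (D / δ₁)‖ ^ 4) (fun m => by (clear * -; positivity))).trans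
    (h₁ X hX K Z δ₁ (D / δ₁) hK hKX hZX p1 a₁ ha₁ u hu)
  have b2 := (hsub (fun m => ‖SS (u * m) a₂ Z δ₂ (D / δ₁ / δ₂)‖ ^ 4)
    (fun m => by (clear * -; positivity))).trans
    (h₁ X hX K Z δ₂ (D / δ₁ / δ₂) hK hKX hZX p2 a₂ ha₂ u hu)
  have b3 := h₂ X hX K M δ₃ q hK hKX p3 pq x hx hxX hxM s₁ hs₁ hs₁' u hu
  have b4 := h₂ X hX K M q 1 hK hKX pq one_pos x hx hxX hxM s₂ hs₂ hs₂' u hu
  have hw : ∀ m ∈ (Osf K).filter (fun m : ℕ => u * m ≠ 1),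
      ((m : ℝ) ^ (-(1 / 2) : ℝ)) ^ 2 = 1 / m := by
    intro m hm
    have hm1 : 1 ≤ m := by
      simp only [Osf, Finset.mem_filter, Finset.mem_Icc] at hm
      exact hm.1.1.1
    have hm0 : (0 : ℝ) ≤ m := Nat.cast_nonneg m
    rw [← Real.rpow_natCast, ← Real.rpow_mul hm0]
    norm_num
    rw [Real.rpow_neg_one]
  have b3' : ∑ m ∈ (Osf K).filter (fun m : ℕ => u * m ≠ 1), ((m : ℝ) ^ (-(1 / 2) : ℝ)) ^ 2 *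
      ‖SS (u * m) (an r s₁ x) M δ₃ q‖ ^ 4 ≤
      C₂ * X ^ ε * ((q * r).divisors.card : ℝ) ^ 4 * (1 + ‖s₁‖) ^ B / (δ₃ : ℝ) ^ 2 := by
    refine le_trans (le_of_eq ?_) b3
    refine Finset.sum_congr rfl fun m hm => ?_
    rw [hw m hm]
    ring
  have b4' : ∑ m ∈ (Osf K).filter (fun m : ℕ => u * m ≠ 1), ((m : ℝ) ^ (-(1 / 2) : ℝ)) ^ 2 *
      ‖SS (u * m) (an r s₂ x) M q 1‖ ^ 4 ≤
      C₂ * X ^ ε * ((1 * r).divisors.card : ℝ) ^ 4 * (1 + ‖s₂‖) ^ B / (q : ℝ) ^ 2 := by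
    refine le_trans (le_of_eq ?_) b4
    refine Finset.sum_congr rfl fun m hm => ?_
    rw [hw m hm]
    ring
  have hmain := e3_holder ((Osf K).filter (fun m : ℕ => u * m ≠ 1))
    (fun m => (m : ℝ) ^ (-(1 / 2) : ℝ)) (fun m => ‖SS (u * m) a₁ Z δ₁ (D / δ₁)‖)
    (fun m => ‖SS (u * m) a₂ Z δ₂ (D / δ₁ / δ₂)‖)
    (fun m => ‖SS (u * m) (an r s₁ x) M δ₃ q‖) (fun m => ‖SS (u * m) (an r s₂ x) M q 1‖)
    _ _ _ _ b1 b2 b3' b4'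
  have hXp : (0 : ℝ) < X ^ ε := Real.rpow_pos_of_pos (by linarith only [hX]) _
  have hMx : 0 < max C₁ C₂ := lt_max_of_lt_left hC₁
  have hR0 : 0 ≤ max C₁ C₂ * X ^ ε * ((1 + ‖s₁‖) * (1 + ‖s₂‖)) ^ B * √((K : ℝ) + (Z : ℝ) ^ 2) *
        ((q * r).divisors.card : ℝ) * (r.divisors.card : ℝ) / √(D : ℝ) := by
    refine div_nonneg (mul_nonneg (mul_nonneg (mul_nonneg (mul_nonneg (mul_nonneg hMx.le hXp.le) ?_)
      (Real.sqrt_nonneg _)) (Nat.cast_nonneg _)) (Nat.cast_nonneg _)) (Real.sqrt_nonneg _)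
    exact pow_nonneg (mul_nonneg (by linarith only [norm_nonneg s₁]) (by linarith only [norm_nonneg s₂])) _
  refine le_of_pow_le_pow_left₀ (n := 4) (by norm_num) hR0 ?_
  refine hmain.trans ?_
  clear hR0 hmain b1 b2 b3 b4 b3' b4' hsub hw h₁ h₂ hKX hZX hMX ha₁ ha₂ e1 e2 e3 hs₁ hs₁' hs₂ hs₂' hu hxX hxM
  set E : ℝ := X ^ ε with hE
  set T : ℝ := (K : ℝ) + (Z : ℝ) ^ 2 with hT
  have hT0 : 0 ≤ T := by rw [hT]; (clear * - hK; positivity)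
  set G₁ : ℝ := ((q * r).divisors.card : ℝ) with hG₁
  set G₂ : ℝ := (r.divisors.card : ℝ) with hG₂
  have hG₂' : ((1 * r).divisors.card : ℝ) = G₂ := by rw [one_mul]
  rw [hG₂']
  set v₁ : ℝ := 1 + ‖s₁‖ with hv₁
  set v₂ : ℝ := 1 + ‖s₂‖ with hv₂
  have hv₁1 : 1 ≤ v₁ := by rw [hv₁]; linarith only [norm_nonneg s₁]
  have hv₂1 : 1 ≤ v₂ := by rw [hv₂]; linarith only [norm_nonneg s₂]
  have hDr : (D : ℝ) = δ₁ * (δ₂ * (δ₃ * q)) := by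
    rw [hDq]; push_cast; ring
  have hD0 : (0 : ℝ) < D := by exact_mod_cast hD
  clear_value q
  clear hDq hq
  have hG₁0 : 0 ≤ G₁ := Nat.cast_nonneg _
  have hG₂0 : 0 ≤ G₂ := Nat.cast_nonneg _
  have q1 : (0 : ℝ) < δ₁ := by exact_mod_cast p1
  have q2 : (0 : ℝ) < δ₂ := by exact_mod_cast p2
  have q3 : (0 : ℝ) < δ₃ := by exact_mod_cast p3
  have q4 : (0 : ℝ) < q := by exact_mod_cast pq
  have hsT : √T ^ 4 = T ^ 2 := by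
    calc √T ^ 4 = (√T ^ 2) ^ 2 := by ring
      _ = T ^ 2 := by rw [Real.sq_sqrt hT0]
  have hsD : √(D : ℝ) ^ 4 = (D : ℝ) ^ 2 := by
    calc √(D : ℝ) ^ 4 = (√(D : ℝ) ^ 2) ^ 2 := by ring
      _ = (D : ℝ) ^ 2 := by rw [Real.sq_sqrt (by positivity)]
  have hrhs : (max C₁ C₂ * E * (v₁ * v₂) ^ B * √T * G₁ * G₂ / √(D : ℝ)) ^ 4 =
      (max C₁ C₂) ^ 4 * ((v₁ * v₂) ^ B) ^ 4 * (E ^ 4 * T ^ 2 * G₁ ^ 4 * G₂ ^ 4 / (D : ℝ) ^ 2) := by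
    rw [div_pow, mul_pow, mul_pow, mul_pow, mul_pow, mul_pow, hsT, hsD]
    ring
  have hlhs : C₁ * E * T / (δ₁ : ℝ) ^ 2 * (C₁ * E * T / (δ₂ : ℝ) ^ 2) *
      (C₂ * E * G₁ ^ 4 * v₁ ^ B / (δ₃ : ℝ) ^ 2) * (C₂ * E * G₂ ^ 4 * v₂ ^ B / (q : ℝ) ^ 2) =
      (C₁ ^ 2 * C₂ ^ 2) * (v₁ * v₂) ^ B * (E ^ 4 * T ^ 2 * G₁ ^ 4 * G₂ ^ 4 / (D : ℝ) ^ 2) := by
    rw [hDr, mul_pow v₁ v₂]
    field_simp
  rw [hrhs, hlhs]
  have hv : (1 : ℝ) ≤ (v₁ * v₂) ^ B := one_le_pow₀ (one_le_mul_of_one_le_of_one_le hv₁1 hv₂1)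
  have hv4 : (v₁ * v₂) ^ B ≤ ((v₁ * v₂) ^ B) ^ 4 := by
    calc (v₁ * v₂) ^ B = ((v₁ * v₂) ^ B) ^ 1 := by ring
      _ ≤ ((v₁ * v₂) ^ B) ^ 4 := pow_le_pow_right₀ hv (by norm_num)
  have hC : C₁ ^ 2 * C₂ ^ 2 ≤ (max C₁ C₂) ^ 4 := by
    calc C₁ ^ 2 * C₂ ^ 2 ≤ (max C₁ C₂) ^ 2 * (max C₁ C₂) ^ 2 := by
          gcongr
          · exact le_max_left _ _
          · exact le_max_right _ _
      _ = _ := by ring
  have h0 : 0 ≤ E ^ 4 * T ^ 2 * G₁ ^ 4 * G₂ ^ 4 / (D : ℝ) ^ 2 := by (clear * - hX hK hD; positivity)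
  (clear * - hC hv4 hC₁ hX hK hD; gcongr)

private lemma e3_swap_card {ι κ : Type*} (S : Finset ι) (A : Finset κ) (c : ι → ℝ)
    (F : κ → ι → ℝ) (V b : ℝ) (hb : 0 ≤ b) (hA : (A.card : ℝ) ≤ V)
    (h : ∀ a ∈ A, ∑ m ∈ S, c m * F a m ≤ b) : ∑ m ∈ S, c m * ∑ a ∈ A, F a m ≤ V * b :=
  (e3_swap S A c F (fun _ => b) h).trans (e3_card A (fun _ => b) V b hb hA fun _ _ => le_rfl)

theorem p_E3 [QlsHyp] (h1 : S_E1) : S_E3 := by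
  intro ε hε
  obtain ⟨C₀, B, hC₀, hin'⟩ := e3_inner h1 ε hε
  refine ⟨C₀, B, hC₀, ?_⟩
  intro X hX r hr hrX K₀ K Z M hK hKK hKX hZX hMX x hx hxM a₁ a₂ ha₁ ha₂ s₁ s₂ hs₁ hs₁' hs₂ hs₂'
    u hu V L hV hL f hf hfX hVn
  have hin := fun (X : ℝ) (hX : 2 ≤ X) => hin' X hX r hr
  clear hin'
  clear h1
  have hX0 : (0 : ℝ) < X := by linarith only [hX]
  have hX1 : (1 : ℝ) ≤ X := by linarith only [hX]
  have hr0 : 0 < r := hr.pos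
  set P : ℝ := C₀ * X ^ ε * ((1 + ‖s₁‖) * (1 + ‖s₂‖)) ^ B * (√(K₀ : ℝ) + Z) with hP
  have hW0 : 0 ≤ C₀ * X ^ ε * ((1 + ‖s₁‖) * (1 + ‖s₂‖)) ^ B := by (clear * - hC₀ hX; positivity)
  have hP0 : 0 ≤ P := by (clear * - hC₀ hX; positivity)
  have hPle : C₀ * X ^ ε * ((1 + ‖s₁‖) * (1 + ‖s₂‖)) ^ B * √((K : ℝ) + (Z : ℝ) ^ 2) ≤ P := by
    refine mul_le_mul_of_nonneg_left ?_ hW0
    have h1 : √((K : ℝ) + (Z : ℝ) ^ 2) ≤ √(K : ℝ) + Z := by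
      rw [Real.sqrt_le_left (by positivity)]
      have h3 : √(K : ℝ) ^ 2 = K := Real.sq_sqrt (Nat.cast_nonneg K)
      have h4 : 0 ≤ √(K : ℝ) * Z := by (clear * - hK; positivity)
      nlinarith only [h3, h4]
    have h2 : √(K : ℝ) ≤ √(K₀ : ℝ) := Real.sqrt_le_sqrt (by exact_mod_cast hKK)
    linarith only [h1, h2]
  have hL0 : 0 ≤ L := by
    have := Real.log_natCast_nonneg (Z * M)
    linarith
  unfold T4B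
  have hfinal : V ^ 7 * L * P = V * (V * (L * (V ^ 5 * P))) := by ring
  rw [hfinal]
  have hfV : (f.divisors.card : ℝ) ≤ V := by
    refine hVn f hf ?_
    have h1 : (1 : ℝ) ≤ f := by exact_mod_cast hf
    calc (f : ℝ) ≤ (f : ℝ) ^ 2 := by nlinarith only [h1]
      _ ≤ X ^ 4 := hfX
      _ ≤ X ^ 24 := pow_le_pow_right₀ hX1 (by norm_num)
  refine e3_swap_card _ f.divisors _ _ V (V * (L * (V ^ 5 * P))) (by (clear * - hV hL0 hC₀ hX; positivity)) hfV ?_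
  intro a ha
  have had : a ∣ f := Nat.dvd_of_mem_divisors ha
  have ha0 : 0 < a := Nat.pos_of_mem_divisors ha
  have hfa0 : 0 < f / a := Nat.div_pos (Nat.le_of_dvd hf had) ha0
  have hfaV : ((f / a).divisors.card : ℝ) ≤ V := by
    refine le_trans ?_ hfV
    exact_mod_cast Finset.card_le_card (Nat.divisors_subset_of_dvd hf.ne' (Nat.div_dvd_of_dvd had))
  refine e3_swap_card _ (f / a).divisors _ _ V (L * (V ^ 5 * P)) (by (clear * - hL0 hV hC₀ hX; positivity)) hfaV ?_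
  intro b hb
  have hbd : b ∣ f / a := Nat.dvd_of_mem_divisors hb
  have hb0 : 0 < b := Nat.pos_of_mem_divisors hb
  have habf : a * b ≤ f := by
    have : a * b ∣ f := by
      obtain ⟨c, hc⟩ := hbd
      refine ⟨c, ?_⟩
      rw [mul_assoc, ← hc, Nat.mul_div_cancel' had]
    exact Nat.le_of_dvd hf this
  refine (e3_swap _ (Icc 1 (Z * M)) _ _ (fun g => ((g : ℝ))⁻¹ * (V ^ 5 * P)) ?_).trans ?_
  · intro g hg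
    have hg1 : 1 ≤ g := (Finset.mem_Icc.mp hg).1
    have hg2 : g ≤ Z * M := (Finset.mem_Icc.mp hg).2
    have hD0 : 0 < g ^ 2 * (a * b ^ 2) := by positivity
    have hDX : ((g ^ 2 * (a * b ^ 2) : ℕ) : ℝ) ≤ X ^ 20 := by
      have h1 : (g : ℝ) ≤ X ^ 8 := by
        calc (g : ℝ) ≤ ((Z * M : ℕ) : ℝ) := by exact_mod_cast hg2
          _ = (Z : ℝ) * M := by push_cast; ring
          _ ≤ X ^ 4 * X ^ 4 := by (clear * - hZX hMX hX; gcongr)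
          _ = X ^ 8 := by ring
      have h2 : (a * b ^ 2 : ℕ) ≤ f ^ 2 := by
        have hbf : b ≤ f := le_trans (Nat.le_mul_of_pos_left b ha0) habf
        calc a * b ^ 2 = (a * b) * b := by ring
          _ ≤ f * f := Nat.mul_le_mul habf hbf
          _ = f ^ 2 := by ring
      have h3 : ((a * b ^ 2 : ℕ) : ℝ) ≤ X ^ 4 := by
        refine le_trans ?_ hfX
        exact_mod_cast h2
      calc ((g ^ 2 * (a * b ^ 2) : ℕ) : ℝ) = (g : ℝ) ^ 2 * ((a * b ^ 2 : ℕ) : ℝ) := by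
            push_cast; ring
        _ ≤ (X ^ 8) ^ 2 * X ^ 4 := by (clear * - hg1 h1 h3 ha0 hb0 hX; gcongr)
        _ = X ^ 20 := by ring
    set D : ℕ := g ^ 2 * (a * b ^ 2) with hD
    have hDrX : ((D * r : ℕ) : ℝ) ≤ X ^ 24 := by
      calc ((D * r : ℕ) : ℝ) = (D : ℝ) * r := by push_cast; ring
        _ ≤ X ^ 20 * X ^ 4 := by (clear * - hDX hrX hr0 hX; gcongr)
        _ = X ^ 24 := by ring
    have hDr0 : 0 < D * r := Nat.mul_pos hD0 hr0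
    have hDrV : ((D * r).divisors.card : ℝ) ≤ V := hVn _ hDr0 hDrX
    have hdvdV : ∀ n : ℕ, n ∣ D * r → (n.divisors.card : ℝ) ≤ V := by
      intro n hn
      refine le_trans ?_ hDrV
      exact_mod_cast Finset.card_le_card (Nat.divisors_subset_of_dvd hDr0.ne' hn)
    have hsD : 0 < √(D : ℝ) := Real.sqrt_pos.mpr (by exact_mod_cast hD0)
    have hgoal : (b : ℝ) * (V * (V * (V * (P * V * V / √(D : ℝ))))) ≤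
        ((g : ℝ))⁻¹ * (V ^ 5 * P) := by
      have h1 : (b : ℝ) / √(D : ℝ) ≤ ((g : ℝ))⁻¹ := by
        have hg0 : (0 : ℝ) < g := by exact_mod_cast hg1
        have h2 : (g : ℝ) * b ≤ √(D : ℝ) := by
          refine Real.le_sqrt_of_sq_le ?_
          have h3 : (g * b) ^ 2 ≤ D := by
            rw [hD, mul_pow]
            exact Nat.mul_le_mul_left _ (Nat.le_mul_of_pos_left _ ha0)
          exact_mod_cast h3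
        rw [div_le_iff₀ hsD, inv_mul_eq_div, le_div_iff₀ hg0]
        linarith only [h2]
      calc (b : ℝ) * (V * (V * (V * (P * V * V / √(D : ℝ))))) =
          (b : ℝ) / √(D : ℝ) * (V ^ 5 * P) := by ring
        _ ≤ ((g : ℝ))⁻¹ * (V ^ 5 * P) := by (clear * - h1 hV hC₀ hX; gcongr)
    refine le_trans ?_ hgoal
    have hpull : ∀ (S : Finset ℕ) (c F : ℕ → ℝ), ∑ m ∈ S, c m * ((b : ℝ) * F m) =
        (b : ℝ) * ∑ m ∈ S, c m * F m := by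
      intro S c F
      rw [Finset.mul_sum]
      exact Finset.sum_congr rfl fun m _ => by ring
    rw [hpull]
    refine mul_le_mul_of_nonneg_left ?_ (Nat.cast_nonneg b)
    have hR0 : 0 ≤ P * V * V / √(D : ℝ) := by (clear * - hC₀ hX hV hg1 ha0 hb0; positivity)
    refine e3_swap_card _ D.divisors _ _ V _ (by (clear * - hV hC₀ hX hg1 ha0 hb0; positivity))
      (hdvdV D (Dvd.intro r rfl)) ?_
    intro δ₁ hδ₁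
    have hd1 : δ₁ ∣ D := Nat.dvd_of_mem_divisors hδ₁
    have hd1' : D / δ₁ ∣ D := Nat.div_dvd_of_dvd hd1
    refine e3_swap_card _ (D / δ₁).divisors _ _ V _ (by (clear * - hV hC₀ hX hg1 ha0 hb0; positivity))
      (hdvdV _ (hd1'.trans (Dvd.intro r rfl))) ?_
    intro δ₂ hδ₂
    have hd2 : δ₂ ∣ D / δ₁ := Nat.dvd_of_mem_divisors hδ₂
    have hd2' : D / δ₁ / δ₂ ∣ D := (Nat.div_dvd_of_dvd hd2).trans hd1'
    refine e3_swap_card _ (D / δ₁ / δ₂).divisors _ _ V _ (by (clear * - hC₀ hX hV hg1 ha0 hb0; positivity))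
      (hdvdV _ (hd2'.trans (Dvd.intro r rfl))) ?_
    intro δ₃ hδ₃
    have hd3 : δ₃ ∣ D / δ₁ / δ₂ := Nat.dvd_of_mem_divisors hδ₃
    have hd3' : D / δ₁ / δ₂ / δ₃ ∣ D := (Nat.div_dvd_of_dvd hd3).trans hd2'
    refine (hin X hX K Z M hK hKX hZX hMX x hx hxM a₁ a₂ ha₁ ha₂ s₁ s₂ hs₁ hs₁' hs₂ hs₂' u hu
      D δ₁ δ₂ δ₃ hD0 hδ₁ hδ₂ hδ₃).trans ?_
    refine div_le_div_of_nonneg_right ?_ hsD.le
    have hq1 : ((D / δ₁ / δ₂ / δ₃ * r).divisors.card : ℝ) ≤ V :=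
      hdvdV _ (Nat.mul_dvd_mul_right hd3' r)
    have hq2 : (r.divisors.card : ℝ) ≤ V := hdvdV _ (Dvd.intro_left D rfl)
    exact mul_le_mul (mul_le_mul hPle hq1 (Nat.cast_nonneg _) hP0) hq2 (Nat.cast_nonneg _)
      (mul_nonneg hP0 hV)
  · rw [← Finset.sum_mul]
    refine mul_le_mul_of_nonneg_right ?_ (by (clear * - hV hC₀ hX; positivity))
    exact (e3_harm (Z * M)).trans hL

end Pool.Agent.MP0016c7.PC
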