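import Mathlib
import Pool.Agent.Lib.MP_0016c7_nt.PC.E.EStm
import Pool.Agent.Lib.MP_0016c7_nt.Rz.DivB

set_option autoImplicit false

open Finset MeasureTheory Filter Topology
open scoped Real ContDiff

/-!
Project PrimeConductors, block [E]: the sum over the sieve modulus and the dual variable (E4).
-/

namespace Pool.Agent.MP0016c7.PC

open Pool.Agent.MP0016c7.Rz

private lemma e4_cover {ι κ : Type*} [DecidableEq κ] (S : Finset κ) (T : Finset ι) (g : ι → κ)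
    (Φ : κ → ℝ) (hΦ : ∀ k, 0 ≤ Φ k) (h : ∀ k ∈ S, ∃ t ∈ T, g t = k) :
    ∑ k ∈ S, Φ k ≤ ∑ t ∈ T, Φ (g t) := by
  calc ∑ k ∈ S, Φ k ≤ ∑ k ∈ S, ∑ t ∈ T with g t = k, Φ (g t) := by
        refine Finset.sum_le_sum fun k hk => ?_
        obtain ⟨t, ht, hgt⟩ := h k hk
        have : Φ k = Φ (g t) := by rw [hgt]
        rw [this]
        exact Finset.single_le_sum (f := fun t => Φ (g t)) (fun i _ => hΦ _)
          (Finset.mem_filter.mpr ⟨ht, hgt⟩)
    _ = ∑ t ∈ T with g t ∈ S, Φ (g t) := Finset.sum_fiberwise_eq_sum_filter _ _ _ _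
    _ ≤ ∑ t ∈ T, Φ (g t) :=
        Finset.sum_le_sum_of_subset_of_nonneg (Finset.filter_subset _ _) (fun i _ _ => hΦ _)

private lemma e4_repr (k : ℤ) (hk : ¬ IsSquare k) : ∃ (u : ℤ) (f m : ℕ),
    (u = 1 ∨ u = -1 ∨ u = 2 ∨ u = -2) ∧ 0 < f ∧ Odd m ∧ Squarefree m ∧ u * m ≠ 1 ∧
    k = u * m * (f : ℤ) ^ 2 := by
  have hk0 : k ≠ 0 := by
    rintro rfl
    exact hk ⟨0, by simp⟩
  obtain ⟨a, b, hab, ha⟩ := Nat.sq_mul_squarefree k.natAbs
  have hb0 : b ≠ 0 := by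
    rintro rfl
    simp at hab
    exact hk0 (Int.natAbs_eq_zero.mp hab.symm)
  have hka : k = k.sign * (a : ℤ) * (b : ℤ) ^ 2 := by
    have h1 : k = k.sign * (k.natAbs : ℤ) := (Int.sign_mul_natAbs k).symm
    rw [← hab] at h1
    push_cast at h1
    linarith only [h1, h1]
  have hsign : k.sign = 1 ∨ k.sign = -1 := by
    rcases lt_trichotomy k 0 with h | h | h
    · right; exact Int.sign_eq_neg_one_of_neg h
    · exact absurd h hk0
    · left; exact Int.sign_eq_one_of_pos h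
  rcases Nat.even_or_odd a with hae | hao
  · obtain ⟨m, hm⟩ := hae
    have hm2 : a = 2 * m := by omega
    subst hm2
    have hmo : Odd m := by
      by_contra hno
      rw [Nat.not_odd_iff_even] at hno
      obtain ⟨c, hc⟩ := hno
      have : (2 * 2) ∣ 2 * m := ⟨c, by omega⟩
      have h2 := ha 2 this
      simp at h2
    have hmsf : Squarefree m := Squarefree.squarefree_of_dvd (Dvd.intro_left 2 rfl) ha
    refine ⟨2 * k.sign, b, m, ?_, Nat.pos_of_ne_zero hb0, hmo, hmsf, ?_, ?_⟩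
    · rcases hsign with h | h <;> rw [h] <;> norm_num
    · intro h
      rcases hsign with h' | h' <;> rw [h'] at h <;> omega
    · have h3 := hka
      push_cast at h3
      linarith only [h3, h3]
  · refine ⟨k.sign, b, a, ?_, Nat.pos_of_ne_zero hb0, hao, ha, ?_, hka⟩
    · rcases hsign with h | h <;> rw [h] <;> norm_num
    · intro h
      rw [h] at hka
      exact hk ⟨b, by rw [hka]; ring⟩

private lemma e4_card {κ : Type*} (A : Finset κ) (G : κ → ℝ) (V b : ℝ) (hb : 0 ≤ b)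
    (hA : (A.card : ℝ) ≤ V) (h : ∀ a ∈ A, G a ≤ b) : ∑ a ∈ A, G a ≤ V * b := by
  calc ∑ a ∈ A, G a ≤ A.card • b := Finset.sum_le_card_nsmul _ _ _ h
    _ = A.card * b := by simp
    _ ≤ V * b := by (clear * - hA hb; gcongr)

private lemma e4_harm (N : ℕ) : ∑ g ∈ Icc 1 N, ((g : ℝ))⁻¹ ≤ 1 + Real.log N := by
  have h := harmonic_le_one_add_log N
  rw [harmonic_eq_sum_Icc] at h
  push_cast at h
  exact h

private lemma e4_log (ε : ℝ) (hε : 0 < ε) (X : ℝ) (hX : 2 ≤ X) (N : ℕ) (hN : (N : ℝ) ≤ X ^ 8) :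
    1 + Real.log N ≤ (1 + 8 / ε) * X ^ ε := by
  have hX1 : (1 : ℝ) ≤ X ^ ε := Real.one_le_rpow (by linarith) hε.le
  have h1 : Real.log N ≤ 8 * Real.log X := by
    rcases Nat.eq_zero_or_pos N with h | h
    · rw [h]
      simp
      exact Real.log_nonneg (by linarith)
    · calc Real.log N ≤ Real.log (X ^ 8) := Real.log_le_log (by exact_mod_cast h) hN
        _ = 8 * Real.log X := by rw [Real.log_pow]; norm_num
  have h2 : Real.log X ≤ X ^ ε / ε := Real.log_le_rpow_div (by linarith) hε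
  calc 1 + Real.log N ≤ X ^ ε + 8 * (X ^ ε / ε) := by linarith only [hX1, h1, h2]
    _ = (1 + 8 / ε) * X ^ ε := by ring

private lemma e4_sf (u : ℤ) (hu : u = 1 ∨ u = -1 ∨ u = 2 ∨ u = -2) (m : ℕ) (hm : Odd m)
    (hmsf : Squarefree m) : Squarefree (u * (m : ℤ)) := by
  have h1 : Squarefree (m : ℤ) := Int.squarefree_natCast.mpr hmsf
  have h2 : Squarefree (2 * (m : ℤ)) := by
    have : Squarefree (2 * m) := by
      rw [Nat.squarefree_mul (Nat.coprime_two_left.mpr hm)]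
      exact ⟨Nat.prime_two.squarefree, hmsf⟩
    have h3 := Int.squarefree_natCast.mpr this
    push_cast at h3
    exact h3
  rcases hu with h | h | h | h
  · rw [h, one_mul]; exact h1
  · rw [h, neg_one_mul]
    rw [← Int.squarefree_natAbs, Int.natAbs_neg, Int.squarefree_natAbs]
    exact h1
  · rw [h]; exact h2
  · rw [h]
    have : (-2 : ℤ) * m = -(2 * m) := by ring
    rw [this]
    rw [← Int.squarefree_natAbs, Int.natAbs_neg, Int.squarefree_natAbs]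
    exact h2

private lemma e4_rs_rs (m₁ m₂ : ℕ) (a : ℕ → ℂ) : rs (m₁ * m₂) a = rs m₁ (rs m₂ a) := by
  funext n
  have h : Nat.Coprime n (m₁ * m₂) ↔ Nat.Coprime n m₁ ∧ Nat.Coprime n m₂ :=
    Nat.coprime_mul_iff_right
  unfold rs
  rw [if_congr h rfl rfl, ite_and]

private lemma e4_rs_an (m₁ m₂ : ℕ) (s : ℂ) (x : ℝ) : an (m₁ * m₂) s x = rs m₁ (an m₂ s x) := by
  funext n
  have h : Nat.Coprime n (2 * (m₁ * m₂)) ↔ Nat.Coprime n m₁ ∧ Nat.Coprime n (2 * m₂) := by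
    rw [Nat.coprime_mul_iff_right, Nat.coprime_mul_iff_right, Nat.coprime_mul_iff_right]
    tauto
  unfold rs an
  rw [if_congr h rfl rfl, ite_and]

private lemma e4_split (u : ℤ) (hu : u = 1 ∨ u = -1 ∨ u = 2 ∨ u = -2) (m f k₀ : ℕ) (hf : 0 < f)
    (hm : Odd m) (hmsf : Squarefree m) (hk : (m : ℤ) ∣ u * k₀ * (f : ℤ) ^ 2) :
    m / Nat.gcd m f ∣ k₀ := by
  have h1 : m ∣ k₀ * f ^ 2 := by
    have hc : IsCoprime (m : ℤ) u := by
      have h2 : IsCoprime (m : ℤ) 2 := by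
        have : Nat.Coprime m 2 := Nat.coprime_two_right.mpr hm
        exact_mod_cast Nat.isCoprime_iff_coprime.mpr this
      rcases hu with h | h | h | h
      · rw [h]; exact isCoprime_one_right
      · rw [h]; exact isCoprime_one_right.neg_right
      · rw [h]; exact h2
      · rw [h]; exact h2.neg_right
    have h3 : (m : ℤ) ∣ u * ((k₀ : ℤ) * (f : ℤ) ^ 2) := by
      rw [← mul_assoc]; exact hk
    have h4 : (m : ℤ) ∣ (k₀ : ℤ) * (f : ℤ) ^ 2 := hc.dvd_of_dvd_mul_left h3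
    exact_mod_cast h4
  set g := Nat.gcd m f with hg
  have hg0 : 0 < g := Nat.gcd_pos_of_pos_right m hf
  have hgm : g ∣ m := Nat.gcd_dvd_left m f
  have hgf : g ∣ f := Nat.gcd_dvd_right m f
  have hmg : g * (m / g) = m := Nat.mul_div_cancel' hgm
  have hfg : g * (f / g) = f := Nat.mul_div_cancel' hgf
  have hc1 : Nat.Coprime (m / g) g := by
    have h5 : Squarefree (g * (m / g)) := by rw [hmg]; exact hmsf
    exact (Nat.coprime_of_squarefree_mul h5).symm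
  have hc2 : Nat.Coprime (m / g) (f / g) := Nat.coprime_div_gcd_div_gcd hg0
  have hc3 : Nat.Coprime (m / g) f := by
    rw [← hfg]
    exact Nat.Coprime.mul_right hc1 hc2
  have hc4 : Nat.Coprime (m / g) (f ^ 2) := hc3.pow_right 2
  exact hc4.dvd_of_dvd_mul_right ((Nat.div_dvd_of_dvd hgm).trans h1)

open Classical in
theorem p_E4 [QlsHyp] (h2 : S_E2) (h3 : S_E3) : S_E4 := by
  intro ε hε
  obtain ⟨C₀, B, hC₀, hT⟩ := h3 (ε / 4) (by positivity)
  obtain ⟨Cd, hCd, hdiv⟩ := divisor_bound (ε / 864) (by positivity)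
  have hCl : 0 < 1 + 8 / (ε / 4) := by positivity
  refine ⟨4 * C₀ * Cd ^ 9 * (1 + 8 / (ε / 4)) ^ 2, B, by positivity, ?_⟩
  intro X hX E K Z M hK hKX hZ hZX hMX x hx hxM a₁ a₂ ha₁ ha₂ ha₁' ha₂' s₁ s₂ hs₁ hs₁' hs₂ hs₂'
  have hX0 : (0 : ℝ) < X := by linarith only [hX]
  have hX1 : (1 : ℝ) ≤ X := by linarith only [hX]
  set V : ℝ := Cd * X ^ (ε / 36) with hV
  have hV0 : 0 ≤ V := by positivity
  have hVn : ∀ n : ℕ, 0 < n → (n : ℝ) ≤ X ^ 24 → (n.divisors.card : ℝ) ≤ V := by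
    intro n hn hnX
    refine (hdiv n hn).trans ?_
    refine mul_le_mul_of_nonneg_left ?_ hCd.le
    calc (n : ℝ) ^ (ε / 864) ≤ (X ^ 24) ^ (ε / 864) :=
          Real.rpow_le_rpow (Nat.cast_nonneg n) hnX (by positivity)
      _ = X ^ (ε / 36) := by
          rw [← Real.rpow_natCast X 24, ← Real.rpow_mul hX0.le]
          congr 1
          push_cast
          ring
  set L : ℝ := (1 + 8 / (ε / 4)) * X ^ (ε / 4) with hL
  have hL1 : 1 + Real.log ((Z * M : ℕ) : ℝ) ≤ L := by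
    refine e4_log (ε / 4) (by positivity) X hX (Z * M) ?_
    push_cast
    calc (Z : ℝ) * M ≤ X ^ 4 * X ^ 4 := by (clear * - hZX hMX hX; gcongr)
      _ = X ^ 8 := by ring
  have hL2 : 1 + Real.log (K : ℝ) ≤ L := by
    refine e4_log (ε / 4) (by positivity) X hX K ?_
    exact hKX.trans (pow_le_pow_right₀ hX1 (by norm_num))
  set P : ℝ := C₀ * X ^ (ε / 4) * ((1 + ‖s₁‖) * (1 + ‖s₂‖)) ^ B * (√(K : ℝ) + Z) with hP
  have hP0 : 0 ≤ P := by (clear * - hC₀ hX hK hZ; positivity)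
  have hL0 : 0 ≤ L := by positivity
  -- the summand
  set Φ : (Σ _ : ℕ, ℤ) → ℝ := fun y => |(y.2 : ℝ)| ^ (-(1 / 2) : ℝ) *
    ‖T4 y.2 Z M (rs y.1 a₁) (rs y.1 a₂) (an y.1 s₁ x) (an y.1 s₂ x)‖ with hΦ
  have hΦ0 : ∀ y, 0 ≤ Φ y := fun y => by
    simp only [hΦ]
    exact mul_nonneg (Real.rpow_nonneg (abs_nonneg _) _) (norm_nonneg _)
  have hodd_rs : ∀ (m : ℕ) (a : ℕ → ℂ), (∀ n, a n ≠ 0 → Odd n) → ∀ n, rs m a n ≠ 0 → Odd n := by
    intro m a ha n hn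
    unfold rs at hn
    split_ifs at hn with hc
    · exact ha n hn
    · exact absurd rfl hn
  have hodd_an : ∀ (m : ℕ) (s : ℂ) (n : ℕ), an m s x n ≠ 0 → Odd n := by
    intro m s n hn
    unfold an at hn
    split_ifs at hn with hc
    · have : Nat.Coprime n 2 := Nat.Coprime.coprime_mul_right_right hc
      exact (Nat.coprime_two_right.mp this)
    · exact absurd rfl hn
  have hnorm_rs : ∀ (m : ℕ) (a : ℕ → ℂ), (∀ n : ℕ, 1 ≤ n → ‖a n‖ ≤ 1 / √(n : ℝ)) →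
      ∀ n : ℕ, 1 ≤ n → ‖rs m a n‖ ≤ 1 / √(n : ℝ) := by
    intro m a ha n hn
    unfold rs
    split_ifs with hc
    · exact ha n hn
    · rw [norm_zero]; positivity
  -- the covering
  set Tset : Finset (Σ _ : ℤ, Σ _ : ℕ, Σ _ : ℕ, Σ _ : ℕ, ℕ) :=
    ({1, -1, 2, -2} : Finset ℤ).sigma (fun u => ((Icc 1 K).filter (fun f => f ^ 2 ≤ K)).sigma
      (fun f => (f.divisors.filter Odd).sigma
        (fun _ => ((Osf (K / f ^ 2)).filter (fun m : ℕ => u * m ≠ 1)).sigma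
          (fun k₀ => k₀.divisors)))) with hTset
  have hsum1 : (∑ m ∈ Osq E, ∑ k ∈ (Icc (-(K : ℤ)) K).filter
      (fun k => ¬ IsSquare k ∧ (m : ℤ) ∣ k), |(k : ℝ)| ^ (-(1 / 2) : ℝ) *
        ‖T4 k Z M (rs m a₁) (rs m a₂) (an m s₁ x) (an m s₂ x)‖) =
      ∑ y ∈ (Osq E).sigma (fun m => (Icc (-(K : ℤ)) K).filter
        (fun k => ¬ IsSquare k ∧ (m : ℤ) ∣ k)), Φ y := by
    rw [Finset.sum_sigma]
  rw [hsum1]
  have hcov : ∑ y ∈ (Osq E).sigma (fun m => (Icc (-(K : ℤ)) K).filter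
        (fun k => ¬ IsSquare k ∧ (m : ℤ) ∣ k)), Φ y ≤
      ∑ t ∈ Tset, Φ ⟨t.2.2.2.2 * t.2.2.1, t.1 * t.2.2.2.1 * (t.2.1 : ℤ) ^ 2⟩ := by
    refine e4_cover _ Tset (fun t => (⟨t.2.2.2.2 * t.2.2.1, t.1 * t.2.2.2.1 * (t.2.1 : ℤ) ^ 2⟩ :
      Σ _ : ℕ, ℤ)) Φ hΦ0 ?_
    rintro ⟨m, k⟩ hy
    rw [Finset.mem_sigma, Finset.mem_filter, Finset.mem_Icc] at hy
    obtain ⟨hmE, hkK, hks, hmk⟩ := hy
    simp only [Osq, Finset.mem_filter, Finset.mem_Icc] at hmE
    obtain ⟨⟨hm1, _⟩, hmo, hmsf⟩ := hmE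
    obtain ⟨u, f, k₀, hu, hf, hk₀, hk₀sf, huk, hkeq⟩ := e4_repr k hks
    have hk₀1 : 1 ≤ k₀ := hk₀.pos
    have hu1 : (1 : ℤ) ≤ |u| := by
      rcases hu with h | h | h | h <;> rw [h] <;> norm_num
    have hmf : k₀ * f ^ 2 ≤ K := by
      have h3 : |k| = |u| * k₀ * (f : ℤ) ^ 2 := by
        rw [hkeq, abs_mul, abs_mul, abs_pow]
        simp
      have h4 : (k₀ : ℤ) * (f : ℤ) ^ 2 ≤ |k| := by
        rw [h3]
        have : (0 : ℤ) ≤ k₀ * (f : ℤ) ^ 2 := by positivity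
        nlinarith only [hu1, this]
      have h5 : ((k₀ * f ^ 2 : ℕ) : ℤ) ≤ (K : ℤ) := by
        push_cast
        have := abs_le.mpr hkK
        linarith only [this, h4]
      exact_mod_cast h5
    have hf2 : f ^ 2 ≤ K := by nlinarith only [hmf, hk₀1]
    have hfK : f ≤ K := by nlinarith only [hf2, hf]
    have hgm : Nat.gcd m f ∣ m := Nat.gcd_dvd_left m f
    have hspl := e4_split u hu m f k₀ hf hmo hmsf (by rw [← hkeq]; exact hmk)
    refine ⟨⟨u, f, Nat.gcd m f, k₀, m / Nat.gcd m f⟩, ?_, ?_⟩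
    · simp only [hTset, Finset.mem_sigma, Finset.mem_filter, Finset.mem_Icc, Nat.mem_divisors]
      refine ⟨?_, ⟨⟨hf, hfK⟩, hf2⟩, ⟨⟨Nat.gcd_dvd_right m f, hf.ne'⟩, hmo.of_dvd_nat hgm⟩,
        ⟨?_, huk⟩, hspl, by omega⟩
      · simp only [Finset.mem_insert, Finset.mem_singleton]
        exact hu
      · simp only [Osf, Finset.mem_filter, Finset.mem_Icc]
        refine ⟨⟨hk₀1, ?_⟩, hk₀, hk₀sf⟩
        exact (Nat.le_div_iff_mul_le (by positivity)).mpr hmf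
    · simp only
      rw [Nat.div_mul_cancel hgm, ← hkeq]
  refine hcov.trans ?_
  rw [hTset, Finset.sum_sigma]
  have hper : ∀ u ∈ ({1, -1, 2, -2} : Finset ℤ),
      ∑ t ∈ ((Icc 1 K).filter (fun f => f ^ 2 ≤ K)).sigma
      (fun f => (f.divisors.filter Odd).sigma
        (fun _ => ((Osf (K / f ^ 2)).filter (fun m : ℕ => u * m ≠ 1)).sigma
          (fun k₀ => k₀.divisors))),
        Φ ⟨t.2.2.2 * t.2.1, u * t.2.2.1 * (t.1 : ℤ) ^ 2⟩ ≤ L * (V * (V * (V ^ 7 * L * P))) := by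
    intro u hu
    have hu' : u = 1 ∨ u = -1 ∨ u = 2 ∨ u = -2 := by
      simpa only [Finset.mem_insert, Finset.mem_singleton] using hu
    have hu1 : (1 : ℝ) ≤ |(u : ℝ)| := by
      rcases hu' with h | h | h | h <;> rw [h] <;> norm_num
    rw [Finset.sum_sigma]
    have hf1 : ∀ f ∈ (Icc 1 K).filter (fun f => f ^ 2 ≤ K),
        ∑ t ∈ (f.divisors.filter Odd).sigma
          (fun _ => ((Osf (K / f ^ 2)).filter (fun m : ℕ => u * m ≠ 1)).sigma
            (fun k₀ => k₀.divisors)),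
          Φ ⟨t.2.2 * t.1, u * t.2.1 * (f : ℤ) ^ 2⟩ ≤
          ((f : ℝ))⁻¹ * (V * (V * (V ^ 7 * L * P))) := by
      intro f hf
      rw [Finset.mem_filter, Finset.mem_Icc] at hf
      obtain ⟨⟨hf1, hfK⟩, hf2⟩ := hf
      have hf0 : (0 : ℝ) < f := by exact_mod_cast hf1
      have hf1' : (1 : ℝ) ≤ f := by exact_mod_cast hf1
      have hK'1 : 1 ≤ K / f ^ 2 := Nat.div_pos hf2 (by positivity)
      have hK'K : K / f ^ 2 ≤ K := Nat.div_le_self _ _
      have hK'X : ((K / f ^ 2 : ℕ) : ℝ) ≤ X ^ 4 := le_trans (by exact_mod_cast hK'K) hKX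
      have hfX : (f : ℝ) ^ 2 ≤ X ^ 4 := le_trans (by exact_mod_cast hf2) hKX
      have hfX' : (f : ℝ) ≤ X ^ 4 := le_trans (by nlinarith only [hf1']) hfX
      have hfV : (((f.divisors.filter Odd).card : ℕ) : ℝ) ≤ V := by
        have h5 : (f.divisors.card : ℝ) ≤ V :=
          hVn f hf1 (hfX'.trans (pow_le_pow_right₀ hX1 (by norm_num)))
        refine le_trans ?_ h5
        exact_mod_cast Finset.card_filter_le _ _
      rw [Finset.sum_sigma]
      have hm2 : ∀ m₂ ∈ f.divisors.filter Odd,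
          ∑ t ∈ ((Osf (K / f ^ 2)).filter (fun m : ℕ => u * m ≠ 1)).sigma
            (fun k₀ => k₀.divisors), Φ ⟨t.2 * m₂, u * t.1 * (f : ℤ) ^ 2⟩ ≤
          ((f : ℝ))⁻¹ * (V * (V ^ 7 * L * P)) := by
        intro m₂ hm₂
        rw [Finset.mem_filter, Nat.mem_divisors] at hm₂
        obtain ⟨⟨hm₂f, _⟩, hm₂o⟩ := hm₂
        have hm₂le : (m₂ : ℝ) ≤ X ^ 4 := by
          refine le_trans ?_ hfX'
          exact_mod_cast Nat.le_of_dvd hf1 hm₂f
        rw [Finset.sum_sigma]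
        have hmain := hT X hX m₂ hm₂o hm₂le K (K / f ^ 2) Z M hK'1 hK'K hK'X hZX hMX x hx hxM
          (rs m₂ a₁) (rs m₂ a₂) (hnorm_rs m₂ a₁ ha₁) (hnorm_rs m₂ a₂ ha₂) s₁ s₂ hs₁ hs₁' hs₂ hs₂'
          u hu' V L hV0 hL1 f hf1 hfX hVn
        have hk0 : ∀ k₀ ∈ (Osf (K / f ^ 2)).filter (fun m : ℕ => u * m ≠ 1),
            ∑ m₁ ∈ k₀.divisors, Φ ⟨m₁ * m₂, u * k₀ * (f : ℤ) ^ 2⟩ ≤
            ((f : ℝ))⁻¹ * (V * ((k₀ : ℝ) ^ (-(1 / 2) : ℝ) *
              T4B (u * k₀) f Z M (rs m₂ a₁) (rs m₂ a₂) (an m₂ s₁ x) (an m₂ s₂ x))) := by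
          intro k₀ hk₀
          simp only [Osf, Finset.mem_filter, Finset.mem_Icc] at hk₀
          obtain ⟨⟨⟨hk1, hkK⟩, hko, hksf⟩, huk⟩ := hk₀
          have hk0 : (0 : ℝ) < k₀ := by exact_mod_cast hk1
          have hkX : (k₀ : ℝ) ≤ X ^ 4 := le_trans (by exact_mod_cast hkK) hK'X
          have hkV : (k₀.divisors.card : ℝ) ≤ V :=
            hVn k₀ hk1 (hkX.trans (pow_le_pow_right₀ hX1 (by norm_num)))
          have hTB0 : 0 ≤ T4B (u * k₀) f Z M (rs m₂ a₁) (rs m₂ a₂) (an m₂ s₁ x)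
              (an m₂ s₂ x) := by
            have h6 := h2 (u * k₀) (e4_sf u hu' k₀ hko hksf) f Z M 1 hf1 (by simp)
              (rs m₂ a₁) (rs m₂ a₂) (an m₂ s₁ x) (an m₂ s₂ x) (hodd_rs m₂ a₁ ha₁')
              (hodd_rs m₂ a₂ ha₂') (hodd_an m₂ s₁) (hodd_an m₂ s₂)
            exact (norm_nonneg _).trans h6
          have hb0 : 0 ≤ ((f : ℝ))⁻¹ * ((k₀ : ℝ) ^ (-(1 / 2) : ℝ) *
              T4B (u * k₀) f Z M (rs m₂ a₁) (rs m₂ a₂) (an m₂ s₁ x) (an m₂ s₂ x)) :=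
            mul_nonneg (inv_nonneg.mpr hf0.le) (mul_nonneg (Real.rpow_nonneg hk0.le _) hTB0)
          have hgoal : ((f : ℝ))⁻¹ * (V * ((k₀ : ℝ) ^ (-(1 / 2) : ℝ) *
              T4B (u * k₀) f Z M (rs m₂ a₁) (rs m₂ a₂) (an m₂ s₁ x) (an m₂ s₂ x))) =
              V * (((f : ℝ))⁻¹ * ((k₀ : ℝ) ^ (-(1 / 2) : ℝ) *
              T4B (u * k₀) f Z M (rs m₂ a₁) (rs m₂ a₂) (an m₂ s₁ x) (an m₂ s₂ x))) := by ring
          rw [hgoal]
          refine e4_card _ _ V _ hb0 hkV ?_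
          intro m₁ hm₁
          have hm₁k : m₁ ∣ k₀ := Nat.dvd_of_mem_divisors hm₁
          have h6 := h2 (u * k₀) (e4_sf u hu' k₀ hko hksf) f Z M m₁ hf1
            ((Int.natCast_dvd_natCast.mpr hm₁k).mul_left u)
            (rs m₂ a₁) (rs m₂ a₂) (an m₂ s₁ x) (an m₂ s₂ x) (hodd_rs m₂ a₁ ha₁')
            (hodd_rs m₂ a₂ ha₂') (hodd_an m₂ s₁) (hodd_an m₂ s₂)
          rw [← e4_rs_rs, ← e4_rs_rs, ← e4_rs_an, ← e4_rs_an] at h6
          simp only [hΦ]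
          rw [← mul_assoc ((f : ℝ))⁻¹]
          refine mul_le_mul ?_ h6 (norm_nonneg _) (mul_nonneg (inv_nonneg.mpr hf0.le)
            (Real.rpow_nonneg hk0.le _))
          have h1 : (k₀ : ℝ) * (f : ℝ) ^ 2 ≤ |((u * k₀ * (f : ℤ) ^ 2 : ℤ) : ℝ)| := by
            push_cast
            rw [abs_mul, abs_mul, abs_pow, Nat.abs_cast, Nat.abs_cast]
            have : 0 ≤ (k₀ : ℝ) * (f : ℝ) ^ 2 := by positivity
            nlinarith only [hu1, this]
          calc |((u * k₀ * (f : ℤ) ^ 2 : ℤ) : ℝ)| ^ (-(1 / 2) : ℝ) ≤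
              ((k₀ : ℝ) * (f : ℝ) ^ 2) ^ (-(1 / 2) : ℝ) :=
                Real.rpow_le_rpow_of_nonpos (by positivity) h1 (by norm_num)
            _ = (k₀ : ℝ) ^ (-(1 / 2) : ℝ) * ((f : ℝ) ^ 2) ^ (-(1 / 2) : ℝ) :=
                Real.mul_rpow hk0.le (by positivity)
            _ = ((f : ℝ))⁻¹ * (k₀ : ℝ) ^ (-(1 / 2) : ℝ) := by
                rw [← Real.rpow_natCast (f : ℝ) 2, ← Real.rpow_mul hf0.le]
                norm_num
                rw [Real.rpow_neg_one]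
                ring
        refine (Finset.sum_le_sum hk0).trans ?_
        rw [← Finset.mul_sum, ← Finset.mul_sum]
        refine mul_le_mul_of_nonneg_left ?_ (inv_nonneg.mpr hf0.le)
        exact mul_le_mul_of_nonneg_left hmain hV0
      have hfin := e4_card (f.divisors.filter Odd) (fun m₂ =>
          ∑ t ∈ ((Osf (K / f ^ 2)).filter (fun m : ℕ => u * m ≠ 1)).sigma
            (fun k₀ => k₀.divisors), Φ ⟨t.2 * m₂, u * t.1 * (f : ℤ) ^ 2⟩) V
          (((f : ℝ))⁻¹ * (V * (V ^ 7 * L * P))) (by positivity) hfV hm2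
      refine hfin.trans (le_of_eq ?_)
      ring
    refine (Finset.sum_le_sum hf1).trans ?_
    rw [← Finset.sum_mul]
    refine mul_le_mul_of_nonneg_right ?_ (by positivity)
    refine le_trans ?_ ((e4_harm K).trans hL2)
    exact Finset.sum_le_sum_of_subset_of_nonneg (Finset.filter_subset _ _)
      (fun i _ _ => by positivity)
  have hcard : ((({1, -1, 2, -2} : Finset ℤ)).card : ℝ) ≤ 4 := by
    norm_cast
  refine (e4_card _ _ 4 (L * (V * (V * (V ^ 7 * L * P)))) (by positivity) hcard hper).trans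
    (le_of_eq ?_)
  have e9 : (X ^ (ε / 36)) ^ 9 = X ^ (ε / 4) := by
    rw [← Real.rpow_natCast, ← Real.rpow_mul hX0.le]
    congr 1
    push_cast
    ring
  have e4 : X ^ (ε / 4) * X ^ (ε / 4) * X ^ (ε / 4) * X ^ (ε / 4) = X ^ ε := by
    rw [← Real.rpow_add hX0, ← Real.rpow_add hX0, ← Real.rpow_add hX0]
    congr 1
    ring
  have e5 : 4 * (L * (V * (V * (V ^ 7 * L * P)))) = 4 * (L ^ 2 * V ^ 9 * P) := by ring
  rw [e5, hP, hL, hV, mul_pow, mul_pow, e9, ← e4]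
  ring

end Pool.Agent.MP0016c7.PC
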