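import Mathlib
import Pool.Agent.Lib.MP_0016c7_nt.PC.E.EStm
import Pool.Agent.Lib.MP_0016c7_nt.Rz.Defs
import Pool.Agent.Lib.MP_0016c7_nt.Rz2.QDefs
import Pool.Agent.Lib.MP_0016c7_nt.Rz2.VsBd

set_option autoImplicit false

/-!
E5: the sum over the sieve modulus and the dual variable with separable weights.
-/

open Finset MeasureTheory Filter Topology
open scoped Real ContDiff

namespace Pool.Agent.MP0016c7.PC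

open Pool.Agent.MP0016c7.Rz

private lemma e5_reorder (Z M : ℕ) (hZ : Z ≤ M) (F : ℕ → ℕ → ℕ → ℕ → ℂ)
    (h1 : ∀ n₁ l₁ n₂ l₂, Z < l₁ → F n₁ l₁ n₂ l₂ = 0)
    (h2 : ∀ n₁ l₁ n₂ l₂, Z < l₂ → F n₁ l₁ n₂ l₂ = 0) :
    ∑ n₁ ∈ Icc 1 M, ∑ l₁ ∈ Icc 1 M, ∑ n₂ ∈ Icc 1 M, ∑ l₂ ∈ Icc 1 M, F n₁ l₁ n₂ l₂ =
    ∑ l₁ ∈ Icc 1 Z, ∑ l₂ ∈ Icc 1 Z, ∑ n₁ ∈ Icc 1 M, ∑ n₂ ∈ Icc 1 M, F n₁ l₁ n₂ l₂ := by
  have hsub : Icc 1 Z ⊆ Icc 1 M := Icc_subset_Icc le_rfl hZ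
  rw [sum_comm]
  symm
  have : ∀ l₁ ∈ Icc 1 Z, ∑ l₂ ∈ Icc 1 Z, ∑ n₁ ∈ Icc 1 M, ∑ n₂ ∈ Icc 1 M, F n₁ l₁ n₂ l₂ =
      ∑ n₁ ∈ Icc 1 M, ∑ n₂ ∈ Icc 1 M, ∑ l₂ ∈ Icc 1 M, F n₁ l₁ n₂ l₂ := by
    intro l₁ _
    rw [sum_comm]
    refine sum_congr rfl fun n₁ _ => ?_
    rw [sum_comm]
    refine sum_congr rfl fun n₂ _ => ?_
    refine sum_subset hsub ?_
    intro l₂ hl hl'
    apply h2
    rw [mem_Icc] at hl hl'
    omega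
  rw [sum_congr rfl this]
  refine sum_subset hsub ?_
  intro l₁ hl hl'
  rw [mem_Icc] at hl hl'
  refine sum_eq_zero fun n₁ _ => sum_eq_zero fun n₂ _ => sum_eq_zero fun l₂ _ => ?_
  apply h1
  omega

private lemma e5_half (n : ℕ) (hn : 1 ≤ n) :
    (n : ℂ) ^ (-(1 / 2 : ℂ)) = (((√(n : ℝ))⁻¹ : ℝ) : ℂ) := by
  have h0 : (0 : ℝ) ≤ n := by positivity
  have : ((n : ℝ) ^ (-(1 / 2) : ℝ)) = (√(n : ℝ))⁻¹ := by
    rw [Real.rpow_neg h0, Real.sqrt_eq_rpow]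
  rw [← this, Complex.ofReal_cpow h0]
  push_cast
  rfl

private lemma e5_split (n : ℕ) (hn : 1 ≤ n) (u : ℂ) (τ : ℝ) :
    (n : ℂ) ^ (-(1 / 2 : ℂ) - (u - Complex.I * τ)) =
      (((√(n : ℝ))⁻¹ : ℝ) : ℂ) * ((n : ℂ) ^ (-u) * (n : ℂ) ^ (Complex.I * τ)) := by
  have hn0 : (n : ℂ) ≠ 0 := by
    have : n ≠ 0 := by omega
    exact_mod_cast this
  rw [← e5_half n hn, ← Complex.cpow_add _ _ hn0, ← Complex.cpow_add _ _ hn0]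
  congr 1
  ring

private lemma e5_norm_al (r : ℕ) (w : ℂ) (hw : 0 ≤ w.re) (n : ℕ) (hn : 1 ≤ n) :
    ‖al r w n‖ ≤ 1 / √(n : ℝ) := by
  unfold al
  split_ifs with h
  · rw [norm_mul]
    have h1 : ‖(ArithmeticFunction.moebius n : ℂ)‖ ≤ 1 := by
      have := ArithmeticFunction.abs_moebius_le_one (n := n)
      rw [Complex.norm_intCast]
      exact_mod_cast this
    have h2 : ‖(n : ℂ) ^ (-(1 / 2 : ℂ) - w)‖ ≤ 1 / √(n : ℝ) := by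
      rw [Complex.norm_natCast_cpow_of_pos (by omega)]
      have hn1 : (1 : ℝ) ≤ n := by exact_mod_cast hn
      have h3 : (-(1 / 2 : ℂ) - w).re ≤ -(1 / 2) := by
        simp
        exact hw
      calc (n : ℝ) ^ (-(1 / 2 : ℂ) - w).re ≤ (n : ℝ) ^ (-(1 / 2) : ℝ) :=
            Real.rpow_le_rpow_of_exponent_le hn1 h3
        _ = 1 / √(n : ℝ) := by
            rw [Real.rpow_neg (by positivity), Real.sqrt_eq_rpow]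
            simp
    calc _ ≤ 1 * (1 / √(n : ℝ)) := by (clear * - h1 h2; gcongr)
      _ = _ := one_mul _
  · rw [norm_zero]
    positivity

private lemma e5_odd {r n : ℕ} (h : Nat.Coprime n (2 * r)) : Odd n := by
  have := Nat.Coprime.coprime_mul_right_right h
  rwa [Nat.coprime_two_right] at this

private lemma e5_al_ne (r : ℕ) (w : ℂ) (n : ℕ) (h : al r w n ≠ 0) : Odd n := by
  unfold al at h
  split_ifs at h with h'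
  · exact e5_odd h'
  · exact absurd rfl h

/-- the pointwise identity -/
private lemma e5_point (k : ℤ) (r : ℕ) (x τ : ℝ) (v₁ v₂ u₁ u₂ : ℂ) (l₁ l₂ n₁ n₂ : ℕ)
    (hl₁ : 1 ≤ l₁) (hl₂ : 1 ≤ l₂) (hn₁ : 1 ≤ n₁) (hn₂ : 1 ≤ n₂) :
    al r (v₁ - Complex.I * τ) l₁ * al r (v₂ - Complex.I * τ) l₂ *
      an r (u₁ - Complex.I * τ) x n₁ * an r (u₂ - Complex.I * τ) x n₂ *
      ((√((l₁ * l₂ * n₁ * n₂ : ℕ) : ℝ) * gg k (l₁ * l₂ * n₁ * n₂) : ℝ) : ℂ) =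
    (if Nat.Coprime (n₁ * l₁ * n₂ * l₂) (2 * r) then
      (ArithmeticFunction.moebius l₁ : ℂ) * (ArithmeticFunction.moebius l₂ : ℂ) *
        (om (n₁ / x) : ℂ) * (om (n₂ / x) : ℂ) * (gg k (n₁ * l₁ * n₂ * l₂) : ℂ) *
        ((n₁ * l₁ * n₂ * l₂ : ℕ) : ℂ) ^ (Complex.I * τ) else 0) *
      (((n₁ : ℂ) ^ (-u₁) * (l₁ : ℂ) ^ (-v₁)) * ((n₂ : ℂ) ^ (-u₂) * (l₂ : ℂ) ^ (-v₂))) := by
  have hcop : Nat.Coprime (n₁ * l₁ * n₂ * l₂) (2 * r) ↔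
      (Nat.Coprime n₁ (2 * r) ∧ Nat.Coprime l₁ (2 * r)) ∧ Nat.Coprime n₂ (2 * r) ∧
        Nat.Coprime l₂ (2 * r) := by
    rw [Nat.coprime_mul_iff_left, Nat.coprime_mul_iff_left, Nat.coprime_mul_iff_left]
    tauto
  by_cases h1 : Nat.Coprime n₁ (2 * r)
  swap
  · rw [if_neg (by rw [hcop]; tauto)]
    unfold an
    rw [if_neg h1]
    ring
  by_cases h2 : Nat.Coprime l₁ (2 * r)
  swap
  · rw [if_neg (by rw [hcop]; tauto)]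
    unfold al
    rw [if_neg h2]
    ring
  by_cases h3 : Nat.Coprime n₂ (2 * r)
  swap
  · rw [if_neg (by rw [hcop]; tauto)]
    unfold an
    rw [if_neg h3]
    ring
  by_cases h4 : Nat.Coprime l₂ (2 * r)
  swap
  · rw [if_neg (by rw [hcop]; tauto)]
    unfold al
    rw [if_neg h4]
    ring
  rw [if_pos (hcop.2 ⟨⟨h1, h2⟩, h3, h4⟩)]
  unfold al an
  rw [if_pos h1, if_pos h2, if_pos h3, if_pos h4, e5_split l₁ hl₁, e5_split l₂ hl₂,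
    e5_split n₁ hn₁, e5_split n₂ hn₂]
  have hN : l₁ * l₂ * n₁ * n₂ = n₁ * l₁ * n₂ * l₂ := by ring
  rw [hN]
  have hpw : ((n₁ * l₁ * n₂ * l₂ : ℕ) : ℂ) ^ (Complex.I * τ) =
      (n₁ : ℂ) ^ (Complex.I * τ) * (l₁ : ℂ) ^ (Complex.I * τ) * (n₂ : ℂ) ^ (Complex.I * τ) *
        (l₂ : ℂ) ^ (Complex.I * τ) := by
    rw [Nat.cast_mul, Complex.natCast_mul_natCast_cpow, Nat.cast_mul,
      Complex.natCast_mul_natCast_cpow, Nat.cast_mul, Complex.natCast_mul_natCast_cpow]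
  have hsq : √((n₁ * l₁ * n₂ * l₂ : ℕ) : ℝ) = √(n₁ : ℝ) * √(l₁ : ℝ) * √(n₂ : ℝ) * √(l₂ : ℝ) := by
    push_cast
    rw [Real.sqrt_mul (by positivity), Real.sqrt_mul (by positivity), Real.sqrt_mul (by positivity)]
  rw [hpw, hsq]
  have c1 : (√(n₁ : ℝ) : ℂ) ≠ 0 := by
    have : (0 : ℝ) < √(n₁ : ℝ) := Real.sqrt_pos.2 (by exact_mod_cast hn₁)
    exact_mod_cast this.ne'
  have c2 : (√(n₂ : ℝ) : ℂ) ≠ 0 := by
    have : (0 : ℝ) < √(n₂ : ℝ) := Real.sqrt_pos.2 (by exact_mod_cast hn₂)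
    exact_mod_cast this.ne'
  have c3 : (√(l₁ : ℝ) : ℂ) ≠ 0 := by
    have : (0 : ℝ) < √(l₁ : ℝ) := Real.sqrt_pos.2 (by exact_mod_cast hl₁)
    exact_mod_cast this.ne'
  have c4 : (√(l₂ : ℝ) : ℂ) ≠ 0 := by
    have : (0 : ℝ) < √(l₂ : ℝ) := Real.sqrt_pos.2 (by exact_mod_cast hl₂)
    exact_mod_cast this.ne'
  generalize (n₁ : ℂ) ^ (-u₁) = a1
  generalize (l₁ : ℂ) ^ (-v₁) = a2
  generalize (n₂ : ℂ) ^ (-u₂) = a3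
  generalize (l₂ : ℂ) ^ (-v₂) = a4
  generalize (n₁ : ℂ) ^ (Complex.I * τ) = b1
  generalize (l₁ : ℂ) ^ (Complex.I * τ) = b2
  generalize (n₂ : ℂ) ^ (Complex.I * τ) = b3
  generalize (l₂ : ℂ) ^ (Complex.I * τ) = b4
  generalize gg k (n₁ * l₁ * n₂ * l₂) = g
  generalize om (n₁ / x) = o1
  generalize om (n₂ / x) = o2
  generalize (ArithmeticFunction.moebius l₁ : ℂ) = m1
  generalize (ArithmeticFunction.moebius l₂ : ℂ) = m2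
  generalize √(n₁ : ℝ) = s1 at *
  generalize √(n₂ : ℝ) = s2 at *
  generalize √(l₁ : ℝ) = s3 at *
  generalize √(l₂ : ℝ) = s4 at *
  push_cast
  have e1 : (s1 : ℂ) * (s1 : ℂ)⁻¹ = 1 := mul_inv_cancel₀ c1
  have e2 : (s2 : ℂ) * (s2 : ℂ)⁻¹ = 1 := mul_inv_cancel₀ c2
  have e3 : (s3 : ℂ) * (s3 : ℂ)⁻¹ = 1 := mul_inv_cancel₀ c3
  have e4 : (s4 : ℂ) * (s4 : ℂ)⁻¹ = 1 := mul_inv_cancel₀ c4
  calc _ = ((s1 : ℂ) * (s1 : ℂ)⁻¹) * ((s2 : ℂ) * (s2 : ℂ)⁻¹) * ((s3 : ℂ) * (s3 : ℂ)⁻¹) *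
        ((s4 : ℂ) * (s4 : ℂ)⁻¹) * (m1 * m2 * o1 * o2 * g * (b1 * b2 * b3 * b4) *
        (a1 * a2 * (a3 * a4))) := by ring
    _ = _ := by
      rw [e1, e2, e3, e4]
      ring

private lemma e5_npow_le (n : ℕ) (hn : 1 ≤ n) (u : ℂ) (hu : 0 ≤ u.re) :
    ‖(n : ℂ) ^ (-u)‖ ≤ 1 := by
  rw [Complex.norm_natCast_cpow_of_pos (by omega)]
  apply Real.rpow_le_one_of_one_le_of_nonpos
  · exact_mod_cast hn
  · simpa using hu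

private lemma e5_int (B : ℕ) (w u v : ℝ × ℝ × ℝ → ℂ) (hw : Measurable w) (hu : Measurable u)
    (hv : Measurable v) (hu0 : ∀ p, 0 ≤ (u p).re) (hv0 : ∀ p, 0 ≤ (v p).re)
    (hi : Integrable (fun p => ‖w p‖ * (1 + ‖p‖) ^ B)) (l n : ℕ) (hl : 1 ≤ l) (hn : 1 ≤ n) :
    Integrable (fun p => w p * (n : ℂ) ^ (-(u p)) * (l : ℂ) ^ (-(v p))) := by
  refine hi.mono' ?_ ?_
  · exact ((hw.mul (measurable_const.pow hu.neg)).mul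
      (measurable_const.pow hv.neg)).aestronglyMeasurable
  · refine Eventually.of_forall fun p => ?_
    rw [norm_mul, norm_mul]
    have h1 : (1 : ℝ) ≤ (1 + ‖p‖) ^ B := one_le_pow₀ (by linarith only [norm_nonneg p])
    calc ‖w p‖ * ‖(n : ℂ) ^ (-(u p))‖ * ‖(l : ℂ) ^ (-(v p))‖ ≤ ‖w p‖ * 1 * 1 := by
          gcongr
          · exact e5_npow_le n hn _ (hu0 p)
          · exact e5_npow_le l hl _ (hv0 p)
      _ = ‖w p‖ * 1 := by ring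
      _ ≤ _ := by gcongr

private lemma e5_al_rs (m : ℕ) (w : ℂ) : al m w = rs m (al 1 w) := by
  funext n
  unfold rs al
  by_cases h1 : Nat.Coprime n (2 * m)
  · have h2 : Nat.Coprime n (2 * 1) := by
      rw [mul_one]
      exact Nat.Coprime.coprime_mul_right_right h1
    have h3 : Nat.Coprime n m := Nat.Coprime.coprime_mul_left_right h1
    rw [if_pos h1, if_pos h3, if_pos h2]
  · rw [if_neg h1]
    by_cases h3 : Nat.Coprime n m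
    · have h2 : ¬ Nat.Coprime n (2 * 1) := by
        intro h
        rw [mul_one] at h
        exact h1 (Nat.Coprime.mul_right h h3)
      rw [if_pos h3, if_neg h2]
    · rw [if_neg h3]

open Classical in
theorem p_E5 [QlsHyp] (h4 : S_E4) : S_E5 := by
  intro ε hε θ hθ hθ'
  obtain ⟨C₁, B, hC₁, H⟩ := h4 ε hε
  refine ⟨B, fun C hC => ⟨C₁ * 11 ^ (2 * B) * C ^ 2, 4, by positivity, ?_⟩⟩
  intro X hX W₁ W₂ hL₁ hL₂ hS₁ hS₂ E K hK hKX τ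
  obtain ⟨w₁, u₁, v₁, hmw₁, hmu₁, hmv₁, hu₁, hv₁, hi₁, hb₁, hW₁⟩ := hS₁
  obtain ⟨w₂, u₂, v₂, hmw₂, hmu₂, hmv₂, hu₂, hv₂, hi₂, hb₂, hW₂⟩ := hS₂
  have hX4 : 4 ≤ X := hX
  have hX1 : 1 ≤ X := by linarith only [hθ, hθ', hX4]
  have hX0 : 0 < X := by linarith only [hθ, hθ', hX4]
  set x : ℝ := X ^ (1 / 2 + θ) with hx
  set Z : ℕ := ⌊X ^ θ⌋₊ with hZ
  set M : ℕ := ⌊X ^ 2⌋₊ with hM
  have hx0 : 0 < x := by positivity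
  have hxX : x ≤ X := by
    calc x ≤ X ^ (1 : ℝ) := Real.rpow_le_rpow_of_exponent_le hX1 (by linarith only [hθ'])
      _ = X := Real.rpow_one X
  have hXθ1 : 1 ≤ X ^ θ := Real.one_le_rpow hX1 hθ.le
  have hXθX : X ^ θ ≤ X := by
    calc X ^ θ ≤ X ^ (1 : ℝ) := Real.rpow_le_rpow_of_exponent_le hX1 (by linarith only [hθ, hθ'])
      _ = X := Real.rpow_one X
  have hZ1 : 1 ≤ Z := by
    rw [hZ]
    exact Nat.le_floor (by simpa using hXθ1)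
  have hZle : (Z : ℝ) ≤ X ^ θ := Nat.floor_le (by positivity)
  have hXX2 : X ≤ X ^ 2 := by nlinarith only [hX4, hθ, hθ']
  have hX24 : X ^ 2 ≤ X ^ 4 := by
    exact pow_le_pow_right₀ hX1 (by norm_num)
  have hMle : (M : ℝ) ≤ X ^ 2 := Nat.floor_le (by positivity)
  have hMgt : X ^ 2 - 1 < M := by
    have := Nat.lt_floor_add_one (X ^ 2)
    rw [← hM] at this
    linarith only [this]
  have hZM : Z ≤ M := Nat.floor_le_floor (by linarith only [hXθX, hXX2])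
  have hxM : 2 * x ≤ M := by nlinarith only [hX4, hxX, hθ, hθ', hMgt]
  -- the norms of the exponents
  have hsn : ∀ (a : ℂ) (p : ℝ × ℝ × ℝ), ‖a‖ ≤ 10 * (1 + ‖p‖) →
      1 + ‖a - Complex.I * τ‖ ≤ 11 * (1 + ‖p‖) * (1 + |τ|) := by
    intro a p ha
    have h1 : ‖a - Complex.I * τ‖ ≤ ‖a‖ + |τ| := by
      refine (norm_sub_le _ _).trans ?_
      rw [norm_mul, Complex.norm_I, one_mul, Complex.norm_real, Real.norm_eq_abs]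
    have h2 := norm_nonneg p
    have h3 := abs_nonneg τ
    nlinarith only [ha, h1, h2, h3, mul_nonneg h2 h3]
  -- the constants
  set cst : ℕ → ℤ → ℕ → ℕ → ℕ → ℕ → ℂ := fun r k l₁ l₂ n₁ n₂ =>
    if Nat.Coprime (n₁ * l₁ * n₂ * l₂) (2 * r) then
      (ArithmeticFunction.moebius l₁ : ℂ) * (ArithmeticFunction.moebius l₂ : ℂ) *
        (om (n₁ / x) : ℂ) * (om (n₂ / x) : ℂ) * (gg k (n₁ * l₁ * n₂ * l₂) : ℂ) *
        ((n₁ * l₁ * n₂ * l₂ : ℕ) : ℂ) ^ (Complex.I * τ) else 0 with hcst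
  set f₁ : ℕ → ℕ → ℝ × ℝ × ℝ → ℂ := fun l n p =>
    w₁ p * (n : ℂ) ^ (-(u₁ p)) * (l : ℂ) ^ (-(v₁ p)) with hf₁
  set f₂ : ℕ → ℕ → ℝ × ℝ × ℝ → ℂ := fun l n p =>
    w₂ p * (n : ℂ) ^ (-(u₂ p)) * (l : ℂ) ^ (-(v₂ p)) with hf₂
  have if₁ : ∀ l n, 1 ≤ l → 1 ≤ n → Integrable (f₁ l n) := fun l n hl hn =>
    e5_int B w₁ u₁ v₁ hmw₁ hmu₁ hmv₁ (fun p => (hu₁ p).1) hv₁ hi₁ l n hl hn
  have if₂ : ∀ l n, 1 ≤ l → 1 ≤ n → Integrable (f₂ l n) := fun l n hl hn =>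
    e5_int B w₂ u₂ v₂ hmw₂ hmu₂ hmv₂ (fun p => (hu₂ p).1) hv₂ hi₂ l n hl hn
  set G : ℕ → ℤ → (ℝ × ℝ × ℝ) × (ℝ × ℝ × ℝ) → ℂ := fun r k z =>
    w₁ z.1 * w₂ z.2 * T4 k Z M (al r (v₁ z.1 - Complex.I * τ)) (al r (v₂ z.2 - Complex.I * τ))
      (an r (u₁ z.1 - Complex.I * τ) x) (an r (u₂ z.2 - Complex.I * τ) x) with hG
  have hGs : ∀ r k z, G r k z = ∑ l₁ ∈ Icc 1 Z, ∑ l₂ ∈ Icc 1 Z, ∑ n₁ ∈ Icc 1 M, ∑ n₂ ∈ Icc 1 M,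
      cst r k l₁ l₂ n₁ n₂ * (f₁ l₁ n₁ z.1 * f₂ l₂ n₂ z.2) := by
    intro r k z
    rw [hG]
    simp only [T4]
    rw [mul_sum]
    refine sum_congr rfl fun l₁ hl₁ => ?_
    rw [mul_sum]
    refine sum_congr rfl fun l₂ hl₂ => ?_
    rw [mul_sum]
    refine sum_congr rfl fun n₁ hn₁ => ?_
    rw [mul_sum]
    refine sum_congr rfl fun n₂ hn₂ => ?_
    rw [mem_Icc] at hl₁ hl₂ hn₁ hn₂
    rw [e5_point k r x τ (v₁ z.1) (v₂ z.2) (u₁ z.1) (u₂ z.2) l₁ l₂ n₁ n₂ hl₁.1 hl₂.1 hn₁.1 hn₂.1]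
    simp only [hcst, hf₁, hf₂]
    ring
  have hterm : ∀ r k, ∀ l₁ ∈ Icc 1 Z, ∀ l₂ ∈ Icc 1 Z, ∀ n₁ ∈ Icc 1 M, ∀ n₂ ∈ Icc 1 M,
      Integrable (fun z : (ℝ × ℝ × ℝ) × (ℝ × ℝ × ℝ) =>
        cst r k l₁ l₂ n₁ n₂ * (f₁ l₁ n₁ z.1 * f₂ l₂ n₂ z.2)) (volume.prod volume) := by
    intro r k l₁ hl₁ l₂ hl₂ n₁ hn₁ n₂ hn₂
    rw [mem_Icc] at hl₁ hl₂ hn₁ hn₂
    exact ((if₁ l₁ n₁ hl₁.1 hn₁.1).mul_prod (if₂ l₂ n₂ hl₂.1 hn₂.1)).const_mul _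
  have hGint : ∀ r k, Integrable (G r k) (volume.prod volume) := by
    intro r k
    have : G r k = fun z => ∑ l₁ ∈ Icc 1 Z, ∑ l₂ ∈ Icc 1 Z, ∑ n₁ ∈ Icc 1 M, ∑ n₂ ∈ Icc 1 M,
      cst r k l₁ l₂ n₁ n₂ * (f₁ l₁ n₁ z.1 * f₂ l₂ n₂ z.2) := funext (hGs r k)
    rw [this]
    exact integrable_finsetSum _ fun l₁ hl₁ => integrable_finsetSum _ fun l₂ hl₂ =>
      integrable_finsetSum _ fun n₁ hn₁ => integrable_finsetSum _ fun n₂ hn₂ =>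
        hterm r k l₁ hl₁ l₂ hl₂ n₁ hn₁ n₂ hn₂
  have hGval : ∀ r k, ∫ z, G r k z ∂(volume.prod volume) = ∑ l₁ ∈ Icc 1 Z, ∑ l₂ ∈ Icc 1 Z,
      ∑ n₁ ∈ Icc 1 M, ∑ n₂ ∈ Icc 1 M, cst r k l₁ l₂ n₁ n₂ * ((W₁ l₁ n₁ : ℂ) * (W₂ l₂ n₂ : ℂ)) := by
    intro r k
    have : G r k = fun z => ∑ l₁ ∈ Icc 1 Z, ∑ l₂ ∈ Icc 1 Z, ∑ n₁ ∈ Icc 1 M, ∑ n₂ ∈ Icc 1 M,
      cst r k l₁ l₂ n₁ n₂ * (f₁ l₁ n₁ z.1 * f₂ l₂ n₂ z.2) := funext (hGs r k)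
    rw [this, integral_finsetSum _ fun l₁ hl₁ => integrable_finsetSum _ fun l₂ hl₂ =>
      integrable_finsetSum _ fun n₁ hn₁ => integrable_finsetSum _ fun n₂ hn₂ =>
        hterm r k l₁ hl₁ l₂ hl₂ n₁ hn₁ n₂ hn₂]
    refine sum_congr rfl fun l₁ hl₁ => ?_
    rw [integral_finsetSum _ fun l₂ hl₂ =>
      integrable_finsetSum _ fun n₁ hn₁ => integrable_finsetSum _ fun n₂ hn₂ =>
        hterm r k l₁ hl₁ l₂ hl₂ n₁ hn₁ n₂ hn₂]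
    refine sum_congr rfl fun l₂ hl₂ => ?_
    rw [integral_finsetSum _ fun n₁ hn₁ => integrable_finsetSum _ fun n₂ hn₂ =>
        hterm r k l₁ hl₁ l₂ hl₂ n₁ hn₁ n₂ hn₂]
    refine sum_congr rfl fun n₁ hn₁ => ?_
    rw [integral_finsetSum _ fun n₂ hn₂ => hterm r k l₁ hl₁ l₂ hl₂ n₁ hn₁ n₂ hn₂]
    refine sum_congr rfl fun n₂ hn₂ => ?_
    rw [mem_Icc] at hl₁ hl₂ hn₁ hn₂
    rw [integral_const_mul, integral_prod_mul, hW₁ l₁ n₁ hl₁.1 hn₁.1, hW₂ l₂ n₂ hl₂.1 hn₂.1]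
  have hom : ∀ (W : ℕ → ℕ → ℝ), LipW θ X C W → ∀ l n : ℕ, 1 ≤ l → 
      (om (n / x) : ℂ) * (W l n : ℂ) = (W l n : ℂ) := by
    intro W hW l n hl
    by_cases hn : (n : ℝ) ≤ x
    · rw [om_eq_one ((div_le_one hx0).2 hn)]
      simp
    · rw [not_le] at hn
      rw [hW.supp₂ l n ?_]
      · simp
      · have : (1 : ℝ) ≤ l := by exact_mod_cast hl
        nlinarith only [hn, this]
  have hQ : ∀ (r : ℕ) (k : ℤ), (∑ n₁ ∈ Icc 1 M, ∑ l₁ ∈ Icc 1 M, ∑ n₂ ∈ Icc 1 M, ∑ l₂ ∈ Icc 1 M,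
      if Nat.Coprime (n₁ * l₁ * n₂ * l₂) (2 * r) then
        (ArithmeticFunction.moebius l₁ : ℂ) * (ArithmeticFunction.moebius l₂ : ℂ) *
          (W₁ l₁ n₁ : ℂ) * (W₂ l₂ n₂ : ℂ) * (gg k (n₁ * l₁ * n₂ * l₂) : ℂ) *
          ((n₁ * l₁ * n₂ * l₂ : ℕ) : ℂ) ^ (Complex.I * τ) else 0) =
      ∫ z, G r k z ∂(volume.prod volume) := by
    intro r k
    rw [hGval, e5_reorder Z M hZM]
    · refine sum_congr rfl fun l₁ hl₁ => sum_congr rfl fun l₂ hl₂ => sum_congr rfl fun n₁ hn₁ =>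
        sum_congr rfl fun n₂ hn₂ => ?_
      rw [mem_Icc] at hl₁ hl₂ hn₁ hn₂
      simp only [hcst]
      split_ifs with hc
      · have e1 := hom W₁ hL₁ l₁ n₁ hl₁.1
        have e2 := hom W₂ hL₂ l₂ n₂ hl₂.1
        calc _ = (ArithmeticFunction.moebius l₁ : ℂ) * (ArithmeticFunction.moebius l₂ : ℂ) *
              (gg k (n₁ * l₁ * n₂ * l₂) : ℂ) *
              ((n₁ * l₁ * n₂ * l₂ : ℕ) : ℂ) ^ (Complex.I * τ) *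
              ((W₁ l₁ n₁ : ℂ) * (W₂ l₂ n₂ : ℂ)) := by ring
          _ = (ArithmeticFunction.moebius l₁ : ℂ) * (ArithmeticFunction.moebius l₂ : ℂ) *
              (gg k (n₁ * l₁ * n₂ * l₂) : ℂ) *
              ((n₁ * l₁ * n₂ * l₂ : ℕ) : ℂ) ^ (Complex.I * τ) *
              (((om (n₁ / x) : ℂ) * (W₁ l₁ n₁ : ℂ)) * ((om (n₂ / x) : ℂ) * (W₂ l₂ n₂ : ℂ))) := by
            rw [e1, e2]
          _ = _ := by ring
      · ring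
    · intro n₁ l₁ n₂ l₂ hl
      have : W₁ l₁ n₁ = 0 := hL₁.supp₁ l₁ n₁ ((Nat.floor_lt (by positivity)).1 hl)
      rw [this]
      simp
    · intro n₁ l₁ n₂ l₂ hl
      have : W₂ l₂ n₂ = 0 := hL₂.supp₁ l₂ n₂ ((Nat.floor_lt (by positivity)).1 hl)
      rw [this]
      simp
  -- the sum over `m` and `k`
  set S : ℕ → Finset ℤ := fun m =>
    (Icc (-(K : ℤ)) K).filter (fun k => ¬ IsSquare k ∧ (m : ℤ) ∣ k) with hS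
  set c₀ : ℝ := C₁ * X ^ ε * 11 ^ (2 * B) * (1 + |τ|) ^ (2 * B) * (√(K : ℝ) + X ^ θ) with hc₀
  have hc₀0 : 0 ≤ c₀ := by (clear * - hC₁ hX4 hK; positivity)
  have hpt : ∀ z : (ℝ × ℝ × ℝ) × (ℝ × ℝ × ℝ),
      ∑ m ∈ Osq E, ∑ k ∈ S m, |(k : ℝ)| ^ (-(1 / 2) : ℝ) * ‖G m k z‖ ≤
        c₀ * ((‖w₁ z.1‖ * (1 + ‖z.1‖) ^ B) * (‖w₂ z.2‖ * (1 + ‖z.2‖) ^ B)) := by
    intro z
    have hre₁ : (u₁ z.1 - Complex.I * τ).re = (u₁ z.1).re := by simp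
    have hre₂ : (u₂ z.2 - Complex.I * τ).re = (u₂ z.2).re := by simp
    have hre₃ : (v₁ z.1 - Complex.I * τ).re = (v₁ z.1).re := by simp
    have hre₄ : (v₂ z.2 - Complex.I * τ).re = (v₂ z.2).re := by simp
    have h := H X (by linarith only [hθ, hθ', hX4]) E K Z M hK hKX hZ1
      (hZle.trans (hXθX.trans (hXX2.trans hX24))) (hMle.trans hX24) x hx0 hxM
      (al 1 (v₁ z.1 - Complex.I * τ)) (al 1 (v₂ z.2 - Complex.I * τ))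
      (fun n hn => e5_norm_al 1 _ (by rw [hre₃]; exact hv₁ z.1) n hn)
      (fun n hn => e5_norm_al 1 _ (by rw [hre₄]; exact hv₂ z.2) n hn)
      (fun n hn => e5_al_ne 1 _ n hn) (fun n hn => e5_al_ne 1 _ n hn)
      (u₁ z.1 - Complex.I * τ) (u₂ z.2 - Complex.I * τ)
      (by rw [hre₁]; exact (hu₁ z.1).1) (by rw [hre₁]; exact (hu₁ z.1).2.1)
      (by rw [hre₂]; exact (hu₂ z.2).1) (by rw [hre₂]; exact (hu₂ z.2).2.1)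
    have e1 : ∑ m ∈ Osq E, ∑ k ∈ S m, |(k : ℝ)| ^ (-(1 / 2) : ℝ) * ‖G m k z‖ =
        ‖w₁ z.1‖ * ‖w₂ z.2‖ * ∑ m ∈ Osq E, ∑ k ∈ S m, |(k : ℝ)| ^ (-(1 / 2) : ℝ) *
          ‖T4 k Z M (rs m (al 1 (v₁ z.1 - Complex.I * τ))) (rs m (al 1 (v₂ z.2 - Complex.I * τ)))
            (an m (u₁ z.1 - Complex.I * τ) x) (an m (u₂ z.2 - Complex.I * τ) x)‖ := by
      rw [mul_sum]
      refine sum_congr rfl fun m _ => ?_
      rw [mul_sum]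
      refine sum_congr rfl fun k _ => ?_
      simp only [hG]
      rw [norm_mul, norm_mul, e5_al_rs m (v₁ z.1 - Complex.I * τ),
        e5_al_rs m (v₂ z.2 - Complex.I * τ)]
      ring
    rw [e1]
    have hn1 := hsn (u₁ z.1) z.1 (hu₁ z.1).2.2
    have hn2 := hsn (u₂ z.2) z.2 (hu₂ z.2).2.2
    calc ‖w₁ z.1‖ * ‖w₂ z.2‖ * ∑ m ∈ Osq E, ∑ k ∈ S m, |(k : ℝ)| ^ (-(1 / 2) : ℝ) *
          ‖T4 k Z M (rs m (al 1 (v₁ z.1 - Complex.I * τ))) (rs m (al 1 (v₂ z.2 - Complex.I * τ)))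
            (an m (u₁ z.1 - Complex.I * τ) x) (an m (u₂ z.2 - Complex.I * τ) x)‖
        ≤ ‖w₁ z.1‖ * ‖w₂ z.2‖ * (C₁ * X ^ ε * ((1 + ‖u₁ z.1 - Complex.I * τ‖) *
          (1 + ‖u₂ z.2 - Complex.I * τ‖)) ^ B * (√(K : ℝ) + Z)) := by
          exact mul_le_mul_of_nonneg_left h (by clear * -; positivity)
      _ ≤ ‖w₁ z.1‖ * ‖w₂ z.2‖ * (C₁ * X ^ ε * ((11 * (1 + ‖z.1‖) * (1 + |τ|)) *
          (11 * (1 + ‖z.2‖) * (1 + |τ|))) ^ B * (√(K : ℝ) + X ^ θ)) := by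
          (clear * - hn1 hn2 hC₁ hX4 hZle hK hZ1; gcongr)
      _ = _ := by
          rw [hc₀]
          simp only [mul_pow, pow_mul']
          ring
  have hI₁ : 0 ≤ ∫ p, ‖w₁ p‖ * (1 + ‖p‖) ^ B := by (clear * -; positivity)
  have hI₂ : 0 ≤ ∫ p, ‖w₂ p‖ * (1 + ‖p‖) ^ B := by (clear * -; positivity)
  have hint : ∀ m : ℕ, Integrable (fun z => ∑ k ∈ S m, |(k : ℝ)| ^ (-(1 / 2) : ℝ) * ‖G m k z‖)
      (volume.prod volume) := fun m =>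
    integrable_finsetSum _ fun k _ => (hGint m k).norm.const_mul _
  calc ∑ m ∈ Osq E, ∑ k ∈ S m, |(k : ℝ)| ^ (-(1 / 2) : ℝ) *
        ‖∑ n₁ ∈ Icc 1 M, ∑ l₁ ∈ Icc 1 M, ∑ n₂ ∈ Icc 1 M,
        ∑ l₂ ∈ Icc 1 M, if Nat.Coprime (n₁ * l₁ * n₂ * l₂) (2 * m) then
        (ArithmeticFunction.moebius l₁ : ℂ) * (ArithmeticFunction.moebius l₂ : ℂ) *
          (W₁ l₁ n₁ : ℂ) * (W₂ l₂ n₂ : ℂ) * (gg k (n₁ * l₁ * n₂ * l₂) : ℂ) *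
          ((n₁ * l₁ * n₂ * l₂ : ℕ) : ℂ) ^ (Complex.I * τ) else 0‖
      ≤ ∑ m ∈ Osq E, ∑ k ∈ S m, |(k : ℝ)| ^ (-(1 / 2) : ℝ) *
          ∫ z, ‖G m k z‖ ∂(volume.prod volume) := by
        refine sum_le_sum fun m _ => sum_le_sum fun k _ => ?_
        rw [hQ m k]
        exact mul_le_mul_of_nonneg_left (norm_integral_le_integral_norm _)
          (by clear * -; positivity)
    _ = ∫ z, ∑ m ∈ Osq E, ∑ k ∈ S m, |(k : ℝ)| ^ (-(1 / 2) : ℝ) * ‖G m k z‖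
          ∂(volume.prod volume) := by
        rw [integral_finsetSum _ fun m _ => hint m]
        refine sum_congr rfl fun m _ => ?_
        rw [integral_finsetSum _ fun k _ => (hGint m k).norm.const_mul _]
        refine sum_congr rfl fun k _ => ?_
        rw [integral_const_mul]
    _ ≤ ∫ z : (ℝ × ℝ × ℝ) × (ℝ × ℝ × ℝ), c₀ * ((‖w₁ z.1‖ * (1 + ‖z.1‖) ^ B) *
          (‖w₂ z.2‖ * (1 + ‖z.2‖) ^ B)) ∂(volume.prod volume) := by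
        refine integral_mono (integrable_finsetSum _ fun m _ => hint m)
          ((hi₁.mul_prod hi₂).const_mul _) hpt
    _ = c₀ * ((∫ p, ‖w₁ p‖ * (1 + ‖p‖) ^ B) * ∫ p, ‖w₂ p‖ * (1 + ‖p‖) ^ B) := by
        rw [integral_const_mul]
        rw [integral_prod_mul (fun p : ℝ × ℝ × ℝ => ‖w₁ p‖ * (1 + ‖p‖) ^ B)
          (fun p : ℝ × ℝ × ℝ => ‖w₂ p‖ * (1 + ‖p‖) ^ B)]
    _ ≤ c₀ * (C * C) := by (clear * - hb₁ hb₂ hC hC₁ hX4 hK hI₁ hI₂ hc₀0; gcongr)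
    _ = _ := by
        rw [hc₀]
        ring

end Pool.Agent.MP0016c7.PC
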