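import Mathlib
import Pool.Agent.Lib.MP_0016c7_nt.Rz.LipWt
import Pool.Agent.Lib.MP_0016c7_nt.Rz2.SepWt
import Pool.Agent.Lib.MP_0016c7_nt.PC.Iface2
import Pool.Agent.Lib.MP_0016c7_nt.PC.E.EStm

set_option autoImplicit false

/-!
Project PrimeConductors, block [E]: `JF_err` from the general error term `S_E7`.
-/

open Finset MeasureTheory Filter Topology
open scoped Real ContDiff

namespace Pool.Agent.MP0016c7.PC

open Pool.Agent.MP0016c7.Rz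

private theorem e8_lipmono {θ X C C' : ℝ} {W : ℕ → ℕ → ℝ} (h : LipW θ X C W) (hC : C ≤ C') :
    LipW θ X C' W where
  bd := fun l n => (h.bd l n).trans hC
  lip := fun l m n hm hn => (h.lip l m n hm hn).trans
    (mul_le_mul_of_nonneg_right hC (abs_nonneg _))
  supp₁ := h.supp₁
  supp₂ := h.supp₂

private theorem e8_sepmono {B : ℕ} {C C' : ℝ} {W : ℕ → ℕ → ℝ} (h : SepW B C W) (hC : C ≤ C') :
    SepW B C' W := by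
  obtain ⟨w, u, v, h1, h2, h3, h4, h5, h6, h7, h8⟩ := h
  exact ⟨w, u, v, h1, h2, h3, h4, h5, h6, h7.trans hC, h8⟩

theorem p_E8 (h7 : S_E7) : JF_err := by
  intro θ₁ δ η hθ₁ hδ hη hlt F a b ha hF σ hσ c₀ hc₀ ρ₁ ρ₂ h₁ h₂ hρ₁ hρ₂ hh₁ hh₂ C₀ hC₀
  have hθ : θ₁ + 3 * δ < 1 / 2 := by linarith only [hlt, hη]
  obtain ⟨B, HB⟩ := h7 (θ₁ + 3 * δ) η (by positivity) hη (by linarith only [hlt]) F a b ha hF σ hσ
  obtain ⟨C₁, X₁, hC₁, H₁⟩ := lipW_Wt θ₁ δ hθ₁ hδ hθ c₀ hc₀ hρ₁ hh₁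
  obtain ⟨C₂, X₂, hC₂, H₂⟩ := lipW_Wt θ₁ δ hθ₁ hδ hθ c₀ hc₀ hρ₂ hh₂
  obtain ⟨C₃, X₃, hC₃, H₃⟩ := sepW_Wt θ₁ δ hθ₁ hδ hθ c₀ hc₀ hρ₁ hh₁ B
  obtain ⟨C₄, X₄, hC₄, H₄⟩ := sepW_Wt θ₁ δ hθ₁ hδ hθ c₀ hc₀ hρ₂ hh₂ B
  set C : ℝ := C₀ + C₁ + C₂ + C₃ + C₄ with hC
  have hCpos : 0 < C := by (clear * - hC₀ hC₁ hC₂ hC₃ hC₄; positivity)
  obtain ⟨ε₀, η', X₅, hε₀, hη', H₅⟩ := HB C hCpos
  refine ⟨ε₀, η', max (max X₁ X₂) (max (max X₃ X₄) (max X₅ 0)), hε₀, hη', ?_⟩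
  intro X hX Y₁ hY₁ Y₂ hY₂ c hc Y hYl hYu v hv
  have k1 : X₁ ≤ X := (le_max_left _ _).trans ((le_max_left _ _).trans hX)
  have k2 : X₂ ≤ X := (le_max_right _ _).trans ((le_max_left _ _).trans hX)
  have k3 : X₃ ≤ X :=
    (le_max_left _ _).trans ((le_max_left _ _).trans ((le_max_right _ _).trans hX))
  have k4 : X₄ ≤ X :=
    (le_max_right _ _).trans ((le_max_left _ _).trans ((le_max_right _ _).trans hX))
  have k5 : X₅ ≤ X :=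
    (le_max_left _ _).trans ((le_max_right _ _).trans ((le_max_right _ _).trans hX))
  have k6 : 0 ≤ X :=
    (le_max_right _ _).trans ((le_max_right _ _).trans ((le_max_right _ _).trans hX))
  have g1 : X / C ≤ Y := by
    refine le_trans ?_ hYl
    refine div_le_div_of_nonneg_left k6 hC₀ ?_
    rw [hC]
    linarith only [hC₁, hC₂, hC₃, hC₄]
  have g2 : Y ≤ C * X := by
    refine hYu.trans ?_
    refine mul_le_mul_of_nonneg_right ?_ k6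
    rw [hC]
    linarith only [hC₁, hC₂, hC₃, hC₄]
  exact H₅ X k5 Y g1 g2 (Wt c₀ ρ₁ h₁ X θ₁ δ Y₁) (Wt c₀ ρ₂ h₂ X θ₁ δ Y₂)
    (e8_lipmono (H₁ X k1 Y₁ hY₁) (by rw [hC]; linarith only [hC₀, hC₂, hC₃, hC₄]))
    (e8_lipmono (H₂ X k2 Y₂ hY₂) (by rw [hC]; linarith only [hC₀, hC₁, hC₃, hC₄]))
    (e8_sepmono (H₃ X k3 Y₁ hY₁) (by rw [hC]; linarith only [hC₀, hC₁, hC₂, hC₄]))
    (e8_sepmono (H₄ X k4 Y₂ hY₂) (by rw [hC]; linarith only [hC₀, hC₁, hC₂, hC₃])) c hc v hv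

end Pool.Agent.MP0016c7.PC
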