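import Mathlib
import Pool.Agent.Lib.MP_0016c7_nt.Rz2.Qls
import Pool.Agent.Lib.MP_0016c7_nt.PC.Iface2
import Pool.Agent.Lib.MP_0016c7_nt.PC.E.EStm
import Pool.Agent.Lib.MP_0016c7_nt.PC.E.E1
import Pool.Agent.Lib.MP_0016c7_nt.PC.E.E2
import Pool.Agent.Lib.MP_0016c7_nt.PC.E.E3
import Pool.Agent.Lib.MP_0016c7_nt.PC.E.E4
import Pool.Agent.Lib.MP_0016c7_nt.PC.E.E5
import Pool.Agent.Lib.MP_0016c7_nt.PC.E.E6
import Pool.Agent.Lib.MP_0016c7_nt.PC.E.E7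
import Pool.Agent.Lib.MP_0016c7_nt.PC.E.E8

set_option autoImplicit false

/-!
Project PrimeConductors, block [E]: `JF_err` is proved.
-/

namespace Pool.Agent.MP0016c7.PC

open Pool.Agent.MP0016c7.Rz

/-- The error terms, summed over the sieve modulus. -/
theorem jf_err : JF_err := by
  haveI := qlsHyp
  exact p_E8 (p_E7 (p_E5 (p_E4 p_E2 (p_E3 p_E1))) p_E6)

end Pool.Agent.MP0016c7.PC
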