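import Mathlib
import Pool.Agent.Lib.MP_0016c7_nt.Rz.Defs
import Pool.Agent.Lib.MP_0016c7_nt.Rz.FtS
import Pool.Agent.Lib.MP_0016c7_nt.Rz.ErrD6a
import Pool.Agent.Lib.MP_0016c7_nt.Rz.LipWt
import Pool.Agent.Lib.MP_0016c7_nt.Rz2.QDefs
import Pool.Agent.Lib.MP_0016c7_nt.Rz2.FtM
import Pool.Agent.Lib.MP_0016c7_nt.PC.E.EStm

set_option autoImplicit false

/-!
The general error term with the sum over the sieve modulus (`S_E7`).
-/

open Finset MeasureTheory Filter Topology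
open scoped Real ContDiff

namespace Pool.Agent.MP0016c7.PC

open Pool.Agent.MP0016c7.Rz

/-! ### Quadruple sums as sums over a product -/

/-- the coefficient of a quadruple -/
private noncomputable def e7c (W₁ W₂ : ℕ → ℕ → ℝ) (r : ℕ) (q : ℕ × ℕ × ℕ × ℕ) : ℝ :=
  if Nat.Coprime (q.1 * q.2.1 * q.2.2.1 * q.2.2.2) (2 * r) then
    (ArithmeticFunction.moebius q.2.1 : ℝ) * (ArithmeticFunction.moebius q.2.2.2 : ℝ) *
      W₁ q.2.1 q.1 * W₂ q.2.2.2 q.2.2.1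
  else 0

/-- the product of the entries -/
private def e7n (q : ℕ × ℕ × ℕ × ℕ) : ℕ := q.1 * q.2.1 * q.2.2.1 * q.2.2.2

/-- the box -/
private def e7P (M : ℕ) : Finset (ℕ × ℕ × ℕ × ℕ) := Icc 1 M ×ˢ (Icc 1 M ×ˢ (Icc 1 M ×ˢ Icc 1 M))

private theorem e7_mem {M : ℕ} {q : ℕ × ℕ × ℕ × ℕ} (hq : q ∈ e7P M) :
    1 ≤ q.1 ∧ 1 ≤ q.2.1 ∧ 1 ≤ q.2.2.1 ∧ 1 ≤ q.2.2.2 := by
  simp only [e7P, mem_product, mem_Icc] at hq
  exact ⟨hq.1.1, hq.2.1.1, hq.2.2.1.1, hq.2.2.2.1⟩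

private theorem e7n_pos {M : ℕ} {q : ℕ × ℕ × ℕ × ℕ} (hq : q ∈ e7P M) : 1 ≤ e7n q := by
  obtain ⟨h1, h2, h3, h4⟩ := e7_mem hq
  unfold e7n
  exact Nat.one_le_iff_ne_zero.mpr (by positivity)

private theorem e7_card (M : ℕ) : (e7P M).card = M ^ 4 := by
  simp only [e7P, card_product, Nat.card_Icc, add_tsub_cancel_right]
  ring

private theorem e7_quad (W₁ W₂ : ℕ → ℕ → ℝ) (r M : ℕ) (f : ℕ → ℝ) :
    quad W₁ W₂ r M f = ∑ q ∈ e7P M, e7c W₁ W₂ r q / √(e7n q : ℝ) * f (e7n q) := by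
  unfold quad e7P
  simp only [sum_product, e7c, e7n]
  refine sum_congr rfl fun n₁ _ => sum_congr rfl fun l₁ _ => sum_congr rfl fun n₂ _ =>
    sum_congr rfl fun l₂ _ => ?_
  split_ifs with h
  · rfl
  · simp

private theorem e7_cplx (W₁ W₂ : ℕ → ℕ → ℝ) (r M : ℕ) (k : ℤ) (τ : ℝ) :
    (∑ n₁ ∈ Icc 1 M, ∑ l₁ ∈ Icc 1 M, ∑ n₂ ∈ Icc 1 M, ∑ l₂ ∈ Icc 1 M,
      if Nat.Coprime (n₁ * l₁ * n₂ * l₂) (2 * r) then
        (ArithmeticFunction.moebius l₁ : ℂ) * (ArithmeticFunction.moebius l₂ : ℂ) *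
          (W₁ l₁ n₁ : ℂ) * (W₂ l₂ n₂ : ℂ) * (gg k (n₁ * l₁ * n₂ * l₂) : ℂ) *
          ((n₁ * l₁ * n₂ * l₂ : ℕ) : ℂ) ^ (Complex.I * τ) else 0) =
    ∑ q ∈ e7P M, (e7c W₁ W₂ r q : ℂ) * (gg k (e7n q) : ℂ) *
      ((e7n q : ℕ) : ℂ) ^ (Complex.I * τ) := by
  unfold e7P
  simp only [sum_product, e7c, e7n]
  refine sum_congr rfl fun n₁ _ => sum_congr rfl fun l₁ _ => sum_congr rfl fun n₂ _ =>
    sum_congr rfl fun l₂ _ => ?_
  split_ifs with h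
  · push_cast
    ring
  · simp

private theorem e7_mu (n : ℕ) : |(ArithmeticFunction.moebius n : ℝ)| ≤ 1 := by
  have h := ArithmeticFunction.abs_moebius_le_one (n := n)
  exact_mod_cast h

private theorem e7c_le {θ X C : ℝ} (hC : 0 < C) {W₁ W₂ : ℕ → ℕ → ℝ} (h₁ : LipW θ X C W₁)
    (h₂ : LipW θ X C W₂) (r : ℕ) (q : ℕ × ℕ × ℕ × ℕ) : |e7c W₁ W₂ r q| ≤ C ^ 2 := by
  unfold e7c
  split_ifs with h
  · rw [abs_mul, abs_mul, abs_mul]
    have e1 := e7_mu q.2.1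
    have e2 := e7_mu q.2.2.2
    have e3 := h₁.bd q.2.1 q.1
    have e4 := h₂.bd q.2.2.2 q.2.2.1
    calc |(ArithmeticFunction.moebius q.2.1 : ℝ)| * |(ArithmeticFunction.moebius q.2.2.2 : ℝ)| *
          |W₁ q.2.1 q.1| * |W₂ q.2.2.2 q.2.2.1| ≤ 1 * 1 * C * C := by (clear * - e1 e2 e3 e4 hC; gcongr)
      _ = C ^ 2 := by ring
  · rw [abs_zero]; positivity

private theorem e7_supp {θ X C : ℝ} (hX : 0 < X) {W₁ W₂ : ℕ → ℕ → ℝ} (h₁ : LipW θ X C W₁)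
    (h₂ : LipW θ X C W₂) (r : ℕ) (q : ℕ × ℕ × ℕ × ℕ) (hq : e7c W₁ W₂ r q ≠ 0) :
    (e7n q : ℝ) ≤ X ^ (1 + 2 * θ) := by
  unfold e7c at hq
  split_ifs at hq with h
  · have e1 : W₁ q.2.1 q.1 ≠ 0 := by
      intro h0; apply hq; rw [h0]; ring
    have e2 : W₂ q.2.2.2 q.2.2.1 ≠ 0 := by
      intro h0; apply hq; rw [h0]; ring
    have e3 : (q.2.1 : ℝ) * q.1 ≤ X ^ (1 / 2 + θ) := by
      by_contra hh
      exact e1 (h₁.supp₂ _ _ (not_le.mp hh))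
    have e4 : (q.2.2.2 : ℝ) * q.2.2.1 ≤ X ^ (1 / 2 + θ) := by
      by_contra hh
      exact e2 (h₂.supp₂ _ _ (not_le.mp hh))
    have e5 : (e7n q : ℝ) = ((q.2.1 : ℝ) * q.1) * ((q.2.2.2 : ℝ) * q.2.2.1) := by
      unfold e7n; push_cast; ring
    rw [e5, show (1 : ℝ) + 2 * θ = (1 / 2 + θ) + (1 / 2 + θ) by ring, Real.rpow_add hX]
    exact mul_le_mul e3 e4 (by (clear * -; positivity)) (by positivity)
  · exact absurd rfl hq

/-- replacing the function on the support -/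
private theorem e7_stepA {θ X C δ : ℝ} (hX : 0 < X) (hC : 0 < C) {W₁ W₂ : ℕ → ℕ → ℝ}
    (h₁ : LipW θ X C W₁) (h₂ : LipW θ X C W₂) (r M : ℕ) (f g : ℕ → ℝ) (hδ : 0 ≤ δ)
    (hfg : ∀ N : ℕ, 1 ≤ N → (N : ℝ) ≤ X ^ (1 + 2 * θ) → |f N - g N| ≤ δ) :
    |quad W₁ W₂ r M f - quad W₁ W₂ r M g| ≤ (M : ℝ) ^ 4 * (C ^ 2 * δ) := by
  rw [e7_quad, e7_quad, ← sum_sub_distrib]
  refine (abs_sum_le_sum_abs _ _).trans ?_
  have h3 : ∀ q ∈ e7P M, |e7c W₁ W₂ r q / √(e7n q : ℝ) * f (e7n q) -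
      e7c W₁ W₂ r q / √(e7n q : ℝ) * g (e7n q)| ≤ C ^ 2 * δ := by
    intro q hq
    rw [← mul_sub, abs_mul, abs_div]
    by_cases h0 : e7c W₁ W₂ r q = 0
    · rw [h0]; simp only [abs_zero, zero_div, zero_mul]; positivity
    · have e1 := hfg (e7n q) (e7n_pos hq) (e7_supp hX h₁ h₂ r q h0)
      have e2 := e7c_le hC h₁ h₂ r q
      have e3 : (1 : ℝ) ≤ |√(e7n q : ℝ)| := by
        rw [abs_of_nonneg (Real.sqrt_nonneg _)]
        rw [Real.one_le_sqrt]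
        exact_mod_cast e7n_pos hq
      have e4 : |e7c W₁ W₂ r q| / |√(e7n q : ℝ)| ≤ C ^ 2 :=
        (div_le_self (abs_nonneg _) e3).trans e2
      exact mul_le_mul e4 e1 (abs_nonneg _) (by positivity)
  refine (sum_le_sum h3).trans ?_
  rw [sum_const, e7_card, nsmul_eq_mul]
  push_cast
  exact le_refl _

/-! ### Mellin inversion -/

private theorem e7_pow {t : ℝ} (ht : 0 < t) {N : ℕ} (hN : 1 ≤ N) (τ : ℝ) :
    (1 / √(N : ℝ) : ℂ) * (((t / N : ℝ) : ℂ) ^ (-(1 / 2 : ℂ) - Complex.I * τ)) =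
      (t : ℂ) ^ (-(1 / 2 : ℂ) - Complex.I * τ) * ((N : ℕ) : ℂ) ^ (Complex.I * τ) := by
  have hN0 : (0 : ℝ) < N := by exact_mod_cast hN
  have hNc : ((N : ℝ) : ℂ) ≠ 0 := by exact_mod_cast hN0.ne'
  have e1 : ((t / N : ℝ) : ℂ) ^ (-(1 / 2 : ℂ) - Complex.I * τ) *
      ((N : ℝ) : ℂ) ^ (-(1 / 2 : ℂ) - Complex.I * τ) =
      (t : ℂ) ^ (-(1 / 2 : ℂ) - Complex.I * τ) := by
    rw [← Complex.mul_cpow_ofReal_nonneg (by positivity) hN0.le, ← Complex.ofReal_mul,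
      div_mul_cancel₀ _ hN0.ne']
  have e2 : (1 / √(N : ℝ) : ℂ) = ((N : ℝ) : ℂ) ^ (-(1 / 2 : ℂ) - Complex.I * τ) *
      ((N : ℝ) : ℂ) ^ (Complex.I * τ) := by
    rw [← Complex.cpow_add _ _ hNc]
    have : -(1 / 2 : ℂ) - Complex.I * τ + Complex.I * τ = ((-(1 / 2) : ℝ) : ℂ) := by
      push_cast; ring
    rw [this, ← Complex.ofReal_cpow hN0.le, Real.rpow_neg hN0.le, ← Real.sqrt_eq_rpow]
    push_cast
    rw [one_div]
  rw [e2, ← e1]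
  push_cast
  ring


private theorem e7_key {ι : Type*} (f : ℝ → ℂ) (hfi : Integrable f) (hfc : Continuous f)
    (Φ : ℝ → ℝ)
    (hΦ : ∀ t : ℝ, 0 < t → (Φ t : ℂ) = ∫ τ : ℝ, f τ * (t : ℂ) ^ (-(1 / 2 : ℂ) - Complex.I * τ))
    (t : ℝ) (ht : 0 < t) (P : Finset ι) (c g : ι → ℝ) (N : ι → ℕ) (hN : ∀ q ∈ P, 1 ≤ N q) :
    |∑ q ∈ P, c q / √(N q : ℝ) * (g q * Φ (t / N q))| ≤
      t ^ (-(1 / 2) : ℝ) * ∫ τ : ℝ, ‖f τ‖ *
        ‖∑ q ∈ P, (c q : ℂ) * (g q : ℂ) * ((N q : ℕ) : ℂ) ^ (Complex.I * τ)‖ := by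
  have htc : (t : ℂ) ≠ 0 := by exact_mod_cast ht.ne'
  have hc1 : Continuous fun τ : ℝ => (t : ℂ) ^ (-(1 / 2 : ℂ) - Complex.I * τ) := by
    refine Continuous.const_cpow (by fun_prop) (Or.inl htc)
  have hn1 : ∀ τ : ℝ, ‖(t : ℂ) ^ (-(1 / 2 : ℂ) - Complex.I * τ)‖ = t ^ (-(1 / 2) : ℝ) := by
    intro τ
    rw [Complex.norm_cpow_eq_rpow_re_of_pos ht]
    congr 1
    simp
  have hc2 : ∀ q ∈ P, Continuous fun τ : ℝ => ((N q : ℕ) : ℂ) ^ (Complex.I * τ) := by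
    intro q hq
    refine Continuous.const_cpow (by fun_prop) (Or.inl ?_)
    have := hN q hq
    exact_mod_cast (show N q ≠ 0 by omega)
  have hn2 : ∀ q ∈ P, ∀ τ : ℝ, ‖((N q : ℕ) : ℂ) ^ (Complex.I * τ)‖ = 1 := by
    intro q hq τ
    have h0 : (0 : ℝ) < (N q : ℝ) := by exact_mod_cast hN q hq
    have h1 := Complex.norm_cpow_eq_rpow_re_of_pos h0 (Complex.I * τ)
    simp only [Complex.ofReal_natCast] at h1
    rw [h1]
    simp
  have hterm : ∀ q ∈ P, ((c q / √(N q : ℝ) * (g q * Φ (t / N q)) : ℝ) : ℂ) =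
      ∫ τ : ℝ, f τ * ((t : ℂ) ^ (-(1 / 2 : ℂ) - Complex.I * τ) *
        ((c q : ℂ) * (g q : ℂ) * ((N q : ℕ) : ℂ) ^ (Complex.I * τ))) := by
    intro q hq
    have h0 : (0 : ℝ) < (N q : ℝ) := by exact_mod_cast hN q hq
    have e1 := hΦ (t / N q) (div_pos ht h0)
    have e2 : ((c q / √(N q : ℝ) * (g q * Φ (t / N q)) : ℝ) : ℂ) =
        ((c q : ℂ) * (g q : ℂ)) * ((1 / √(N q : ℝ) : ℂ) * (Φ (t / N q) : ℂ)) := by
      push_cast; ring
    rw [e2, e1, ← integral_const_mul, ← integral_const_mul]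
    refine integral_congr_ae (Filter.Eventually.of_forall fun τ => ?_)
    have e3 := e7_pow ht (hN q hq) τ
    simp only
    calc (c q : ℂ) * (g q : ℂ) * ((1 / √(N q : ℝ) : ℂ) *
          (f τ * ((t / N q : ℝ) : ℂ) ^ (-(1 / 2 : ℂ) - Complex.I * τ))) =
        f τ * ((c q : ℂ) * (g q : ℂ)) * ((1 / √(N q : ℝ) : ℂ) *
          (((t / N q : ℝ) : ℂ) ^ (-(1 / 2 : ℂ) - Complex.I * τ))) := by ring
      _ = _ := by rw [e3]; ring
  have hint : ∀ q ∈ P, Integrable fun τ : ℝ => f τ * ((t : ℂ) ^ (-(1 / 2 : ℂ) - Complex.I * τ) *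
        ((c q : ℂ) * (g q : ℂ) * ((N q : ℕ) : ℂ) ^ (Complex.I * τ))) := by
    intro q hq
    refine Integrable.mono' (hfi.norm.mul_const (t ^ (-(1 / 2) : ℝ) * (|c q| * |g q|)))
      (hfc.mul (hc1.mul (continuous_const.mul (hc2 q hq)))).aestronglyMeasurable
      (Filter.Eventually.of_forall fun τ => ?_)
    rw [norm_mul, norm_mul, hn1, norm_mul, hn2 q hq, norm_mul, Complex.norm_real,
      Complex.norm_real, Real.norm_eq_abs, Real.norm_eq_abs, mul_one]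
  have hsum : ((∑ q ∈ P, c q / √(N q : ℝ) * (g q * Φ (t / N q)) : ℝ) : ℂ) =
      ∫ τ : ℝ, f τ * ((t : ℂ) ^ (-(1 / 2 : ℂ) - Complex.I * τ) *
        ∑ q ∈ P, (c q : ℂ) * (g q : ℂ) * ((N q : ℕ) : ℂ) ^ (Complex.I * τ)) := by
    rw [Complex.ofReal_sum, sum_congr rfl hterm, ← integral_finsetSum _ hint]
    refine integral_congr_ae (Filter.Eventually.of_forall fun τ => ?_)
    simp only
    rw [mul_sum, mul_sum]
  have hnorm : |∑ q ∈ P, c q / √(N q : ℝ) * (g q * Φ (t / N q))| =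
      ‖((∑ q ∈ P, c q / √(N q : ℝ) * (g q * Φ (t / N q)) : ℝ) : ℂ)‖ := by
    rw [Complex.norm_real, Real.norm_eq_abs]
  rw [hnorm, hsum, ← integral_const_mul]
  refine (norm_integral_le_integral_norm _).trans (le_of_eq ?_)
  refine integral_congr_ae (Filter.Eventually.of_forall fun τ => ?_)
  simp only
  rw [norm_mul, norm_mul, hn1]
  ring

private theorem e7_contS {ι : Type*} (P : Finset ι) (c g : ι → ℝ) (N : ι → ℕ)
    (hN : ∀ q ∈ P, 1 ≤ N q) :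
    Continuous fun τ : ℝ => ∑ q ∈ P, (c q : ℂ) * (g q : ℂ) * ((N q : ℕ) : ℂ) ^ (Complex.I * τ) := by
  refine continuous_finsetSum _ fun q hq => ?_
  refine continuous_const.mul (Continuous.const_cpow (by fun_prop) (Or.inl ?_))
  have := hN q hq
  exact_mod_cast (show N q ≠ 0 by omega)

private theorem e7_bddS {ι : Type*} (P : Finset ι) (c g : ι → ℝ) (N : ι → ℕ)
    (hN : ∀ q ∈ P, 1 ≤ N q) (τ : ℝ) :
    ‖∑ q ∈ P, (c q : ℂ) * (g q : ℂ) * ((N q : ℕ) : ℂ) ^ (Complex.I * τ)‖ ≤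
      ∑ q ∈ P, |c q| * |g q| := by
  refine (norm_sum_le _ _).trans (sum_le_sum fun q hq => ?_)
  have h0 : (0 : ℝ) < (N q : ℝ) := by exact_mod_cast hN q hq
  have h1 := Complex.norm_cpow_eq_rpow_re_of_pos h0 (Complex.I * τ)
  simp only [Complex.ofReal_natCast] at h1
  rw [norm_mul, h1, norm_mul, Complex.norm_real, Complex.norm_real, Real.norm_eq_abs,
    Real.norm_eq_abs]
  simp

private theorem e7_Ft_neg (F : ℝ → ℝ) (σ : ℤ) (ξ : ℝ) : Ft F σ (-ξ) = Ft F (-σ) ξ := by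
  unfold Ft
  refine integral_congr_ae (Filter.Eventually.of_forall fun t => ?_)
  simp only
  have e1 : 2 * π * -ξ * t = -(2 * π * ξ * t) := by ring
  rw [e1, Real.cos_neg, Real.sin_neg]
  push_cast
  ring


theorem p_E7 [QlsHyp] (h5 : S_E5) (h6 : S_E6) : S_E7 := by
  classical
  intro θ η hθ hη hθη F a b ha hF σ hσ
  have hθ' : θ < 1 / 2 := by linarith only [hη, hθη]
  obtain ⟨f₁, hf₁, hc₁, hm₁⟩ := Ft_mellin' hF σ
  obtain ⟨f₂, hf₂, hc₂, hm₂⟩ := Ft_mellin' hF (-σ)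
  obtain ⟨η₀, hη₀⟩ : ∃ η₀ : ℝ, η₀ = 1 / 2 - θ - η := ⟨_, rfl⟩
  have hη₀0 : 0 < η₀ := by rw [hη₀]; linarith only [hθη]
  obtain ⟨ε, hε⟩ : ∃ ε : ℝ, ε = η₀ / 8 := ⟨_, rfl⟩
  have hε0 : 0 < ε := by rw [hε]; linarith only [hη₀0]
  obtain ⟨B, hsumk⟩ := h5 ε hε0 θ hθ hθ'
  refine ⟨B, fun C hC => ?_⟩
  obtain ⟨K, X₂, hK, hsk⟩ := hsumk C hC
  obtain ⟨X₁, htail⟩ := h6 F a b ha hF σ (θ + η) ε C 12 (by linarith only [hθ, hη]) hθη hε0 hC
  obtain ⟨g, hg⟩ : ∃ g : ℝ → ℝ, ∀ τ, g τ = ‖f₁ τ‖ + ‖f₂ τ‖ := ⟨_, fun _ => rfl⟩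
  have hg0 : ∀ τ, 0 ≤ g τ := fun τ => by rw [hg]; (clear * -; positivity)
  have hgc : Continuous g := by
    have : g = fun τ => ‖f₁ τ‖ + ‖f₂ τ‖ := funext hg
    rw [this]
    fun_prop
  have hgB : ∀ m : ℕ, Integrable (fun τ => g τ * (1 + |τ|) ^ m) := by
    intro m
    refine ((hf₁ m).add (hf₂ m)).congr (Filter.Eventually.of_forall fun τ => ?_)
    simp only [Pi.add_apply, hg]
    ring
  have hgi : Integrable g := by
    have := hgB 0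
    simpa using this
  have hf1i : Integrable f₁ := by
    have := hf₁ 0
    simp only [pow_zero, mul_one] at this
    exact (integrable_norm_iff hc₁.aestronglyMeasurable).1 this
  have hf2i : Integrable f₂ := by
    have := hf₂ 0
    simp only [pow_zero, mul_one] at this
    exact (integrable_norm_iff hc₂.aestronglyMeasurable).1 this
  obtain ⟨I, hI⟩ : ∃ I, I = ∫ τ : ℝ, g τ * (1 + |τ|) ^ (2 * B) := ⟨_, rfl⟩
  have hI0 : 0 ≤ I := by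
    rw [hI]
    exact integral_nonneg fun τ => mul_nonneg (hg0 τ) (by (clear * -; positivity))
  obtain ⟨D₁, hD₁⟩ : ∃ D₁ : ℝ, D₁ = 2 * (2 * C) ^ (1 / 2 : ℝ) * K * 2 * I := ⟨_, rfl⟩
  have hD₁0 : 0 ≤ D₁ := by rw [hD₁]; (clear * - hC hK hI0; positivity)
  obtain ⟨E, hE⟩ : ∃ E : ℝ, E = C ^ 2 + D₁ + 1 := ⟨_, rfl⟩
  have hE0 : 0 < E := by rw [hE]; positivity
  refine ⟨ε, η₀ / 4, max (max 2 (max X₁ X₂)) (E ^ (4 / η₀)), hε0, by linarith only [hη₀0], ?_⟩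
  intro X hX Y hY _ W₁ W₂ hW₁ hW₂ hS₁ hS₂ c hcb v hv
  have hX2 : 2 ≤ X := ((le_max_left _ _).trans (le_max_left _ _)).trans hX
  have hX1 : X₁ ≤ X :=
    ((le_max_left _ _).trans ((le_max_right _ _).trans (le_max_left _ _))).trans hX
  have hX22 : X₂ ≤ X :=
    ((le_max_right _ _).trans ((le_max_right _ _).trans (le_max_left _ _))).trans hX
  have hXE : E ^ (4 / η₀) ≤ X := (le_max_right _ _).trans hX
  have hXpos : 0 < X := by linarith only [hX2]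
  have hXone : 1 ≤ X := by linarith only [hX2]
  have hYpos : 0 < Y := lt_of_lt_of_le (div_pos hXpos hC) hY
  obtain ⟨M, hM⟩ : ∃ M : ℕ, M = ⌊X ^ 2⌋₊ := ⟨_, rfl⟩
  have hMle : (M : ℝ) ≤ X ^ 2 := by rw [hM]; exact Nat.floor_le (by positivity)
  obtain ⟨K1, hK1⟩ : ∃ K1 : ℕ, K1 = ⌊X ^ (2 * (θ + η) + ε)⌋₊ := ⟨_, rfl⟩
  have hK1le : (K1 : ℝ) ≤ X ^ (2 * (θ + η) + ε) := by
    rw [hK1]; exact Nat.floor_le (by positivity)
  have hK1one : 1 ≤ K1 := by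
    rw [hK1]
    exact Nat.one_le_floor_iff _ |>.mpr
      (Real.one_le_rpow hXone (by linarith only [hθ, hε0, hη]))
  have hexp1 : 2 * (θ + η) + ε ≤ 4 := by rw [hε, hη₀]; linarith only [hθη]
  have hK1X : (K1 : ℝ) ≤ X ^ 4 := by
    refine hK1le.trans ?_
    calc X ^ (2 * (θ + η) + ε) ≤ X ^ (4 : ℝ) := Real.rpow_le_rpow_of_exponent_le hXone hexp1
      _ = X ^ 4 := by exact_mod_cast Real.rpow_natCast X 4
  obtain ⟨R0, hR0⟩ : ∃ R0 : Finset ℕ, R0 = Osq ⌊X ^ η⌋₊ := ⟨_, rfl⟩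
  have hmem : ∀ m ∈ R0, 1 ≤ m ∧ (m : ℝ) ≤ X ^ η := by
    intro m hm
    rw [hR0, Osq, mem_filter, mem_Icc] at hm
    refine ⟨hm.1.1, ?_⟩
    have h1 : (m : ℝ) ≤ (⌊X ^ η⌋₊ : ℝ) := by exact_mod_cast hm.1.2
    exact h1.trans (Nat.floor_le (by positivity))
  have hcard : (R0.card : ℝ) ≤ X ^ η := by
    have h1 : R0.card ≤ ⌊X ^ η⌋₊ := by
      rw [hR0, Osq]
      refine (card_filter_le _ _).trans ?_
      simp
    have h2 : (R0.card : ℝ) ≤ (⌊X ^ η⌋₊ : ℝ) := by exact_mod_cast h1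
    exact h2.trans (Nat.floor_le (by positivity))
  rw [← hM, ← hR0]
  -- truncation
  obtain ⟨T, hT⟩ : ∃ T : ℕ → ℕ → ℝ, ∀ m N, T m N = ∑ k ∈ Icc (-(K1 : ℤ)) K1,
      (if IsSquare k ∨ ¬ (m : ℤ) ∣ k then 0 else c k * gg k N *
        Ft F σ ((k : ℝ) * Y / (2 * (m : ℝ) ^ 2 * N))) := ⟨_, fun _ _ => rfl⟩
  have hA : ∀ m ∈ R0, |quad W₁ W₂ m M (NSm F σ c m Y) - quad W₁ W₂ m M (T m)| ≤
      C ^ 2 * X ^ (-4 : ℝ) := by
    intro m hm
    obtain ⟨hm1, hm2⟩ := hmem m hm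
    have h1 := e7_stepA (δ := X ^ (-12 : ℝ)) hXpos hC hW₁ hW₂ m M (NSm F σ c m Y) (T m)
      (by positivity)
      (by
      intro N hN1 hN2
      have h3 : (m : ℝ) ^ 2 * N ≤ X ^ (1 + 2 * (θ + η)) := by
        have h4 : (m : ℝ) ^ 2 ≤ X ^ (2 * η) := by
          calc (m : ℝ) ^ 2 ≤ (X ^ η) ^ 2 := by (clear * - hm2; gcongr)
            _ = X ^ (2 * η) := by
                rw [← Real.rpow_natCast (X ^ η) 2, ← Real.rpow_mul hXpos.le]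
                congr 1
                push_cast
                ring
        calc (m : ℝ) ^ 2 * N ≤ X ^ (2 * η) * X ^ (1 + 2 * θ) :=
              mul_le_mul h4 hN2 (by positivity) (by positivity)
          _ = X ^ (1 + 2 * (θ + η)) := by
              rw [← Real.rpow_add hXpos]
              congr 1
              ring
      have := htail X hX1 c hcb N m hN1 hm1 h3 Y hY
      rw [← hK1] at this
      rw [hT]
      exact this)
    refine h1.trans ?_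
    have h2 : (M : ℝ) ^ 4 ≤ X ^ (8 : ℝ) := by
      calc (M : ℝ) ^ 4 ≤ (X ^ 2) ^ 4 := by (clear * - hMle; gcongr)
        _ = X ^ (8 : ℝ) := by
            rw [← pow_mul]
            exact_mod_cast (Real.rpow_natCast X 8).symm
    calc (M : ℝ) ^ 4 * (C ^ 2 * X ^ (-12 : ℝ)) ≤ X ^ (8 : ℝ) * (C ^ 2 * X ^ (-12 : ℝ)) := by
          (clear * - h2 hC hX2; gcongr)
      _ = C ^ 2 * X ^ (-4 : ℝ) := by
          rw [show (-4 : ℝ) = 8 + (-12) by norm_num, Real.rpow_add hXpos]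
          ring
  -- the Dirichlet polynomials
  obtain ⟨S, hS⟩ : ∃ S : ℕ → ℤ → ℝ → ℂ, ∀ m k τ, S m k τ = ∑ q ∈ e7P M,
      (e7c W₁ W₂ m q : ℂ) *
      (gg k (e7n q) : ℂ) * ((e7n q : ℕ) : ℂ) ^ (Complex.I * τ) := ⟨_, fun _ _ _ => rfl⟩
  have hScont : ∀ m k, Continuous (S m k) := by
    intro m k
    have : S m k = fun τ : ℝ => ∑ q ∈ e7P M, (e7c W₁ W₂ m q : ℂ) *
      (gg k (e7n q) : ℂ) * ((e7n q : ℕ) : ℂ) ^ (Complex.I * τ) := funext (hS m k)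
    rw [this]
    exact e7_contS (e7P M) (e7c W₁ W₂ m) (fun q => gg k (e7n q)) e7n (fun q hq => e7n_pos hq)
  have hSbd : ∀ m k, ∃ R : ℝ, ∀ τ, ‖S m k τ‖ ≤ R := by
    intro m k
    refine ⟨∑ q ∈ e7P M, |e7c W₁ W₂ m q| * |gg k (e7n q)|, fun τ => ?_⟩
    rw [hS]
    exact e7_bddS (e7P M) (e7c W₁ W₂ m) (fun q => gg k (e7n q)) e7n (fun q hq => e7n_pos hq) τ
  have hSint : ∀ m k (φ : ℝ → ℝ), Integrable φ → Integrable (fun τ => φ τ * ‖S m k τ‖) := by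
    intro m k φ hφ
    obtain ⟨R, hR⟩ := hSbd m k
    refine Integrable.mul_bdd (c := R) hφ (hScont m k).norm.aestronglyMeasurable
      (Filter.Eventually.of_forall fun τ => ?_)
    rw [norm_norm]
    exact hR τ
  obtain ⟨Q, hQ⟩ : ∃ Q : ℕ → Finset ℤ, ∀ m, Q m = (Icc (-(K1 : ℤ)) K1).filter
      (fun k => ¬ IsSquare k ∧ (m : ℤ) ∣ k) := ⟨_, fun _ => rfl⟩
  have hQ0 : ∀ m, ∀ k ∈ Q m, k ≠ 0 := by
    intro m k hk
    rw [hQ, mem_filter] at hk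
    rintro rfl
    exact hk.2.1 ⟨0, by simp⟩
  -- a single `k`
  have hk : ∀ m ∈ R0, ∀ k ∈ Q m, |∑ q ∈ e7P M, e7c W₁ W₂ m q / √(e7n q : ℝ) *
        (gg k (e7n q) * Ft F σ ((k : ℝ) * Y / (2 * (m : ℝ) ^ 2 * e7n q)))| ≤
      (Y / 2) ^ (-(1 / 2) : ℝ) *
        (m * (|(k : ℝ)| ^ (-(1 / 2) : ℝ) * ∫ τ : ℝ, g τ * ‖S m k τ‖)) := by
    intro m hmR k hkQ
    obtain ⟨hm1, _⟩ := hmem m hmR
    have hm0 : (0 : ℝ) < m := by exact_mod_cast hm1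
    have hk0 : k ≠ 0 := hQ0 m k hkQ
    have hkpos : 0 < |(k : ℝ)| := by
      rw [abs_pos]; exact_mod_cast hk0
    obtain ⟨t, ht⟩ : ∃ t : ℝ, t = |(k : ℝ)| * (Y / 2) * ((m : ℝ) ^ 2)⁻¹ := ⟨_, rfl⟩
    have htpos : 0 < t := by rw [ht]; (clear * - hk0 hYpos hm0; positivity)
    have p1 : t ^ (-(1 / 2) : ℝ) =
        |(k : ℝ)| ^ (-(1 / 2) : ℝ) * (Y / 2) ^ (-(1 / 2) : ℝ) * m := by
      have p2 : (((m : ℝ) ^ 2)⁻¹) ^ (-(1 / 2) : ℝ) = m := by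
        rw [← Real.rpow_natCast (m : ℝ) 2, ← Real.rpow_neg hm0.le, ← Real.rpow_mul hm0.le]
        norm_num
      rw [ht, Real.mul_rpow (by positivity) (by positivity),
        Real.mul_rpow hkpos.le (by positivity), p2]
    have hmono : ∀ f : ℝ → ℂ, Integrable f → (∀ τ, ‖f τ‖ ≤ g τ) →
        ∫ τ : ℝ, ‖f τ‖ * ‖S m k τ‖ ≤ ∫ τ : ℝ, g τ * ‖S m k τ‖ := by
      intro f hf hfg
      refine integral_mono (hSint m k _ hf.norm) (hSint m k _ hgi) fun τ => ?_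
      exact mul_le_mul_of_nonneg_right (hfg τ) (norm_nonneg _)
    have hfin : ∀ J : ℝ, J ≤ ∫ τ : ℝ, g τ * ‖S m k τ‖ → t ^ (-(1 / 2) : ℝ) * J ≤
        (Y / 2) ^ (-(1 / 2) : ℝ) *
          (m * (|(k : ℝ)| ^ (-(1 / 2) : ℝ) * ∫ τ : ℝ, g τ * ‖S m k τ‖)) := by
      intro J hJ
      rw [p1]
      have h1 : 0 ≤ |(k : ℝ)| ^ (-(1 / 2) : ℝ) * (Y / 2) ^ (-(1 / 2) : ℝ) * m := by
        (clear * - hk0 hYpos hm0; positivity)
      calc _ ≤ |(k : ℝ)| ^ (-(1 / 2) : ℝ) * (Y / 2) ^ (-(1 / 2) : ℝ) * m *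
              ∫ τ : ℝ, g τ * ‖S m k τ‖ :=
            mul_le_mul_of_nonneg_left hJ h1
        _ = _ := by ring
    have hdiv : ∀ (z : ℝ) (q : ℕ × ℕ × ℕ × ℕ), q ∈ e7P M → z * (Y / 2) * ((m : ℝ) ^ 2)⁻¹ /
        e7n q = z * Y / (2 * (m : ℝ) ^ 2 * e7n q) := by
      intro z q hq
      have hq0 : (0 : ℝ) < e7n q := by exact_mod_cast e7n_pos hq
      field_simp
    rcases lt_or_gt_of_ne hk0 with hneg | hpos
    · have h1 := e7_key f₂ hf2i hc₂ (Ft F (-σ)) hm₂ t htpos (e7P M) (e7c W₁ W₂ m)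
        (fun q => gg k (e7n q)) e7n (fun q hq => e7n_pos hq)
      have h2 : ∀ q ∈ e7P M, Ft F (-σ) (t / e7n q) =
          Ft F σ ((k : ℝ) * Y / (2 * (m : ℝ) ^ 2 * e7n q)) := by
        intro q hq
        rw [← e7_Ft_neg]
        congr 1
        have : |(k : ℝ)| = -(k : ℝ) := abs_of_neg (by exact_mod_cast hneg)
        rw [ht, this, hdiv _ q hq]
        ring
      have h3 : ∑ q ∈ e7P M, e7c W₁ W₂ m q / √(e7n q : ℝ) *
          (gg k (e7n q) * Ft F σ ((k : ℝ) * Y / (2 * (m : ℝ) ^ 2 * e7n q))) =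
          ∑ q ∈ e7P M, e7c W₁ W₂ m q / √(e7n q : ℝ) *
          (gg k (e7n q) * Ft F (-σ) (t / e7n q)) :=
        sum_congr rfl fun q hq => by rw [h2 q hq]
      rw [h3]
      refine h1.trans (hfin _ ?_)
      refine le_trans (le_of_eq ?_)
        (hmono f₂ hf2i fun τ => by rw [hg]; linarith only [norm_nonneg (f₁ τ)])
      refine integral_congr_ae (Filter.Eventually.of_forall fun τ => ?_)
      simp only [hS]
    · have h1 := e7_key f₁ hf1i hc₁ (Ft F σ) hm₁ t htpos (e7P M) (e7c W₁ W₂ m)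
        (fun q => gg k (e7n q)) e7n (fun q hq => e7n_pos hq)
      have h2 : ∀ q ∈ e7P M, Ft F σ (t / e7n q) =
          Ft F σ ((k : ℝ) * Y / (2 * (m : ℝ) ^ 2 * e7n q)) := by
        intro q hq
        congr 1
        have : |(k : ℝ)| = (k : ℝ) := abs_of_pos (by exact_mod_cast hpos)
        rw [ht, this, hdiv _ q hq]
      have h3 : ∑ q ∈ e7P M, e7c W₁ W₂ m q / √(e7n q : ℝ) *
          (gg k (e7n q) * Ft F σ ((k : ℝ) * Y / (2 * (m : ℝ) ^ 2 * e7n q))) =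
          ∑ q ∈ e7P M, e7c W₁ W₂ m q / √(e7n q : ℝ) *
          (gg k (e7n q) * Ft F σ (t / e7n q)) :=
        sum_congr rfl fun q hq => by rw [h2 q hq]
      rw [h3]
      refine h1.trans (hfin _ ?_)
      refine le_trans (le_of_eq ?_)
        (hmono f₁ hf1i fun τ => by rw [hg]; linarith only [norm_nonneg (f₂ τ)])
      refine integral_congr_ae (Filter.Eventually.of_forall fun τ => ?_)
      simp only [hS]
  -- the sum over `m` and `k` inside the integral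
  have hsumint : ∑ m ∈ R0, ∑ k ∈ Q m, |(k : ℝ)| ^ (-(1 / 2) : ℝ) * ∫ τ : ℝ, g τ * ‖S m k τ‖ ≤
      K * X ^ ε * (√(K1 : ℝ) + X ^ θ) * I := by
    have h1 : ∑ m ∈ R0, ∑ k ∈ Q m, |(k : ℝ)| ^ (-(1 / 2) : ℝ) * ∫ τ : ℝ, g τ * ‖S m k τ‖ =
        ∫ τ : ℝ, g τ * ∑ m ∈ R0, ∑ k ∈ Q m, |(k : ℝ)| ^ (-(1 / 2) : ℝ) * ‖S m k τ‖ := by
      have h2 : ∀ m ∈ R0, ∑ k ∈ Q m, |(k : ℝ)| ^ (-(1 / 2) : ℝ) * ∫ τ : ℝ, g τ * ‖S m k τ‖ =
          ∫ τ : ℝ, ∑ k ∈ Q m, |(k : ℝ)| ^ (-(1 / 2) : ℝ) * (g τ * ‖S m k τ‖) := by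
        intro m _
        rw [integral_finsetSum _ (fun k _ => (hSint m k g hgi).const_mul _)]
        refine sum_congr rfl fun k _ => ?_
        rw [integral_const_mul]
      rw [sum_congr rfl h2, ← integral_finsetSum _
        (fun m _ => integrable_finsetSum _ fun k _ => (hSint m k g hgi).const_mul _)]
      refine integral_congr_ae (Filter.Eventually.of_forall fun τ => ?_)
      simp only [mul_sum]
      refine sum_congr rfl fun m _ => sum_congr rfl fun k _ => ?_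
      ring
    rw [h1]
    have h3 : ∀ τ : ℝ, ∑ m ∈ R0, ∑ k ∈ Q m, |(k : ℝ)| ^ (-(1 / 2) : ℝ) * ‖S m k τ‖ ≤
        K * X ^ ε * (1 + |τ|) ^ (2 * B) * (√(K1 : ℝ) + X ^ θ) := by
      intro τ
      have h4 := hsk X hX22 W₁ W₂ hW₁ hW₂ hS₁ hS₂ ⌊X ^ η⌋₊ K1 hK1one hK1X τ
      rw [← hM, ← hR0] at h4
      refine le_trans (le_of_eq ?_) h4
      refine sum_congr rfl fun m _ => ?_
      rw [hQ]
      refine sum_congr rfl fun k _ => ?_
      rw [e7_cplx, hS]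
    rw [hI]
    calc ∫ τ : ℝ, g τ * ∑ m ∈ R0, ∑ k ∈ Q m, |(k : ℝ)| ^ (-(1 / 2) : ℝ) * ‖S m k τ‖ ≤
        ∫ τ : ℝ, K * X ^ ε * (√(K1 : ℝ) + X ^ θ) * (g τ * (1 + |τ|) ^ (2 * B)) := by
          refine integral_mono ?_ ((hgB (2 * B)).const_mul _) fun τ => ?_
          · have h5 : (fun τ : ℝ => g τ * ∑ m ∈ R0, ∑ k ∈ Q m,
                |(k : ℝ)| ^ (-(1 / 2) : ℝ) * ‖S m k τ‖) =
                fun τ => ∑ m ∈ R0, ∑ k ∈ Q m,
                  |(k : ℝ)| ^ (-(1 / 2) : ℝ) * (g τ * ‖S m k τ‖) := by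
              funext τ
              rw [mul_sum]
              refine sum_congr rfl fun m _ => ?_
              rw [mul_sum]
              exact sum_congr rfl fun k _ => by ring
            rw [h5]
            exact integrable_finsetSum _ fun m _ =>
              integrable_finsetSum _ fun k _ => (hSint m k g hgi).const_mul _
          · have h6 := mul_le_mul_of_nonneg_left (h3 τ) (hg0 τ)
            simp only
            linarith only [h6]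
      _ = _ := by rw [integral_const_mul]
  -- the truncated sum for a single `m`
  have hTm : ∀ m ∈ R0, |quad W₁ W₂ m M (T m)| ≤ 2 * ((Y / 2) ^ (-(1 / 2) : ℝ) *
        (m * ∑ k ∈ Q m, |(k : ℝ)| ^ (-(1 / 2) : ℝ) * ∫ τ : ℝ, g τ * ‖S m k τ‖)) := by
    intro m hmR
    have h1 : quad W₁ W₂ m M (T m) = ∑ k ∈ Q m, c k * ∑ q ∈ e7P M,
        e7c W₁ W₂ m q / √(e7n q : ℝ) *
          (gg k (e7n q) * Ft F σ ((k : ℝ) * Y / (2 * (m : ℝ) ^ 2 * e7n q))) := by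
      have h2 : quad W₁ W₂ m M (T m) = ∑ k ∈ Icc (-(K1 : ℤ)) K1, ∑ q ∈ e7P M,
          e7c W₁ W₂ m q / √(e7n q : ℝ) * (if IsSquare k ∨ ¬ (m : ℤ) ∣ k then 0 else c k *
            gg k (e7n q) * Ft F σ ((k : ℝ) * Y / (2 * (m : ℝ) ^ 2 * e7n q))) := by
        rw [e7_quad, sum_comm]
        refine sum_congr rfl fun q _ => ?_
        rw [hT, mul_sum]
      rw [h2, hQ, sum_filter]
      refine sum_congr rfl fun k _ => ?_
      by_cases hsq : IsSquare k ∨ ¬ (m : ℤ) ∣ k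
      · have hn : ¬ (¬ IsSquare k ∧ (m : ℤ) ∣ k) := by tauto
        rw [if_neg hn]
        simp [hsq]
      · have hn : ¬ IsSquare k ∧ (m : ℤ) ∣ k := by tauto
        rw [if_pos hn, mul_sum]
        refine sum_congr rfl fun q _ => ?_
        rw [if_neg hsq]
        ring
    rw [h1, mul_sum, mul_sum, mul_sum]
    refine (abs_sum_le_sum_abs _ _).trans (sum_le_sum fun k hkQ => ?_)
    rw [abs_mul]
    exact mul_le_mul (hcb k) (hk m hmR k hkQ) (abs_nonneg _) (by norm_num)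
  have hin0 : ∀ m : ℕ, 0 ≤ ∑ k ∈ Q m, |(k : ℝ)| ^ (-(1 / 2) : ℝ) *
      ∫ τ : ℝ, g τ * ‖S m k τ‖ := by
    intro m
    refine sum_nonneg fun k _ => mul_nonneg (by (clear * -; positivity)) ?_
    exact integral_nonneg fun τ => mul_nonneg (hg0 τ) (norm_nonneg _)
  have hvm : ∀ m ∈ R0, |v m / m| ≤ X ^ ε / m := by
    intro m _
    rw [abs_div, Nat.abs_cast]
    exact div_le_div_of_nonneg_right (hv m) (Nat.cast_nonneg m)
  have hXε0 : 0 ≤ X ^ ε := by positivity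
  have hTb : |∑ m ∈ R0, v m / m * quad W₁ W₂ m M (T m)| ≤ D₁ * X ^ (-(η₀ / 2)) := by
    have h3 : |∑ m ∈ R0, v m / m * quad W₁ W₂ m M (T m)| ≤ X ^ ε * (2 *
        ((Y / 2) ^ (-(1 / 2) : ℝ) *
        ∑ m ∈ R0, ∑ k ∈ Q m, |(k : ℝ)| ^ (-(1 / 2) : ℝ) * ∫ τ : ℝ, g τ * ‖S m k τ‖)) := by
      rw [mul_sum, mul_sum, mul_sum]
      refine (abs_sum_le_sum_abs _ _).trans (sum_le_sum fun m hm => ?_)
      obtain ⟨hm1, _⟩ := hmem m hm
      have hm0 : (0 : ℝ) < m := by exact_mod_cast hm1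
      rw [abs_mul]
      calc |v m / m| * |quad W₁ W₂ m M (T m)| ≤ X ^ ε / m * (2 * ((Y / 2) ^ (-(1 / 2) : ℝ) *
            (m * ∑ k ∈ Q m, |(k : ℝ)| ^ (-(1 / 2) : ℝ) * ∫ τ : ℝ, g τ * ‖S m k τ‖))) :=
            mul_le_mul (hvm m hm) (hTm m hm) (abs_nonneg _) (by positivity)
        _ = X ^ ε * (2 * ((Y / 2) ^ (-(1 / 2) : ℝ) *
            ∑ k ∈ Q m, |(k : ℝ)| ^ (-(1 / 2) : ℝ) * ∫ τ : ℝ, g τ * ‖S m k τ‖)) := by
            field_simp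
    have p4 : (Y / 2) ^ (-(1 / 2) : ℝ) ≤ (2 * C) ^ (1 / 2 : ℝ) * X ^ (-(1 / 2) : ℝ) := by
      have q1 : X / (2 * C) ≤ Y / 2 := by
        rw [div_le_iff₀ (by positivity)]
        rw [div_le_iff₀ hC] at hY
        nlinarith only [hY]
      have q2 : (Y / 2) ^ (-(1 / 2) : ℝ) ≤ (X / (2 * C)) ^ (-(1 / 2) : ℝ) :=
        Real.rpow_le_rpow_of_nonpos (by positivity) q1 (by norm_num)
      refine q2.trans (le_of_eq ?_)
      rw [Real.div_rpow hXpos.le (by positivity), Real.rpow_neg (by positivity : 0 ≤ 2 * C),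
        div_inv_eq_mul, mul_comm]
    have p5 : √(K1 : ℝ) + X ^ θ ≤ 2 * X ^ (θ + η + ε / 2) := by
      have q1 : √(K1 : ℝ) ≤ X ^ (θ + η + ε / 2) := by
        rw [Real.sqrt_le_left (by positivity), ← Real.rpow_natCast, ← Real.rpow_mul hXpos.le]
        refine hK1le.trans (le_of_eq ?_)
        congr 1
        push_cast
        ring
      have q2 : X ^ θ ≤ X ^ (θ + η + ε / 2) :=
        Real.rpow_le_rpow_of_exponent_le hXone (by linarith only [hε0, hη])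
      linarith only [q1, q2]
    have p6 : X ^ ε * X ^ (-(1 / 2) : ℝ) * X ^ ε * X ^ (θ + η + ε / 2) ≤
        X ^ (-(η₀ / 2)) := by
      rw [← Real.rpow_add hXpos, ← Real.rpow_add hXpos, ← Real.rpow_add hXpos]
      refine Real.rpow_le_rpow_of_exponent_le hXone ?_
      rw [hε, hη₀]
      linarith only [hθη]
    refine h3.trans ?_
    calc X ^ ε * (2 * ((Y / 2) ^ (-(1 / 2) : ℝ) *
        ∑ m ∈ R0, ∑ k ∈ Q m, |(k : ℝ)| ^ (-(1 / 2) : ℝ) * ∫ τ : ℝ, g τ * ‖S m k τ‖)) ≤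
        X ^ ε * (2 * (((2 * C) ^ (1 / 2 : ℝ) * X ^ (-(1 / 2) : ℝ)) *
          (K * X ^ ε * (√(K1 : ℝ) + X ^ θ) * I))) := by
          refine mul_le_mul_of_nonneg_left ?_ hXε0
          refine mul_le_mul_of_nonneg_left ?_ (by norm_num)
          refine mul_le_mul p4 hsumint ?_ (by positivity)
          exact sum_nonneg fun m _ => hin0 m
      _ ≤ X ^ ε * (2 * (((2 * C) ^ (1 / 2 : ℝ) * X ^ (-(1 / 2) : ℝ)) *
          (K * X ^ ε * (2 * X ^ (θ + η + ε / 2)) * I))) := by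
          (clear * - p5 hK hX2 hI0 hC; gcongr)
      _ = D₁ * (X ^ ε * X ^ (-(1 / 2) : ℝ) * X ^ ε * X ^ (θ + η + ε / 2)) := by
          rw [hD₁]; ring
      _ ≤ D₁ * X ^ (-(η₀ / 2)) := mul_le_mul_of_nonneg_left p6 hD₁0
  have hDf : |∑ m ∈ R0, v m / m * (quad W₁ W₂ m M (NSm F σ c m Y) -
      quad W₁ W₂ m M (T m))| ≤ C ^ 2 * X ^ (-(η₀ / 2)) := by
    have h1 : ∀ m ∈ R0, |v m / m * (quad W₁ W₂ m M (NSm F σ c m Y) -
        quad W₁ W₂ m M (T m))| ≤ X ^ ε * (C ^ 2 * X ^ (-4 : ℝ)) := by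
      intro m hm
      obtain ⟨hm1, _⟩ := hmem m hm
      have hm1' : (1 : ℝ) ≤ m := by exact_mod_cast hm1
      rw [abs_mul]
      refine mul_le_mul ((hvm m hm).trans (div_le_self hXε0 hm1')) (hA m hm) (abs_nonneg _) hXε0
    refine ((abs_sum_le_sum_abs _ _).trans (sum_le_sum h1)).trans ?_
    rw [sum_const, nsmul_eq_mul]
    calc (R0.card : ℝ) * (X ^ ε * (C ^ 2 * X ^ (-4 : ℝ))) ≤
          X ^ η * (X ^ ε * (C ^ 2 * X ^ (-4 : ℝ))) := by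
            (clear * - hcard hC hX2; gcongr)
      _ = C ^ 2 * (X ^ η * X ^ ε * X ^ (-4 : ℝ)) := by ring
      _ ≤ C ^ 2 * X ^ (-(η₀ / 2)) := by
          refine mul_le_mul_of_nonneg_left ?_ (by positivity)
          rw [← Real.rpow_add hXpos, ← Real.rpow_add hXpos]
          refine Real.rpow_le_rpow_of_exponent_le hXone ?_
          rw [hε, hη₀]
          linarith only [hθη, hθ, hη]
  have hfin : |∑ m ∈ R0, v m / m * quad W₁ W₂ m M (NSm F σ c m Y)| ≤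
      E * X ^ (-(η₀ / 2)) := by
    have h0 : ∑ m ∈ R0, v m / m * quad W₁ W₂ m M (NSm F σ c m Y) =
        ∑ m ∈ R0, v m / m * (quad W₁ W₂ m M (NSm F σ c m Y) - quad W₁ W₂ m M (T m)) +
        ∑ m ∈ R0, v m / m * quad W₁ W₂ m M (T m) := by
      rw [← sum_add_distrib]
      refine sum_congr rfl fun m _ => ?_
      ring
    have h1 := abs_add_le (∑ m ∈ R0, v m / m * (quad W₁ W₂ m M (NSm F σ c m Y) -
      quad W₁ W₂ m M (T m))) (∑ m ∈ R0, v m / m * quad W₁ W₂ m M (T m))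
    rw [← h0] at h1
    have h2 : 0 ≤ X ^ (-(η₀ / 2)) := by positivity
    rw [hE]
    nlinarith only [hDf, hTb, h1, h2]
  refine hfin.trans ?_
  have hEX : E ≤ X ^ (η₀ / 4) := by
    have h1 : (E ^ (4 / η₀)) ^ (η₀ / 4) ≤ X ^ (η₀ / 4) :=
      Real.rpow_le_rpow (by positivity) hXE (by linarith only [hη₀0])
    rw [← Real.rpow_mul hE0.le] at h1
    have h2 : 4 / η₀ * (η₀ / 4) = 1 := by field_simp
    rwa [h2, Real.rpow_one] at h1
  calc E * X ^ (-(η₀ / 2)) ≤ X ^ (η₀ / 4) * X ^ (-(η₀ / 2)) := by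
        (clear * - hEX hX2; gcongr)
    _ = X ^ (-(η₀ / 4)) := by rw [← Real.rpow_add hXpos]; congr 1; ring

end Pool.Agent.MP0016c7.PC
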